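import Mathlib

set_option autoImplicit false

namespace H569R3.Hall

open FreeMagma

variable {A : Type} [LinearOrder (FreeMagma A)]

/-- The Hall set axioms, with the order as an instance. -/
structure IsHall (H : Set (FreeMagma A)) : Prop where
  letter : ∀ a : A, FreeMagma.of a ∈ H
  right : ∀ s t : FreeMagma A, s * t ∈ H → t ∈ H ∧ s * t < t
  iff : ∀ s t : FreeMagma A, s * t ∈ H ↔
      (s ∈ H ∧ t ∈ H ∧ s < t ∧
        ((∃ a : A, s = FreeMagma.of a) ∨ ∃ u v : FreeMagma A, s = u * v ∧ t ≤ v))

omit [LinearOrder (FreeMagma A)] in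
lemma cases_tree (t : FreeMagma A) : (∃ a : A, t = FreeMagma.of a) ∨ ∃ u v : FreeMagma A, t = u * v := by
  cases t with
  | of a => exact Or.inl ⟨a, rfl⟩
  | mul u v => exact Or.inr ⟨u, v, rfl⟩

/-- foliage of a tree -/
def fol : FreeMagma A → List A
  | .of a => [a]
  | .mul x y => fol x ++ fol y

omit [LinearOrder (FreeMagma A)] in
@[simp] lemma fol_of (a : A) : fol (FreeMagma.of a) = [a] := rfl
omit [LinearOrder (FreeMagma A)] in
@[simp] lemma fol_mul (x y : FreeMagma A) : fol (x * y) = fol x ++ fol y := rfl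

/-- foliage of a list of trees -/
def folL : List (FreeMagma A) → List A
  | [] => []
  | t :: l => fol t ++ folL l

omit [LinearOrder (FreeMagma A)] in
@[simp] lemma folL_nil : folL ([] : List (FreeMagma A)) = [] := rfl
omit [LinearOrder (FreeMagma A)] in
@[simp] lemma folL_cons (t : FreeMagma A) (l : List (FreeMagma A)) :
    folL (t :: l) = fol t ++ folL l := rfl

/-- absorb the following trees as long as they are larger. -/
def pins : FreeMagma A → List (FreeMagma A) → List (FreeMagma A)
  | t, [] => [t]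
  | t, h :: l => if t < h then pins (t * h) l else t :: h :: l

/-- greedy parsing of a word. -/
def parse : List A → List (FreeMagma A)
  | [] => []
  | a :: w => pins (FreeMagma.of a) (parse w)

/-- standardness of a tree relative to the list following it. -/
def Std (t : FreeMagma A) (l : List (FreeMagma A)) : Prop :=
  (∃ a : A, t = FreeMagma.of a) ∨ ∃ u v : FreeMagma A, t = u * v ∧ ∀ h ∈ l, h ≤ v

/-- nonincreasing lists of Hall trees -/
def NI (H : Set (FreeMagma A)) (l : List (FreeMagma A)) : Prop :=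
  (∀ t ∈ l, t ∈ H) ∧ l.Pairwise (fun x y => ¬ x < y)

lemma NI.tail {H : Set (FreeMagma A)} {t : FreeMagma A} {l : List (FreeMagma A)}
    (h : NI H (t :: l)) : NI H l :=
  ⟨fun s hs => h.1 s (List.mem_cons_of_mem _ hs), (List.pairwise_cons.1 h.2).2⟩

lemma NI.le {H : Set (FreeMagma A)} {t : FreeMagma A} {l : List (FreeMagma A)}
    (h : NI H (t :: l)) : ∀ s ∈ l, s ≤ t := fun s hs =>
  not_lt.1 ((List.pairwise_cons.1 h.2).1 s hs)

lemma pins_spec {H : Set (FreeMagma A)} (hH : IsHall H) : ∀ (l : List (FreeMagma A))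
    (t : FreeMagma A), t ∈ H → NI H l → Std t l →
      NI H (pins t l) ∧ folL (pins t l) = fol t ++ folL l := by
  intro l
  induction l with
  | nil => intro t ht _ _; exact ⟨⟨by simpa [pins] using ht, by simp [pins]⟩, by simp [pins]⟩
  | cons h l ih =>
    intro t ht hl hstd
    by_cases hlt : t < h
    · simp only [pins, hlt, if_true]
      have hh : h ∈ H := hl.1 h (by simp)
      have hth : t * h ∈ H := (hH.iff t h).2 ⟨ht, hh, hlt, by
        rcases hstd with h1 | ⟨u, v, h1, h2⟩
        · exact Or.inl h1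
        · exact Or.inr ⟨u, v, h1, h2 h (by simp)⟩⟩
      obtain ⟨h1, h2⟩ := ih (t * h) hth hl.tail (Or.inr ⟨t, h, rfl, hl.le⟩)
      exact ⟨h1, by rw [h2, fol_mul, folL_cons, List.append_assoc]⟩
    · simp only [pins, hlt, if_false]
      refine ⟨⟨?_, ?_⟩, by simp⟩
      · intro s hs
        rcases List.mem_cons.1 hs with rfl | hs
        · exact ht
        · exact hl.1 s hs
      · refine List.pairwise_cons.2 ⟨?_, hl.2⟩
        intro s hs
        rw [not_lt] at hlt ⊢
        rcases List.mem_cons.1 hs with rfl | hs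
        · exact hlt
        · exact (hl.le s hs).trans hlt

lemma parse_spec {H : Set (FreeMagma A)} (hH : IsHall H) (w : List A) :
    NI H (parse w) ∧ folL (parse w) = w := by
  induction w with
  | nil => exact ⟨⟨by simp [parse], by simp [parse]⟩, rfl⟩
  | cons a w ih =>
    obtain ⟨h1, h2⟩ := pins_spec hH (parse w) (FreeMagma.of a) (hH.letter a) ih.1 (Or.inl ⟨a, rfl⟩)
    exact ⟨h1, by rw [parse, h2, ih.2]; rfl⟩

lemma pins_eq_cons {t : FreeMagma A} {l : List (FreeMagma A)} (h : ∀ s ∈ l, s ≤ t) :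
    pins t l = t :: l := by
  cases l with
  | nil => rfl
  | cons s l => simp [pins, not_lt.2 (h s (by simp))]

lemma parse_fol {H : Set (FreeMagma A)} (hH : IsHall H) (h : FreeMagma A) :
    h ∈ H → ∀ w : List A, Std h (parse w) → parse (fol h ++ w) = pins h (parse w) := by
  induction h with
  | ih1 a => intro _ w _; rfl
  | ih2 x y ihx ihy =>
    intro hxy w hstd
    have hxy' := (hH.iff x y).1 hxy
    obtain ⟨hx, hy, hlt, hs⟩ := hxy'
    have hgy : ∀ g ∈ parse w, g ≤ y := by
      rcases hstd with ⟨a, ha⟩ | ⟨u, v, h1, h2⟩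
      · cases ha
      · cases h1; exact h2
    have hsy : Std y (parse w) := by
      rcases cases_tree y with h1 | ⟨u, v, rfl⟩
      · exact Or.inl h1
      · exact Or.inr ⟨u, v, rfl, fun g hg => (hgy g hg).trans (hH.right u v hy).2.le⟩
    have e1 : parse (fol y ++ w) = y :: parse w := by
      rw [ihy hy w hsy, pins_eq_cons hgy]
    have hsx : Std x (parse (fol y ++ w)) := by
      rw [e1]
      rcases hs with h1 | ⟨u, v, h1, h2⟩
      · exact Or.inl h1
      · refine Or.inr ⟨u, v, h1, ?_⟩
        intro g hg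
        rcases List.mem_cons.1 hg with rfl | hg
        · exact h2
        · exact (hgy g hg).trans h2
    have e2 : fol (x * y) ++ w = fol x ++ (fol y ++ w) := by
      rw [fol_mul, List.append_assoc]
    rw [e2, ihx hx _ hsx, e1]
    simp [pins, hlt]

lemma parse_folL {H : Set (FreeMagma A)} (hH : IsHall H) (l : List (FreeMagma A))
    (hl : NI H l) : parse (folL l) = l := by
  induction l with
  | nil => rfl
  | cons h l ih =>
    have ih' := ih hl.tail
    have hstd : Std h (parse (folL l)) := by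
      rw [ih']
      rcases cases_tree h with h1 | ⟨u, v, rfl⟩
      · exact Or.inl h1
      · exact Or.inr ⟨u, v, rfl, fun g hg =>
          (hl.le g hg).trans (hH.right u v (hl.1 _ (by simp))).2.le⟩
    rw [folL_cons, parse_fol hH h (hl.1 h (by simp)) _ hstd, ih', pins_eq_cons hl.le]

/-- nonincreasing lists of Hall trees correspond to words. -/
def hallEquiv {H : Set (FreeMagma A)} (hH : IsHall H) : {l : List (FreeMagma A) // NI H l} ≃ List A where
  toFun l := folL l.1
  invFun w := ⟨parse w, (parse_spec hH w).1⟩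
  left_inv l := Subtype.ext (parse_folL hH l.1 l.2)
  right_inv w := (parse_spec hH w).2

/-- The set of Hall trees not in `U` whose right factor is in `U` (or letters). -/
def gens (H U : Set (FreeMagma A)) : Set (FreeMagma A) :=
  {h | h ∈ H ∧ h ∉ U ∧ ((∃ a : A, h = FreeMagma.of a) ∨ ∃ u v : FreeMagma A, h = u * v ∧ v ∈ U)}

lemma gens_step {H U : Set (FreeMagma A)} (hH : IsHall H)
    (hU : ∀ s ∈ U, ∀ t ∈ H, s < t → t ∈ U) {z : FreeMagma A} (hz : z ∈ H) (hzU : z ∉ U)
    {b : FreeMagma A} (hb : b ∈ gens H (U ∪ {h | h ∈ H ∧ z ≤ h})) :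
    b * z ∈ gens H (U ∪ {h | h ∈ H ∧ z ≤ h}) := by
  obtain ⟨hbH, hbU, hb3⟩ := hb
  have hbz : b < z := by
    by_contra hcon
    exact hbU (Or.inr ⟨hbH, not_lt.1 hcon⟩)
  have hmem : b * z ∈ H := (hH.iff b z).2 ⟨hbH, hz, hbz, by
    rcases hb3 with h1 | ⟨u, v, h1, h2⟩
    · exact Or.inl h1
    · refine Or.inr ⟨u, v, h1, ?_⟩
      rcases h2 with h2 | h2
      · by_contra hcon
        exact hzU (hU v h2 z hz (not_le.1 hcon))
      · exact h2.2⟩
  have hlt : b * z < z := (hH.right b z hmem).2
  refine ⟨hmem, ?_, Or.inr ⟨b, z, rfl, Or.inr ⟨hz, le_rfl⟩⟩⟩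
  rintro (h1 | h1)
  · exact hzU (hU _ h1 z hz hlt)
  · exact absurd h1.2 (not_le.2 hlt)

end H569R3.Hall
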