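import Mathlib

set_option autoImplicit false

namespace H569R3.Hall

universe u v

/-- A commutative rational algebra with an iterated integration operation: think of
`hs x y` as the integral of `x` against the differential of `y`. -/
structure Integ (R : Type u) [CommRing R] [Algebra ℚ R] where
  hs : R →ₗ[ℚ] R →ₗ[ℚ] R
  pos : Submodule ℚ R
  mul_pos : ∀ x y, y ∈ pos → x * y ∈ pos
  hs_pos : ∀ x y, hs x y ∈ pos
  hs_mul : ∀ x y w, hs (x * y) w = hs x (hs y w)
  hs_add : ∀ x y, x ∈ pos → y ∈ pos → x * y = hs x y + hs y x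
  one_hs : ∀ y, y ∈ pos → hs 1 y = y

variable {R : Type u} [CommRing R] [Algebra ℚ R] (I : Integ R) {X : Type v} (a : X → R)

/-- iterated integrals; the head of the list is the outermost letter. -/
def J : List X → R
  | [] => 1
  | x :: w => I.hs (J w) (a x)

@[simp] lemma J_nil : J I a [] = 1 := rfl
@[simp] lemma J_cons (x : X) (w : List X) : J I a (x :: w) = I.hs (J I a w) (a x) := rfl

lemma J_pos (x : X) (w : List X) : J I a (x :: w) ∈ I.pos := I.hs_pos _ _

/-- span of the iterated integrals with letters in `B`. -/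
def C (B : Set X) : Submodule ℚ R :=
  Submodule.span ℚ {f | ∃ w : List X, (∀ x ∈ w, x ∈ B) ∧ J I a w = f}

variable {I a}

lemma J_mem_C {B : Set X} {w : List X} (h : ∀ x ∈ w, x ∈ B) : J I a w ∈ C I a B :=
  Submodule.subset_span ⟨w, h, rfl⟩

lemma hs_mem_C {B : Set X} {c : R} (hc : c ∈ C I a B) {x : X} (hx : x ∈ B) :
    I.hs c (a x) ∈ C I a B := by
  induction hc using Submodule.span_induction with
  | mem f hf =>
    obtain ⟨w, hw, rfl⟩ := hf
    exact J_mem_C (w := x :: w) (by
      intro y hy
      rcases List.mem_cons.1 hy with rfl | hy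
      · exact hx
      · exact hw y hy)
  | zero => simp
  | add f g _ _ hf hg => rw [map_add, LinearMap.add_apply]; exact add_mem hf hg
  | smul r f _ hf => rw [map_smul, LinearMap.smul_apply]; exact Submodule.smul_mem _ _ hf

lemma J_mul_mem {B : Set X} : ∀ (n : ℕ) (s t : List X), s.length + t.length ≤ n →
    (∀ x ∈ s, x ∈ B) → (∀ x ∈ t, x ∈ B) → J I a s * J I a t ∈ C I a B := by
  intro n
  induction n with
  | zero =>
    intro s t h hs ht
    have h1 : s = [] := List.length_eq_zero_iff.1 (by omega)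
    have h2 : t = [] := List.length_eq_zero_iff.1 (by omega)
    subst h1 h2
    simpa using J_mem_C (I := I) (a := a) (B := B) (w := []) (by simp)
  | succ n ih =>
    intro s t h hs ht
    match s, t with
    | [], t => simpa using J_mem_C (I := I) (a := a) ht
    | x :: s, [] => simpa using J_mem_C (I := I) (a := a) hs
    | x :: s, y :: t =>
      have hx : x ∈ B := hs x (by simp)
      have hy : y ∈ B := ht y (by simp)
      rw [I.hs_add _ _ (J_pos I a x s) (J_pos I a y t)]
      have e1 : I.hs (J I a (x :: s)) (J I a (y :: t))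
          = I.hs (J I a (x :: s) * J I a t) (a y) := by
        rw [J_cons I a y t, ← I.hs_mul]
      have e2 : I.hs (J I a (y :: t)) (J I a (x :: s))
          = I.hs (J I a (y :: t) * J I a s) (a x) := by
        rw [J_cons I a x s, ← I.hs_mul]
      rw [e1, e2]
      refine add_mem (hs_mem_C (ih _ _ ?_ hs ?_) hy) (hs_mem_C (ih _ _ ?_ ht ?_) hx)
      · simp only [List.length_cons] at h ⊢; omega
      · intro w hw; exact ht w (List.mem_cons_of_mem _ hw)
      · simp only [List.length_cons] at h ⊢; omega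
      · intro w hw; exact hs w (List.mem_cons_of_mem _ hw)

lemma mul_mem_C {B : Set X} {c d : R} (hc : c ∈ C I a B) (hd : d ∈ C I a B) :
    c * d ∈ C I a B := by
  induction hc using Submodule.span_induction with
  | mem f hf =>
    obtain ⟨s, hs, rfl⟩ := hf
    induction hd using Submodule.span_induction with
    | mem g hg =>
      obtain ⟨t, ht, rfl⟩ := hg
      exact J_mul_mem _ s t le_rfl hs ht
    | zero => simp
    | add f g _ _ hf hg => rw [mul_add]; exact add_mem hf hg
    | smul r f _ hf => rw [mul_smul_comm]; exact Submodule.smul_mem _ _ hf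
  | zero => simp
  | add f g _ _ hf hg => rw [add_mul]; exact add_mem hf hg
  | smul r f _ hf => rw [smul_mul_assoc]; exact Submodule.smul_mem _ _ hf

lemma letter_mem_C (ha : ∀ x, a x ∈ I.pos) {B : Set X} {x : X} (hx : x ∈ B) :
    a x ∈ C I a B := by
  have := J_mem_C (I := I) (a := a) (B := B) (w := [x]) (by simpa using hx)
  rwa [J_cons, J_nil, I.one_hs _ (ha x)] at this

/-- `hs f (z^(k+1)) = (k+1) hs (f z^k) z`. -/
lemma hs_pow {z : R} (hz : z ∈ I.pos) : ∀ (k : ℕ) (f : R),
    I.hs f (z ^ (k + 1)) = ((k : ℚ) + 1) • I.hs (f * z ^ k) z := by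
  intro k
  induction k with
  | zero => intro f; simp
  | succ k ih =>
    intro f
    have hzk : z ^ (k + 1) ∈ I.pos := by
      rw [pow_succ]; exact I.mul_pos _ _ hz
    rw [pow_succ z (k + 1), I.hs_add _ _ hzk hz, map_add, ← I.hs_mul, ← I.hs_mul, ih (f * z)]
    have : f * z * z ^ k = f * z ^ (k + 1) := by ring
    rw [this]
    push_cast
    module

/-- integral of `z^k f` against `z`, by parts. -/
lemma hs_parts {z f : R} (hz : z ∈ I.pos) (hf : f ∈ I.pos) (k : ℕ) :
    ((k : ℚ) + 1) • I.hs (f * z ^ k) z = f * z ^ (k + 1) - I.hs (z ^ (k + 1)) f := by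
  have hzk : z ^ (k + 1) ∈ I.pos := by
    rw [pow_succ]; exact I.mul_pos _ _ hz
  rw [← hs_pow hz, I.hs_add _ _ hf hzk]
  abel

lemma rel {x x' z : X} (hx : a x ∈ I.pos) (hz : a z ∈ I.pos)
    (hx' : a x' = I.hs (a x) (a z) - I.hs (a z) (a x)) (k : ℕ) (c : R) :
    I.hs (a z ^ (k + 1)) (c * a x + ((k : ℚ) + 1) • I.hs c (a x))
      = a z ^ (k + 1) * (c * a x) - ((k : ℚ) + 1) • I.hs (a z ^ k) (I.hs c (a x')) := by
  have hcx : c * a x ∈ I.pos := I.mul_pos _ _ hx
  have h1 := hs_parts hz hcx k
  have h2 : I.hs (a z ^ k) (I.hs c (a x'))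
      = I.hs (c * a x * a z ^ k) (a z) - I.hs (a z ^ (k + 1) * c) (a x) := by
    rw [hx', map_sub, map_sub, ← I.hs_mul, ← I.hs_mul, ← I.hs_mul, ← I.hs_mul]
    congr 2
    · congr 1; ring
    · congr 1; ring
  rw [h2, smul_sub, h1, map_add, map_smul, ← I.hs_mul]
  ring_nf

/-- The image of `Bot + mu` for the operator `Bot` sending `hs c (a x)` to `c * a x`. -/
def M (I : Integ R) (a : X → R) (B : Set X) (mu : ℚ) : Submodule ℚ R :=
  Submodule.span ℚ {f | ∃ c ∈ C I a B, ∃ x ∈ B, f = c * a x + mu • I.hs c (a x)}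

lemma mul_mem_M (ha : ∀ x, a x ∈ I.pos) {B : Set X} {mu : ℚ} {f : R} (hf : f ∈ M I a B (mu + 1))
    {x : X} (hx : x ∈ B) : a x * f ∈ M I a B mu := by
  induction hf using Submodule.span_induction with
  | mem f hf =>
    obtain ⟨c, hc, y, hy, rfl⟩ := hf
    have e : a x * (c * a y + (mu + 1) • I.hs c (a y))
        = ((a x * c) * a y + mu • I.hs (a x * c) (a y))
          + (I.hs c (a y) * a x + mu • I.hs (I.hs c (a y)) (a x)) := by
      have h1 : a x * I.hs c (a y) = I.hs (a x * c) (a y) + I.hs (I.hs c (a y)) (a x) := by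
        rw [I.hs_add _ _ (ha x) (I.hs_pos _ _), I.hs_mul]
      rw [mul_add, mul_smul_comm, add_smul, one_smul]
      rw [h1]
      have h2 : I.hs c (a y) * a x = I.hs (a x * c) (a y) + I.hs (I.hs c (a y)) (a x) := by
        rw [← h1]; ring
      rw [h2, smul_add]
      ring_nf
    rw [e]
    refine add_mem (Submodule.subset_span ⟨_, mul_mem_C (letter_mem_C ha hx) hc, y, hy, rfl⟩)
      (Submodule.subset_span ⟨_, hs_mem_C hc hy, x, hx, rfl⟩)
  | zero => simp
  | add f g _ _ hf hg => rw [mul_add]; exact add_mem hf hg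
  | smul r f _ hf => rw [mul_smul_comm]; exact Submodule.smul_mem _ _ hf

lemma J_mem_M (ha : ∀ x, a x ∈ I.pos) {B : Set X} : ∀ (w : List X) (mu : ℚ), 0 < mu →
    w ≠ [] → (∀ x ∈ w, x ∈ B) → J I a w ∈ M I a B mu := by
  intro w
  induction w with
  | nil => intro mu _ h; exact absurd rfl h
  | cons x w ih =>
    intro mu hmu _ hw
    have hx : x ∈ B := hw x (by simp)
    have hw' : ∀ y ∈ w, y ∈ B := fun y hy => hw y (List.mem_cons_of_mem _ hy)
    by_cases hn : w = []
    · subst hn
      have h1 : (1 : R) * a x + mu • I.hs 1 (a x) ∈ M I a B mu :=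
        Submodule.subset_span ⟨1, by simpa using J_mem_C (I := I) (a := a) (B := B) (w := []) (by simp), x, hx, rfl⟩
      rw [I.one_hs _ (ha x), one_mul] at h1
      have h2 : a x + mu • a x = (1 + mu) • a x := by rw [add_smul, one_smul]
      rw [h2] at h1
      have h3 := Submodule.smul_mem _ ((1 + mu)⁻¹) h1
      rw [smul_smul, inv_mul_cancel₀ (by positivity), one_smul] at h3
      rw [J_cons, J_nil, I.one_hs _ (ha x)]
      exact h3
    · have h1 := ih (mu + 1) (by linarith) hn hw'
      have h2 := mul_mem_M ha h1 hx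
      have h3 : J I a w * a x + mu • I.hs (J I a w) (a x) ∈ M I a B mu :=
        Submodule.subset_span ⟨_, J_mem_C hw', x, hx, rfl⟩
      have h4 := Submodule.smul_mem _ (mu⁻¹) (sub_mem h3 h2)
      have h5 : mu⁻¹ • (J I a w * a x + mu • I.hs (J I a w) (a x) - a x * J I a w)
          = I.hs (J I a w) (a x) := by
        have : J I a w * a x + mu • I.hs (J I a w) (a x) - a x * J I a w
            = mu • I.hs (J I a w) (a x) := by ring
        rw [this, smul_smul, inv_mul_cancel₀ hmu.ne', one_smul]
      rw [h5] at h4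
      exact h4

/-- span of the `z^k J(w)` with `w` in the letters `B`. -/
def W (I : Integ R) (a : X → R) (z : X) (B : Set X) : Submodule ℚ R :=
  Submodule.span ℚ {f | ∃ (k : ℕ) (w : List X), (∀ x ∈ w, x ∈ B) ∧ f = a z ^ k * J I a w}

lemma pow_mul_mem_W {z : X} {B : Set X} (k : ℕ) {c : R} (hc : c ∈ C I a B) :
    a z ^ k * c ∈ W I a z B := by
  induction hc using Submodule.span_induction with
  | mem f hf =>
    obtain ⟨w, hw, rfl⟩ := hf
    exact Submodule.subset_span ⟨k, w, hw, rfl⟩
  | zero => simp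
  | add f g _ _ hf hg => rw [mul_add]; exact add_mem hf hg
  | smul r f _ hf => rw [mul_smul_comm]; exact Submodule.smul_mem _ _ hf

lemma hs_pow_mem_W (ha : ∀ x, a x ∈ I.pos) {z : X} {B : Set X} (nx : X → X)
    (hnx : ∀ x ∈ B, nx x ∈ B)
    (hanx : ∀ x ∈ B, a (nx x) = I.hs (a x) (a z) - I.hs (a z) (a x)) :
    ∀ (k : ℕ) (w : List X), w ≠ [] → (∀ x ∈ w, x ∈ B) →
      I.hs (a z ^ k) (J I a w) ∈ W I a z B := by
  intro k
  induction k with
  | zero =>
    intro w hw hB
    obtain ⟨x, w', rfl⟩ := List.exists_cons_of_ne_nil hw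
    rw [pow_zero, I.one_hs _ (J_pos I a x w')]
    exact Submodule.subset_span ⟨0, x :: w', hB, by simp⟩
  | succ k ih =>
    intro w hw hB
    have h1 := J_mem_M (I := I) ha w ((k : ℚ) + 1) (by positivity) hw hB
    generalize J I a w = f at h1
    induction h1 using Submodule.span_induction with
    | mem f hf =>
      obtain ⟨c, hc, x, hx, rfl⟩ := hf
      rw [rel (ha x) (ha z) (hanx x hx)]
      refine sub_mem (pow_mul_mem_W _ (mul_mem_C hc (letter_mem_C ha hx))) ?_
      apply Submodule.smul_mem
      induction hc using Submodule.span_induction with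
      | mem f hf =>
        obtain ⟨u, hu, rfl⟩ := hf
        exact ih (nx x :: u) (by simp) (by
          intro y hy
          rcases List.mem_cons.1 hy with rfl | hy
          · exact hnx x hx
          · exact hu y hy)
      | zero => simp
      | add f g _ _ hf hg =>
        rw [map_add, LinearMap.add_apply, map_add]; exact add_mem hf hg
      | smul r f _ hf =>
        rw [map_smul, LinearMap.smul_apply, map_smul]; exact Submodule.smul_mem _ _ hf
    | zero => simp
    | add f g _ _ hf hg => rw [map_add]; exact add_mem hf hg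
    | smul r f _ hf => rw [map_smul]; exact Submodule.smul_mem _ _ hf

lemma hs_letter_mem_W (ha : ∀ x, a x ∈ I.pos) {z : X} {B : Set X} (nx : X → X)
    (hnx : ∀ x ∈ B, nx x ∈ B)
    (hanx : ∀ x ∈ B, a (nx x) = I.hs (a x) (a z) - I.hs (a z) (a x))
    {f : R} (hf : f ∈ W I a z B) {b : X} (hb : b = z ∨ b ∈ B) :
    I.hs f (a b) ∈ W I a z B := by
  induction hf using Submodule.span_induction with
  | mem f hf =>
    obtain ⟨k, w, hw, rfl⟩ := hf
    rcases hb with rfl | hb
    · -- against z
      match w with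
      | [] =>
        have h := hs_pow (I := I) (ha b) k 1
        rw [one_mul] at h
        have h2 : I.hs (a b ^ k * J I a []) (a b) = ((k : ℚ) + 1)⁻¹ • (a b ^ (k + 1) * J I a []) := by
          rw [J_nil, mul_one, mul_one]
          have h3 : I.hs 1 (a b ^ (k + 1)) = a b ^ (k + 1) := I.one_hs _ (by
            rw [pow_succ]; exact I.mul_pos _ _ (ha b))
          rw [← h3, h, smul_smul, inv_mul_cancel₀ (by positivity), one_smul]
        rw [h2]
        exact Submodule.smul_mem _ _ (Submodule.subset_span ⟨k + 1, [], by simp, rfl⟩)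
      | x :: w =>
        have h := hs_parts (I := I) (ha b) (J_pos I a x w) k
        have h2 : I.hs (a b ^ k * J I a (x :: w)) (a b)
            = ((k : ℚ) + 1)⁻¹ • (a b ^ (k + 1) * J I a (x :: w)
                - I.hs (a b ^ (k + 1)) (J I a (x :: w))) := by
          rw [mul_comm (a b ^ (k + 1)), ← h, smul_smul, inv_mul_cancel₀ (by positivity), one_smul,
            mul_comm]
        rw [h2]
        refine Submodule.smul_mem _ _ (sub_mem (Submodule.subset_span ⟨k + 1, _, hw, rfl⟩) ?_)
        exact hs_pow_mem_W ha nx hnx hanx (k + 1) (x :: w) (by simp) hw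
    · have : I.hs (a z ^ k * J I a w) (a b) = I.hs (a z ^ k) (J I a (b :: w)) := by
        rw [J_cons, ← I.hs_mul]
      rw [this]
      exact hs_pow_mem_W ha nx hnx hanx k (b :: w) (by simp) (by
        intro y hy
        rcases List.mem_cons.1 hy with rfl | hy
        · exact hb
        · exact hw y hy)
  | zero => simp
  | add f g _ _ hf hg => rw [map_add, LinearMap.add_apply]; exact add_mem hf hg
  | smul r f _ hf => rw [map_smul, LinearMap.smul_apply]; exact Submodule.smul_mem _ _ hf

/-- **Elimination step.** -/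
theorem elim (ha : ∀ x, a x ∈ I.pos) {z : X} {B : Set X} (nx : X → X)
    (hnx : ∀ x ∈ B, nx x ∈ B)
    (hanx : ∀ x ∈ B, a (nx x) = I.hs (a x) (a z) - I.hs (a z) (a x))
    (w : List X) (hw : ∀ b ∈ w, b = z ∨ b ∈ B) : J I a w ∈ W I a z B := by
  induction w with
  | nil => exact Submodule.subset_span ⟨0, [], by simp, by simp⟩
  | cons x w ih =>
    rw [J_cons]
    exact hs_letter_mem_W ha nx hnx hanx (ih (fun b hb => hw b (List.mem_cons_of_mem _ hb)))
      (hw x (by simp))

end H569R3.Hall
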