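import Mathlib
import Pool.Agent.H569R3.HallElim

set_option autoImplicit false

namespace H569R3.Hall

variable {A : Type}

/-- formal combinations of words -/
def V (A : Type) : Type := List A →₀ ℚ

noncomputable instance : AddCommGroup (V A) := inferInstanceAs (AddCommGroup (List A →₀ ℚ))
noncomputable instance : Module ℚ (V A) := inferInstanceAs (Module ℚ (List A →₀ ℚ))

/-- basis vector -/
noncomputable def e (w : List A) : V A := (Finsupp.single w 1 : List A →₀ ℚ)

/-- append a letter at the end -/
noncomputable def snoc (a : A) : V A →ₗ[ℚ] V A :=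
  (Finsupp.lmapDomain ℚ ℚ (fun w : List A => w ++ [a]) : (List A →₀ ℚ) →ₗ[ℚ] (List A →₀ ℚ))

@[simp] lemma snoc_e (a : A) (w : List A) : snoc a (e w) = e (w ++ [a]) := by
  change Finsupp.mapDomain _ (Finsupp.single w (1 : ℚ)) = _
  rw [Finsupp.mapDomain_single]
  rfl

lemma V_induction {p : V A → Prop} (f : V A) (h0 : p 0) (hadd : ∀ f g, p f → p g → p (f + g))
    (hs : ∀ (c : ℚ) w, p (c • e w)) : p f := by
  refine Finsupp.induction_linear (motive := p) f h0 hadd ?_
  intro w c
  have h := hs c w
  have h2 : (c • e w : V A) = (Finsupp.single w c : List A →₀ ℚ) := by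
    change c • (Finsupp.single w (1 : ℚ)) = _
    rw [Finsupp.smul_single, smul_eq_mul, mul_one]
  rw [h2] at h
  exact h

lemma V_lin_ext {M : Type*} [AddCommGroup M] [Module ℚ M] {f g : V A →ₗ[ℚ] M}
    (h : ∀ w, f (e w) = g (e w)) : f = g := by
  apply LinearMap.ext
  intro x
  refine V_induction (p := fun x => f x = g x) x (by simp) ?_ ?_
  · intro a b ha hb; rw [map_add, map_add, ha, hb]
  · intro c w; rw [map_smul, map_smul, h]

/-- The data of the problem: shuffle and half shuffle determined by their recursions. -/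
structure ShData (A : Type) where
  sh : V A →ₗ[ℚ] V A →ₗ[ℚ] V A
  hs : V A →ₗ[ℚ] V A →ₗ[ℚ] V A
  one_sh : ∀ x, sh (e []) x = x
  sh_one : ∀ x, sh x (e []) = x
  sh_snoc : ∀ (u v : List A) (a b : A), sh (e (u ++ [a])) (e (v ++ [b])) =
    snoc a (sh (e u) (e (v ++ [b]))) + snoc b (sh (e (u ++ [a])) (e v))
  hs_nil : ∀ x, hs x (e []) = 0
  hs_snoc : ∀ (x : V A) (v : List A) (b : A), hs x (e (v ++ [b])) = snoc b (sh x (e v))

namespace ShData

variable (D : ShData A)

lemma sh_snoc' (a b : A) (f g : V A) : D.sh (snoc a f) (snoc b g) =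
    snoc a (D.sh f (snoc b g)) + snoc b (D.sh (snoc a f) g) := by
  have key : ∀ u : List A, ∀ g : V A, D.sh (snoc a (e u)) (snoc b g) =
      snoc a (D.sh (e u) (snoc b g)) + snoc b (D.sh (snoc a (e u)) g) := by
    intro u g
    refine V_induction (p := fun g => D.sh (snoc a (e u)) (snoc b g) =
      snoc a (D.sh (e u) (snoc b g)) + snoc b (D.sh (snoc a (e u)) g)) g (by simp) ?_ ?_
    · intro x y hx hy
      simp only [map_add, hx, hy]; abel
    · intro c w
      simp only [map_smul, snoc_e, D.sh_snoc, smul_add]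
  refine V_induction (p := fun f => D.sh (snoc a f) (snoc b g) =
      snoc a (D.sh f (snoc b g)) + snoc b (D.sh (snoc a f) g)) f (by simp) ?_ ?_
  · intro x y hx hy
    simp only [map_add, LinearMap.add_apply, hx, hy]; abel
  · intro c w
    simp only [map_smul, LinearMap.smul_apply, key, smul_add]

lemma comm_e : ∀ (n : ℕ) (u v : List A), u.length + v.length ≤ n →
    D.sh (e u) (e v) = D.sh (e v) (e u) := by
  intro n
  induction n with
  | zero =>
    intro u v h
    have h1 : u = [] := List.length_eq_zero_iff.1 (by omega)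
    have h2 : v = [] := List.length_eq_zero_iff.1 (by omega)
    subst h1 h2; rfl
  | succ n ih =>
    intro u v h
    rcases List.eq_nil_or_concat u with rfl | ⟨u, a, rfl⟩
    · rw [D.one_sh, D.sh_one]
    rcases List.eq_nil_or_concat v with rfl | ⟨v, b, rfl⟩
    · rw [D.one_sh, D.sh_one]
    simp only [List.concat_eq_append, List.length_append, List.length_cons, List.length_nil] at h ⊢
    rw [D.sh_snoc, D.sh_snoc, ih u (v ++ [b]) (by simp; omega), ih (u ++ [a]) v (by simp; omega)]
    abel

lemma comm (f g : V A) : D.sh f g = D.sh g f := by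
  have : D.sh = D.sh.flip := by
    apply V_lin_ext
    intro u
    apply V_lin_ext
    intro v
    exact D.comm_e _ u v le_rfl
  conv_lhs => rw [this]
  rfl

lemma assoc_e : ∀ (n : ℕ) (u v w : List A), u.length + v.length + w.length ≤ n →
    D.sh (D.sh (e u) (e v)) (e w) = D.sh (e u) (D.sh (e v) (e w)) := by
  intro n
  induction n with
  | zero =>
    intro u v w h
    have h1 : u = [] := List.length_eq_zero_iff.1 (by omega)
    subst h1
    rw [D.one_sh, D.one_sh]
  | succ n ih =>
    intro u v w h
    rcases List.eq_nil_or_concat u with rfl | ⟨u, a, rfl⟩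
    · rw [D.one_sh, D.one_sh]
    rcases List.eq_nil_or_concat v with rfl | ⟨v, b, rfl⟩
    · rw [D.one_sh, D.sh_one]
    rcases List.eq_nil_or_concat w with rfl | ⟨w, c, rfl⟩
    · rw [D.sh_one, D.sh_one]
    simp only [List.concat_eq_append, List.length_append, List.length_cons, List.length_nil] at h ⊢
    have i1 := ih u (v ++ [b]) (w ++ [c]) (by simp; omega)
    have i2 := ih (u ++ [a]) v (w ++ [c]) (by simp; omega)
    have i3 := ih (u ++ [a]) (v ++ [b]) w (by simp; omega)
    simp only [← snoc_e] at i1 i2 i3 ⊢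
    have L : D.sh (D.sh (snoc a (e u)) (snoc b (e v))) (snoc c (e w))
        = snoc a (D.sh (D.sh (e u) (snoc b (e v))) (snoc c (e w)))
          + snoc b (D.sh (D.sh (snoc a (e u)) (e v)) (snoc c (e w)))
          + snoc c (D.sh (D.sh (snoc a (e u)) (snoc b (e v))) (e w)) := by
      rw [D.sh_snoc' a b (e u) (e v)]
      simp only [map_add, LinearMap.add_apply]
      rw [D.sh_snoc' a c, D.sh_snoc' b c]
      abel
    have Rr : D.sh (snoc a (e u)) (D.sh (snoc b (e v)) (snoc c (e w)))
        = snoc a (D.sh (e u) (D.sh (snoc b (e v)) (snoc c (e w))))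
          + snoc b (D.sh (snoc a (e u)) (D.sh (e v) (snoc c (e w))))
          + snoc c (D.sh (snoc a (e u)) (D.sh (snoc b (e v)) (e w))) := by
      rw [D.sh_snoc' b c, map_add, D.sh_snoc' a b, D.sh_snoc' a c, map_add, map_add]
      abel
    rw [L, Rr, i1, i2, i3]

lemma assoc (f g h : V A) : D.sh (D.sh f g) h = D.sh f (D.sh g h) := by
  refine V_induction (p := fun f => D.sh (D.sh f g) h = D.sh f (D.sh g h)) f (by simp) ?_ ?_
  · intro x y hx hy
    simp only [map_add, LinearMap.add_apply, hx, hy]
  intro c u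
  simp only [map_smul, LinearMap.smul_apply]
  congr 1
  refine V_induction (p := fun g => D.sh (D.sh (e u) g) h = D.sh (e u) (D.sh g h)) g (by simp) ?_ ?_
  · intro x y hx hy
    simp only [map_add, LinearMap.add_apply, hx, hy]
  intro c v
  simp only [map_smul, LinearMap.smul_apply]
  congr 1
  refine V_induction (p := fun h => D.sh (D.sh (e u) (e v)) h = D.sh (e u) (D.sh (e v) h)) h
    (by simp) ?_ ?_
  · intro x y hx hy
    simp only [map_add, hx, hy]
  intro c w
  simp only [map_smul]
  congr 1
  exact D.assoc_e _ u v w le_rfl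

/-- The shuffle algebra as a type synonym carrying the ring structure. -/
def Rg (_D : ShData A) : Type := V A

noncomputable instance : AddCommGroup D.Rg := inferInstanceAs (AddCommGroup (V A))

noncomputable instance ring : CommRing D.Rg :=
  { (inferInstance : AddCommGroup D.Rg) with
    mul := fun x y => D.sh x y
    one := e []
    left_distrib := fun x y z => by
      change D.sh x (y + z) = D.sh x y + D.sh x z
      exact map_add _ _ _
    right_distrib := fun x y z => by
      change D.sh (x + y) z = D.sh x z + D.sh y z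
      exact LinearMap.map_add₂ _ _ _ _
    zero_mul := fun x => by
      change D.sh 0 x = 0
      rw [map_zero]; rfl
    mul_zero := fun x => by
      change D.sh x 0 = 0
      exact map_zero _
    mul_assoc := fun x y z => D.assoc x y z
    one_mul := fun x => D.one_sh x
    mul_one := fun x => D.sh_one x
    mul_comm := fun x y => D.comm x y }

noncomputable instance : Module ℚ D.Rg := inferInstanceAs (Module ℚ (V A))

noncomputable instance algebra : Algebra ℚ D.Rg :=
  Algebra.ofModule
    (fun r x y => by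
      change D.sh (r • x) y = r • D.sh x y
      exact LinearMap.map_smul₂ _ _ _ _)
    (fun r x y => by
      change D.sh x (r • y) = r • D.sh x y
      exact map_smul _ _ _)

lemma mul_def (x y : D.Rg) : x * y = D.sh x y := rfl
lemma one_def : (1 : D.Rg) = e [] := rfl

/-- Positive part: span of the words ending with a letter. -/
noncomputable def pos : Submodule ℚ D.Rg := Submodule.span ℚ {f | ∃ (b : A) (w : List A), f = (snoc b (e w) : V A)}

lemma snoc_mem (b : A) (f : V A) : (snoc b f : V A) ∈ D.pos := by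
  refine V_induction (p := fun f => (snoc b f : V A) ∈ D.pos) f ?_ ?_ ?_
  · rw [map_zero]; exact zero_mem D.pos
  · intro x y hx hy
    rw [map_add]; exact add_mem (S := Submodule ℚ D.Rg) hx hy
  · intro c w
    rw [map_smul]
    exact Submodule.smul_mem D.pos c (Submodule.subset_span ⟨b, w, rfl⟩)

lemma hs_snoc' (x : V A) (b : A) (f : V A) : D.hs x (snoc b f) = snoc b (D.sh x f) := by
  refine V_induction (p := fun f => D.hs x (snoc b f) = snoc b (D.sh x f)) f (by simp) ?_ ?_
  · intro x y hx hy
    simp only [map_add, hx, hy]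
  · intro c w
    simp only [map_smul, snoc_e, D.hs_snoc]

lemma word_cases (w : List A) : (e w : V A) = e [] ∨ ∃ b v, (e w : V A) = snoc b (e v) := by
  rcases List.eq_nil_or_concat w with rfl | ⟨u, a, rfl⟩
  · exact Or.inl rfl
  · exact Or.inr ⟨a, u, by simp⟩

lemma hs_pos (x y : V A) : (D.hs x y : V A) ∈ D.pos := by
  refine V_induction (p := fun y => (D.hs x y : V A) ∈ D.pos) y ?_ ?_ ?_
  · rw [map_zero]; exact zero_mem D.pos
  · intro f g hf hg
    rw [map_add]; exact add_mem (S := Submodule ℚ D.Rg) hf hg
  · intro c w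
    rw [map_smul]
    refine Submodule.smul_mem D.pos c ?_
    rcases word_cases w with h | ⟨b, v, h⟩
    · rw [h, D.hs_nil]; exact zero_mem D.pos
    · rw [h, D.hs_snoc']; exact D.snoc_mem _ _

lemma mul_pos (x y : V A) (hy : y ∈ D.pos) : (D.sh x y : V A) ∈ D.pos := by
  refine Submodule.span_induction (p := fun y _ => (D.sh x y : V A) ∈ D.pos) ?_ ?_ ?_ ?_ hy
  · rintro _ ⟨b, w, rfl⟩
    refine V_induction (p := fun x => (D.sh x (snoc b (e w)) : V A) ∈ D.pos) x ?_ ?_ ?_
    · rw [map_zero, LinearMap.zero_apply]; exact zero_mem D.pos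
    · intro f g hf hg
      rw [map_add, LinearMap.add_apply]; exact add_mem (S := Submodule ℚ D.Rg) hf hg
    · intro c u
      rw [map_smul, LinearMap.smul_apply]
      refine Submodule.smul_mem D.pos c ?_
      rcases word_cases u with h | ⟨a, v, h⟩
      · rw [h, D.one_sh]; exact D.snoc_mem _ _
      · rw [h, D.sh_snoc']
        exact add_mem (S := Submodule ℚ D.Rg) (D.snoc_mem _ _) (D.snoc_mem _ _)
  · have : D.sh x (0 : V A) = 0 := map_zero _
    change (D.sh x (0 : V A) : V A) ∈ D.pos
    rw [this]; exact zero_mem D.pos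
  · intro f g _ _ hf hg
    have : D.sh x ((f : V A) + g) = D.sh x f + D.sh x g := map_add _ _ _
    change (D.sh x ((f : V A) + g) : V A) ∈ D.pos
    rw [this]; exact add_mem (S := Submodule ℚ D.Rg) hf hg
  · intro c f _ hf
    have : D.sh x (c • (f : V A)) = c • D.sh x f := map_smul _ _ _
    change (D.sh x (c • (f : V A)) : V A) ∈ D.pos
    rw [this]; exact Submodule.smul_mem D.pos c hf

lemma hs_mul (x y w : V A) : D.hs (D.sh x y) w = D.hs x (D.hs y w) := by
  refine V_induction (p := fun w => D.hs (D.sh x y) w = D.hs x (D.hs y w)) w (by simp) ?_ ?_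
  · intro f g hf hg
    simp only [map_add, hf, hg]
  · intro c w
    simp only [map_smul]
    congr 1
    rcases word_cases w with h | ⟨b, v, h⟩
    · rw [h, D.hs_nil, D.hs_nil, map_zero]
    · rw [h, D.hs_snoc', D.hs_snoc', D.hs_snoc', D.assoc]

lemma pos_ind {p : V A → Prop} (h0 : p 0) (hadd : ∀ f g, p f → p g → p (f + g))
    (hs : ∀ (c : ℚ) f, p f → p (c • f)) (hsn : ∀ b w, p (snoc b (e w))) (f : V A)
    (hf : f ∈ D.pos) : p f := by
  refine Submodule.span_induction (p := fun y _ => p y) ?_ h0 ?_ ?_ hf
  · rintro _ ⟨b, w, rfl⟩; exact hsn b w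
  · intro f g _ _ h1 h2; exact hadd f g h1 h2
  · intro c f _ h1; exact hs c f h1

lemma one_hs (y : V A) (hy : y ∈ D.pos) : D.hs (e []) y = y := by
  refine D.pos_ind (p := fun y => D.hs (e []) y = y) (by simp) ?_ ?_ ?_ y hy
  · intro f g hf hg; rw [map_add, hf, hg]
  · intro c f hf; rw [map_smul, hf]
  · intro b w; rw [D.hs_snoc', D.one_sh]

lemma hs_add (x y : V A) (hx : x ∈ D.pos) (hy : y ∈ D.pos) :
    D.sh x y = D.hs x y + D.hs y x := by
  refine D.pos_ind (p := fun x => D.sh x y = D.hs x y + D.hs y x) (by simp) ?_ ?_ ?_ x hx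
  · intro f g hf hg
    simp only [map_add, LinearMap.add_apply, hf, hg]; abel
  · intro c f hf
    simp only [map_smul, LinearMap.smul_apply, hf, smul_add]
  intro a u
  refine D.pos_ind (p := fun y => D.sh (snoc a (e u)) y =
    D.hs (snoc a (e u)) y + D.hs y (snoc a (e u))) (by simp) ?_ ?_ ?_ y hy
  · intro f g hf hg
    simp only [map_add, LinearMap.add_apply, hf, hg]; abel
  · intro c f hf
    simp only [map_smul, LinearMap.smul_apply, hf, smul_add]
  intro b v
  rw [D.sh_snoc', D.hs_snoc', D.hs_snoc', D.comm (snoc b (e v)) (e u)]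
  abel

/-- The integration structure on the shuffle algebra. -/
noncomputable def integ : Integ D.Rg where
  hs := D.hs
  pos := D.pos
  mul_pos := D.mul_pos
  hs_pos := D.hs_pos
  hs_mul := D.hs_mul
  hs_add := D.hs_add
  one_hs := D.one_hs

end ShData

end H569R3.Hall
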