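import Mathlib
import Pool.Agent.H569R3.HallShuf
import Pool.Agent.H569R3.HallComb

set_option autoImplicit false

namespace H569R3.Hall

variable {A : Type}

/-- span of the words whose length satisfies `S`. -/
noncomputable def Gr (S : ℕ → Prop) : Submodule ℚ (V A) :=
  Submodule.span ℚ {f | ∃ w : List A, S w.length ∧ f = e w}

lemma e_mem_Gr {S : ℕ → Prop} {w : List A} (h : S w.length) : (e w : V A) ∈ Gr (A := A) S :=
  Submodule.subset_span ⟨w, h, rfl⟩

lemma Gr_mono {S T : ℕ → Prop} (h : ∀ n, S n → T n) : (Gr S : Submodule ℚ (V A)) ≤ Gr T := by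
  apply Submodule.span_mono
  rintro _ ⟨w, hw, rfl⟩
  exact ⟨w, h _ hw, rfl⟩

lemma mem_Gr_true (f : V A) : f ∈ (Gr (fun _ => True) : Submodule ℚ (V A)) := by
  refine V_induction (p := fun f => f ∈ (Gr (fun _ => True) : Submodule ℚ (V A))) f ?_ ?_ ?_
  · exact zero_mem _
  · intro f g hf hg; exact add_mem hf hg
  · intro c w; exact Submodule.smul_mem _ _ (e_mem_Gr trivial)

lemma snoc_mem_Gr {S T : ℕ → Prop} (h : ∀ n, S n → T (n + 1)) (a : A) {f : V A}
    (hf : f ∈ (Gr S : Submodule ℚ (V A))) : snoc a f ∈ (Gr T : Submodule ℚ (V A)) := by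
  induction hf using Submodule.span_induction with
  | mem f hf =>
    obtain ⟨w, hw, rfl⟩ := hf
    rw [snoc_e]
    exact e_mem_Gr (by simpa using h _ hw)
  | zero => rw [map_zero]; exact zero_mem _
  | add f g _ _ hf hg => rw [map_add]; exact add_mem hf hg
  | smul r f _ hf => rw [map_smul]; exact Submodule.smul_mem _ _ hf

variable (D : ShData A)

lemma sh_e_mem : ∀ (n : ℕ) (u v : List A), u.length + v.length ≤ n →
    D.sh (e u) (e v) ∈ (Gr (fun m => m = u.length + v.length) : Submodule ℚ (V A)) := by
  intro n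
  induction n with
  | zero =>
    intro u v h
    have h1 : u = [] := List.length_eq_zero_iff.1 (by omega)
    subst h1
    rw [D.one_sh]; exact e_mem_Gr (by simp)
  | succ n ih =>
    intro u v h
    rcases List.eq_nil_or_concat u with rfl | ⟨u, a, rfl⟩
    · rw [D.one_sh]; exact e_mem_Gr (by simp)
    rcases List.eq_nil_or_concat v with rfl | ⟨v, b, rfl⟩
    · rw [D.sh_one]; exact e_mem_Gr (by simp)
    simp only [List.concat_eq_append] at h ⊢
    rw [D.sh_snoc]
    simp only [List.length_append, List.length_cons, List.length_nil] at h ⊢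
    refine add_mem (snoc_mem_Gr ?_ a (ih u (v ++ [b]) (by simp; omega)))
      (snoc_mem_Gr ?_ b (ih (u ++ [a]) v (by simp; omega)))
    · intro m hm; simp only [List.length_append, List.length_cons, List.length_nil] at hm; omega
    · intro m hm; simp only [List.length_append, List.length_cons, List.length_nil] at hm; omega

lemma hs_e_mem (u v : List A) :
    D.hs (e u) (e v) ∈ (Gr (fun m => m = u.length + v.length) : Submodule ℚ (V A)) := by
  rcases List.eq_nil_or_concat v with rfl | ⟨v, b, rfl⟩
  · rw [D.hs_nil]; exact zero_mem _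
  · rw [List.concat_eq_append, D.hs_snoc]
    refine snoc_mem_Gr ?_ b (sh_e_mem D _ u v le_rfl)
    intro m hm; simp only [List.length_append, List.length_cons, List.length_nil]; omega

lemma bil_mem (B : V A →ₗ[ℚ] V A →ₗ[ℚ] V A)
    (hB : ∀ u v : List A, B (e u) (e v) ∈ (Gr (fun m => m = u.length + v.length) : Submodule ℚ (V A)))
    {S T U : ℕ → Prop} (h : ∀ p q, S p → T q → U (p + q)) {f g : V A}
    (hf : f ∈ (Gr S : Submodule ℚ (V A))) (hg : g ∈ (Gr T : Submodule ℚ (V A))) :
    B f g ∈ (Gr U : Submodule ℚ (V A)) := by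
  induction hf using Submodule.span_induction with
  | mem f hf =>
    obtain ⟨u, hu, rfl⟩ := hf
    induction hg using Submodule.span_induction with
    | mem g hg =>
      obtain ⟨v, hv, rfl⟩ := hg
      refine Gr_mono ?_ (hB u v)
      rintro m rfl
      exact h _ _ hu hv
    | zero => rw [map_zero]; exact zero_mem _
    | add f g _ _ hf hg => rw [map_add]; exact add_mem hf hg
    | smul r f _ hf => rw [map_smul]; exact Submodule.smul_mem _ _ hf
  | zero => rw [map_zero]; exact zero_mem _
  | add f g _ _ hf hg => rw [map_add]; exact add_mem hf hg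
  | smul r f _ hf => rw [map_smul]; exact Submodule.smul_mem _ _ hf

/-- component of length `n`. -/
noncomputable def pr (n : ℕ) : V A →ₗ[ℚ] V A where
  toFun f := (Finsupp.filter (fun w : List A => w.length = n) f : List A →₀ ℚ)
  map_add' _ _ := Finsupp.filter_add
  map_smul' _ _ := Finsupp.filter_smul

lemma pr_e (n : ℕ) (w : List A) : pr n (e w) = if w.length = n then (e w : V A) else 0 := by
  change Finsupp.filter _ (Finsupp.single w (1 : ℚ)) = _
  split_ifs with h
  · exact Finsupp.filter_single_of_pos _ h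
  · exact Finsupp.filter_single_of_neg _ h

lemma pr_mem {S : ℕ → Prop} {f : V A} (hf : f ∈ (Gr S : Submodule ℚ (V A))) (n : ℕ)
    (hn : ¬ S n) : pr n f = 0 := by
  induction hf using Submodule.span_induction with
  | mem f hf =>
    obtain ⟨w, hw, rfl⟩ := hf
    rw [pr_e, if_neg]
    rintro rfl
    exact hn hw
  | zero => exact map_zero _
  | add f g _ _ hf hg => rw [map_add, hf, hg, add_zero]
  | smul r f _ hf => rw [map_smul, hf, smul_zero]

lemma pr_eq {n : ℕ} {f : V A} (hf : f ∈ (Gr (fun m => m = n) : Submodule ℚ (V A))) :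
    pr n f = f := by
  induction hf using Submodule.span_induction with
  | mem f hf =>
    obtain ⟨w, hw, rfl⟩ := hf
    rw [pr_e, if_pos hw]
  | zero => exact map_zero _
  | add f g _ _ hf hg => rw [map_add, hf, hg]
  | smul r f _ hf => rw [map_smul, hf]

lemma pr_mem_Gr (n : ℕ) (f : V A) : pr n f ∈ (Gr (fun m => m = n) : Submodule ℚ (V A)) := by
  refine V_induction (p := fun f => pr n f ∈ (Gr (fun m => m = n) : Submodule ℚ (V A))) f ?_ ?_ ?_
  · rw [map_zero]; exact zero_mem _
  · intro f g hf hg; rw [map_add]; exact add_mem hf hg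
  · intro c w
    rw [map_smul, pr_e]
    refine Submodule.smul_mem _ _ ?_
    split_ifs with h
    · exact e_mem_Gr h
    · exact zero_mem _

/-- coefficient of a word -/
noncomputable def coef (f : V A) (w : List A) : ℚ := DFunLike.coe (F := List A →₀ ℚ) f w

lemma filter_coe (f : List A →₀ ℚ) (w : List A) :
    (Finsupp.filter (fun u : List A => u.length = w.length) f) w = f w := by
  rw [Finsupp.filter_apply, if_pos rfl]

lemma eq_zero_of_pr (f : V A) (h : ∀ n, pr n f = 0) : f = 0 := by
  have h2 : ∀ w : List A, coef f w = 0 := by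
    intro w
    have h1 : coef (pr w.length f) w = 0 := by
      rw [h w.length]; rfl
    have h3 : coef (pr w.length f) w = coef f w := by
      exact filter_coe f w
    rw [← h3, h1]
  exact Finsupp.ext (f := (f : List A →₀ ℚ)) h2

variable (ar : FreeMagma A → V A) (har : ∀ a, ar (FreeMagma.of a) = e [a])
  (harm : ∀ x y : FreeMagma A, ar (x * y) = D.hs (ar x) (ar y) - D.hs (ar y) (ar x))

include har harm in
lemma ar_mem (t : FreeMagma A) :
    ar t ∈ (Gr (fun m => m = (fol t).length) : Submodule ℚ (V A)) := by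
  induction t with
  | ih1 a => rw [har]; exact e_mem_Gr (by simp)
  | ih2 x y ihx ihy =>
    rw [harm]
    refine sub_mem (bil_mem D.hs (hs_e_mem D) ?_ ihx ihy) (bil_mem D.hs (hs_e_mem D) ?_ ihy ihx)
    · rintro p q rfl rfl; simp
    · rintro p q rfl rfl; simp [add_comm]

include har harm in
lemma ar_pos (t : FreeMagma A) : ar t ∈ D.pos := by
  induction t with
  | ih1 a =>
    rw [har]
    have := D.snoc_mem a (e [])
    rwa [snoc_e] at this
  | ih2 x y ihx ihy =>
    rw [harm]
    exact sub_mem (S := Submodule ℚ D.Rg) (D.hs_pos _ _) (D.hs_pos _ _)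

/-- product of the areas of a list of trees -/
noncomputable def P (l : List (FreeMagma A)) : V A :=
  l.foldr (fun t acc => D.sh (ar t) acc) (e [])

@[simp] lemma P_nil : P D ar [] = e [] := rfl
@[simp] lemma P_cons (t : FreeMagma A) (l : List (FreeMagma A)) :
    P D ar (t :: l) = D.sh (ar t) (P D ar l) := rfl

include har harm in
lemma P_mem (l : List (FreeMagma A)) :
    P D ar l ∈ (Gr (fun m => m = (folL l).length) : Submodule ℚ (V A)) := by
  induction l with
  | nil => exact e_mem_Gr (by simp)
  | cons t l ih =>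
    refine bil_mem D.sh (fun u v => sh_e_mem D _ u v le_rfl) ?_ (ar_mem D ar har harm t) ih
    rintro p q rfl rfl; simp

/-- change of type -/
def toR (f : V A) : D.Rg := f

/-- change of type -/
def ofR (f : D.Rg) : V A := f

/-- iterated integrals of areas -/
noncomputable def JV (w : List (FreeMagma A)) : V A :=
  ofR D (J D.integ (fun t => toR D (ar t)) w)

lemma JV_nil : JV D ar [] = e [] := rfl
lemma JV_cons (x : FreeMagma A) (w : List (FreeMagma A)) :
    JV D ar (x :: w) = D.hs (JV D ar w) (ar x) := rfl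

include har harm in
lemma elimV (S : Submodule ℚ (V A)) {z : FreeMagma A} {B : Set (FreeMagma A)}
    (hB : ∀ b ∈ B, b * z ∈ B) (hz : ∀ f ∈ S, D.sh (ar z) f ∈ S)
    (hS : ∀ w : List (FreeMagma A), (∀ x ∈ w, x ∈ B) → JV D ar w ∈ S)
    (w : List (FreeMagma A)) (hw : ∀ b ∈ w, b = z ∨ b ∈ B) : JV D ar w ∈ S := by
  have hel := elim (I := D.integ) (a := fun t => toR D (ar t)) (ar_pos D ar har harm) (z := z)
    (B := B) (fun b => b * z) hB (fun b _ => harm b z) w hw
  have key : ∀ y : D.Rg, y ∈ W D.integ (fun t => toR D (ar t)) z B → ofR D y ∈ S := by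
    intro y hy
    refine Submodule.span_induction (p := fun (y : D.Rg) _ => ofR D y ∈ S) ?_ ?_ ?_ ?_ hy
    · rintro _ ⟨j, w', hw', rfl⟩
      have h0 : ofR D (J D.integ (fun t => toR D (ar t)) w') ∈ S := hS w' hw'
      generalize J D.integ (fun t => toR D (ar t)) w' = f at h0
      induction j with
      | zero => rw [pow_zero, one_mul]; exact h0
      | succ k ih =>
        have e1 : ofR D (toR D (ar z) ^ (k + 1) * f) = D.sh (ar z) (ofR D (toR D (ar z) ^ k * f)) := by
          rw [pow_succ', mul_assoc]; rfl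
        rw [e1]
        exact hz _ ih
    · exact zero_mem S
    · intro x y _ _ hx hy; exact add_mem hx hy
    · intro c x _ hx; exact Submodule.smul_mem S c hx
  exact key _ hel

variable [LinearOrder (FreeMagma A)] {H : Set (FreeMagma A)} (hH : IsHall H)

/-- span of the ordered products of Hall areas -/
noncomputable def G (H : Set (FreeMagma A)) : Submodule ℚ (V A) :=
  Submodule.span ℚ {f | ∃ l : List (FreeMagma A), NI H l ∧ f = P D ar l}

lemma insert_NI {h : FreeMagma A} (hh : h ∈ H) : ∀ l : List (FreeMagma A), NI H l →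
    ∃ l', NI H l' ∧ (∀ x ∈ l', x = h ∨ x ∈ l) ∧ P D ar l' = D.sh (ar h) (P D ar l) := by
  intro l
  induction l with
  | nil =>
    intro _
    exact ⟨[h], ⟨by simpa using hh, by simp⟩, by simp, rfl⟩
  | cons g l ih =>
    intro hl
    by_cases hg : g ≤ h
    · refine ⟨h :: g :: l, ⟨?_, ?_⟩, ?_, rfl⟩
      · intro x hx
        rcases List.mem_cons.1 hx with rfl | hx
        · exact hh
        · exact hl.1 x hx
      · refine List.pairwise_cons.2 ⟨?_, hl.2⟩
        intro x hx
        rw [not_lt]
        rcases List.mem_cons.1 hx with rfl | hx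
        · exact hg
        · exact (hl.le x hx).trans hg
      · intro x hx
        rcases List.mem_cons.1 hx with rfl | hx
        · exact Or.inl rfl
        · exact Or.inr hx
    · obtain ⟨l', h1, h2, h3⟩ := ih hl.tail
      refine ⟨g :: l', ⟨?_, ?_⟩, ?_, ?_⟩
      · intro x hx
        rcases List.mem_cons.1 hx with rfl | hx
        · exact hl.1 _ (by simp)
        · exact h1.1 x hx
      · refine List.pairwise_cons.2 ⟨?_, h1.2⟩
        intro x hx
        rw [not_lt]
        rcases h2 x hx with rfl | hx
        · exact (not_le.1 hg).le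
        · exact hl.le x hx
      · intro x hx
        rcases List.mem_cons.1 hx with rfl | hx
        · exact Or.inr (by simp)
        · rcases h2 x hx with rfl | hx
          · exact Or.inl rfl
          · exact Or.inr (by simp [hx])
      · rw [P_cons, P_cons, h3, ← D.assoc, D.comm (ar g) (ar h), D.assoc]

lemma mul_mem_G {h : FreeMagma A} (hh : h ∈ H) {f : V A} (hf : f ∈ G D ar H) :
    D.sh (ar h) f ∈ G D ar H := by
  induction hf using Submodule.span_induction with
  | mem f hf =>
    obtain ⟨l, hl, rfl⟩ := hf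
    obtain ⟨l', h1, _, h3⟩ := insert_NI D ar hh l hl
    exact Submodule.subset_span ⟨l', h1, h3.symm⟩
  | zero => rw [map_zero]; exact zero_mem _
  | add f g _ _ hf hg => rw [map_add]; exact add_mem hf hg
  | smul r f _ hf => rw [map_smul]; exact Submodule.smul_mem _ _ hf

/-- everything of length more than `n`. -/
noncomputable abbrev Nn (n : ℕ) : Submodule ℚ (V A) := Gr (fun m => n < m)

lemma mul_mem_GN {h : FreeMagma A} (hh : h ∈ H) (n : ℕ) {f : V A}
    (hf : f ∈ G D ar H ⊔ Nn n) : D.sh (ar h) f ∈ G D ar H ⊔ Nn n := by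
  obtain ⟨g, hg, ν, hν, h3⟩ := Submodule.mem_sup.1 hf
  rw [← h3, map_add]
  refine add_mem (Submodule.mem_sup_left (mul_mem_G D ar hh hg)) (Submodule.mem_sup_right ?_)
  refine bil_mem D.sh (fun u v => sh_e_mem D _ u v le_rfl) ?_ (mem_Gr_true (ar h)) hν
  intro p q _ hq
  change n < p + q
  have : n < q := hq
  omega

include har harm in
lemma J_mem_N (n : ℕ) : ∀ w : List (FreeMagma A), (∃ x ∈ w, n < (fol x).length) →
    JV D ar w ∈ (Nn n : Submodule ℚ (V A)) := by
  intro w
  induction w with
  | nil => rintro ⟨x, hx, _⟩; simp at hx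
  | cons y w ih =>
    rintro ⟨x, hx, hn⟩
    rcases List.mem_cons.1 hx with rfl | hx
    · refine bil_mem D.hs (hs_e_mem D) (T := fun m => m = (fol x).length) ?_
        (mem_Gr_true (JV D ar w)) (ar_mem D ar har harm x)
      rintro p q _ rfl
      change n < p + (fol x).length
      omega
    · refine bil_mem D.hs (hs_e_mem D) ?_ (ih ⟨x, hx, hn⟩) (mem_Gr_true (ar y))
      intro p q hp _
      have : n < p := hp
      change n < p + q
      omega

omit [LinearOrder (FreeMagma A)] in
lemma fol_pos (t : FreeMagma A) : 0 < (fol t).length := by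
  induction t with
  | ih1 a => simp
  | ih2 x y ihx ihy => simp; omega

omit [LinearOrder (FreeMagma A)] in
lemma finite_trees [Finite A] (n : ℕ) : {t : FreeMagma A | (fol t).length ≤ n}.Finite := by
  induction n with
  | zero =>
    convert Set.finite_empty
    ext t
    simp only [Set.mem_ofPred_eq, Set.mem_empty_iff_false, iff_false, not_le]
    exact fol_pos t
  | succ n ih =>
    refine ((Set.finite_range (FreeMagma.of : A → FreeMagma A)).union
      (Set.Finite.image2 (fun x y => x * y) ih ih)).subset ?_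
    intro t ht
    rcases cases_tree t with ⟨a, rfl⟩ | ⟨u, v, rfl⟩
    · exact Or.inl ⟨a, rfl⟩
    · refine Or.inr ⟨u, ?_, v, ?_, rfl⟩
      · have h1 := fol_pos v
        simp only [Set.mem_ofPred_eq, fol_mul, List.length_append] at ht ⊢
        omega
      · have h1 := fol_pos u
        simp only [Set.mem_ofPred_eq, fol_mul, List.length_append] at ht ⊢
        omega

include har harm hH in
theorem J_mem_GN [Finite A] (n : ℕ) : ∀ (k : ℕ) (U : Set (FreeMagma A)),
    (∀ s ∈ U, ∀ t ∈ H, s < t → t ∈ U) →
    ({t | t ∈ H ∧ t ∉ U ∧ (fol t).length ≤ n} : Set (FreeMagma A)).ncard ≤ k →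
    ∀ w : List (FreeMagma A), (∀ x ∈ w, x ∈ gens H U) →
      JV D ar w ∈ (G D ar H ⊔ Nn n : Submodule ℚ (V A)) := by
  intro k
  induction k with
  | zero =>
    intro U hU hk w hw
    have hfin : ({t | t ∈ H ∧ t ∉ U ∧ (fol t).length ≤ n} : Set (FreeMagma A)).Finite :=
      (finite_trees n).subset (fun t ht => ht.2.2)
    have hem := (Set.ncard_eq_zero hfin).1 (Nat.le_zero.1 hk)
    match w with
    | [] => exact Submodule.mem_sup_left (Submodule.subset_span ⟨[], ⟨by simp, by simp⟩, rfl⟩)
    | x :: w =>
      refine Submodule.mem_sup_right (J_mem_N D ar har harm n _ ⟨x, by simp, ?_⟩)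
      by_contra hcon
      have hx := hw x (by simp)
      have : x ∈ ({t | t ∈ H ∧ t ∉ U ∧ (fol t).length ≤ n} : Set (FreeMagma A)) :=
        ⟨hx.1, hx.2.1, not_lt.1 hcon⟩
      rw [hem] at this
      exact this
  | succ k ih =>
    intro U hU hk w hw
    have hfin : ({t | t ∈ H ∧ t ∉ U ∧ (fol t).length ≤ n} : Set (FreeMagma A)).Finite :=
      (finite_trees n).subset (fun t ht => ht.2.2)
    rcases Set.eq_empty_or_nonempty ({t | t ∈ H ∧ t ∉ U ∧ (fol t).length ≤ n} : Set (FreeMagma A))
      with hem | hne
    · apply ih U hU _ w hw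
      rw [hem]; simp
    · obtain ⟨z, hz, hmax⟩ := Set.exists_max_image _ id hfin hne
      have hzH : z ∈ H := hz.1
      have hzU : z ∉ U := hz.2.1
      have hzn : (fol z).length ≤ n := hz.2.2
      set U' : Set (FreeMagma A) := U ∪ {h | h ∈ H ∧ z ≤ h} with hU'
      have hU'up : ∀ s ∈ U', ∀ t ∈ H, s < t → t ∈ U' := by
        rintro s (hs | hs) t ht hst
        · exact Or.inl (hU s hs t ht hst)
        · exact Or.inr ⟨ht, hs.2.trans hst.le⟩
      have hcard : ({t | t ∈ H ∧ t ∉ U' ∧ (fol t).length ≤ n} : Set (FreeMagma A)).ncard ≤ k := by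
        have hss : ({t | t ∈ H ∧ t ∉ U' ∧ (fol t).length ≤ n} : Set (FreeMagma A)) ⊂
            {t | t ∈ H ∧ t ∉ U ∧ (fol t).length ≤ n} := by
          refine ⟨fun t ht => ⟨ht.1, fun h => ht.2.1 (Or.inl h), ht.2.2⟩, fun hcon => ?_⟩
          exact (hcon hz).2.1 (Or.inr ⟨hzH, le_rfl⟩)
        have := Set.ncard_lt_ncard hss hfin
        omega
      by_cases hbig : ∃ x ∈ w, n < (fol x).length
      · exact Submodule.mem_sup_right (J_mem_N D ar har harm n _ hbig)
      · have hsmall : ∀ x ∈ w, (fol x).length ≤ n := by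
          intro x hx
          by_contra hcon
          exact hbig ⟨x, hx, not_le.1 hcon⟩
        refine elimV D ar har harm (G D ar H ⊔ Nn n) (z := z) (B := gens H U')
          (fun b hb => gens_step hH hU hzH hzU hb) (fun f hf => mul_mem_GN D ar hzH n hf)
          (fun w' hw' => ih U' hU'up hcard w' hw') w ?_
        intro b hb
        by_cases hbz : b = z
        · exact Or.inl hbz
        · refine Or.inr ?_
          obtain ⟨h1, h2, h3⟩ := hw b hb
          refine ⟨h1, ?_, ?_⟩
          · rintro (h4 | h4)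
            · exact h2 h4
            · have h5 : b ≤ z := hmax b ⟨h1, h2, hsmall b hb⟩
              exact hbz (le_antisymm h5 h4.2)
          · rcases h3 with h3 | ⟨u, v, h3, h4⟩
            · exact Or.inl h3
            · exact Or.inr ⟨u, v, h3, Or.inl h4⟩

include har in
omit [LinearOrder (FreeMagma A)] in
lemma J_letters (l : List A) :
    JV D ar (l.map FreeMagma.of) = e l.reverse := by
  induction l with
  | nil => rfl
  | cons a l ih =>
    rw [List.map_cons, JV_cons, ih, har]
    have := D.hs_snoc (e l.reverse) [] a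
    rw [List.nil_append] at this
    rw [this, D.sh_one, snoc_e, List.reverse_cons]

include har harm hH in
theorem G_eq_top [Finite A] : G D ar H = ⊤ := by
  rw [eq_top_iff]
  intro f _
  refine V_induction (p := fun f => f ∈ G D ar H) f (zero_mem _) (fun f g hf hg => add_mem hf hg) ?_
  intro c w
  refine Submodule.smul_mem _ _ ?_
  have h1 := J_mem_GN D ar har harm hH w.length _ ∅ (by simp) le_rfl
    (w.reverse.map FreeMagma.of) (by
      intro x hx
      obtain ⟨a, _, rfl⟩ := List.mem_map.1 hx
      exact ⟨hH.letter a, by simp, Or.inl ⟨a, rfl⟩⟩)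
  rw [J_letters D ar har, List.reverse_reverse] at h1
  obtain ⟨g, hg, ν, hν, h3⟩ := Submodule.mem_sup.1 h1
  have h4 : pr w.length g = e w := by
    have h5 := congrArg (pr w.length) h3
    rw [map_add, pr_mem hν w.length (lt_irrefl _), add_zero, pr_e, if_pos rfl] at h5
    exact h5
  rw [← h4]
  clear h3 h4
  induction hg using Submodule.span_induction with
  | mem f hf =>
    obtain ⟨l, hl, rfl⟩ := hf
    by_cases hn : w.length = (folL l).length
    · rw [hn, pr_eq (P_mem D ar har harm l)]
      exact Submodule.subset_span ⟨l, hl, rfl⟩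
    · rw [pr_mem (P_mem D ar har harm l) _ hn]
      exact zero_mem _
  | zero => rw [map_zero]; exact zero_mem _
  | add f g _ _ hf hg => rw [map_add]; exact add_mem hf hg
  | smul r f _ hf => rw [map_smul]; exact Submodule.smul_mem _ _ hf

/-- the comparison map from words to products of Hall areas. -/
noncomputable def Phi : V A →ₗ[ℚ] V A :=
  (Finsupp.linearCombination ℚ (fun w : List A => P D ar (parse w)) :
    (List A →₀ ℚ) →ₗ[ℚ] V A)

lemma Phi_e (w : List A) : Phi D ar (e w) = P D ar (parse w) := by
  change Finsupp.linearCombination ℚ _ (Finsupp.single w (1 : ℚ)) = _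
  rw [Finsupp.linearCombination_single, one_smul]

include har harm hH in
lemma Phi_pr (n : ℕ) (f : V A) : Phi D ar (pr n f) = pr n (Phi D ar f) := by
  refine V_induction (p := fun f => Phi D ar (pr n f) = pr n (Phi D ar f)) f (by simp) ?_ ?_
  · intro f g hf hg; simp only [map_add, hf, hg]
  · intro c w
    simp only [map_smul]
    congr 1
    rw [pr_e, Phi_e]
    have h1 := P_mem D ar har harm (parse w)
    rw [(parse_spec hH w).2] at h1
    split_ifs with h
    · subst h
      rw [Phi_e, pr_eq h1]
    · rw [map_zero, pr_mem h1 n (fun h' => h h'.symm)]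

include har harm hH in
lemma Phi_surj [Finite A] : Function.Surjective (Phi D ar) := by
  rw [← LinearMap.range_eq_top, eq_top_iff, ← G_eq_top D ar har harm hH, G, Submodule.span_le]
  rintro _ ⟨l, hl, rfl⟩
  refine ⟨e (folL l), ?_⟩
  rw [Phi_e, parse_folL hH l hl]

include har harm hH in
lemma Phi_inj [Finite A] : Function.Injective (Phi D ar) := by
  rw [← LinearMap.ker_eq_bot, LinearMap.ker_eq_bot']
  intro f hf
  apply eq_zero_of_pr
  intro n
  have hmap : ∀ x ∈ (Gr (fun m => m = n) : Submodule ℚ (V A)),
      Phi D ar x ∈ (Gr (fun m => m = n) : Submodule ℚ (V A)) := by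
    intro x hx
    rw [← pr_eq hx, Phi_pr D ar har harm hH]
    exact pr_mem_Gr _ _
  haveI : FiniteDimensional ℚ (Gr (fun m => m = n) : Submodule ℚ (V A)) := by
    apply FiniteDimensional.span_of_finite
    refine ((List.finite_length_eq A n).image (fun w => (e w : V A))).subset ?_
    rintro _ ⟨w, hw, rfl⟩
    exact ⟨w, hw, rfl⟩
  have hsurj : Function.Surjective ((Phi D ar).restrict hmap) := by
    rintro ⟨y, hy⟩
    obtain ⟨x, hx⟩ := Phi_surj D ar har harm hH y
    refine ⟨⟨pr n x, pr_mem_Gr n x⟩, Subtype.ext ?_⟩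
    change Phi D ar (pr n x) = y
    rw [Phi_pr D ar har harm hH, hx, pr_eq hy]
  have hinj := LinearMap.injective_iff_surjective.2 hsurj
  have h0 : (Phi D ar).restrict hmap ⟨pr n f, pr_mem_Gr n f⟩ = 0 := by
    apply Subtype.ext
    change Phi D ar (pr n f) = 0
    rw [Phi_pr D ar har harm hH, hf, map_zero]
  have h1 := hinj (h0.trans (map_zero _).symm)
  exact congrArg Subtype.val h1

include har harm hH in
theorem main [Finite A] :
    LinearIndependent ℚ (fun l : {l : List (FreeMagma A) // NI H l} => P D ar l.1) ∧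
    Submodule.span ℚ (Set.range (fun l : {l : List (FreeMagma A) // NI H l} => P D ar l.1)) = ⊤ := by
  constructor
  · have h1 : LinearIndependent ℚ (fun w : List A => P D ar (parse w)) :=
      Phi_inj D ar har harm hH
    have h2 := h1.comp (fun l : {l : List (FreeMagma A) // NI H l} => folL l.1)
      (hallEquiv hH).injective
    convert h2 using 1
    funext l
    change P D ar l.1 = P D ar (parse (folL l.1))
    rw [parse_folL hH l.1 l.2]
  · rw [← G_eq_top D ar har harm hH, G]
    congr 1
    ext f
    constructor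
    · rintro ⟨l, rfl⟩; exact ⟨l.1, l.2, rfl⟩
    · rintro ⟨l, hl, rfl⟩; exact ⟨⟨l, hl⟩, rfl⟩

end H569R3.Hall
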