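import Mathlib

set_option autoImplicit false

/-! An Artin-Rees type statement for polynomials over the subring generated by one polynomial. -/

namespace Pool.Agent.H569R3.Img

open Polynomial

variable {K : Type*} [Field K]

/-- `K[X]` is a finite module over `K[f]` for nonconstant `f`. -/
theorem finite_AEval (f : K[X]) (hf : 1 ≤ f.natDegree) :
    Module.Finite K[X] (Module.AEval K K[X] f) := by
  classical
  refine ⟨⟨(Finset.range f.natDegree).image (fun i => Module.AEval.of K K[X] f (X ^ i)), ?_⟩⟩
  rw [eq_top_iff]
  rintro m -
  obtain ⟨p, rfl⟩ := (Module.AEval.of K K[X] f).surjective m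
  have key : ∀ n : ℕ, ∀ p : K[X], p.natDegree < n →
      Module.AEval.of K K[X] f p ∈ Submodule.span K[X]
        (((Finset.range f.natDegree).image (fun i => Module.AEval.of K K[X] f (X ^ i)) :
          Finset (Module.AEval K K[X] f)) : Set (Module.AEval K K[X] f)) := by
    intro n
    induction n with
    | zero => intro p hp; omega
    | succ n ih =>
      intro p hp
      by_cases hpn : p.natDegree < f.natDegree
      · rw [p.as_sum_range' f.natDegree hpn, map_sum]
        refine Submodule.sum_mem _ (fun i hi => ?_)
        rw [← C_mul_X_pow_eq_monomial]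
        have h1 : Module.AEval.of K K[X] f (C (p.coeff i) * X ^ i) =
            (C (p.coeff i) : K[X]) • Module.AEval.of K K[X] f (X ^ i) := by
          rw [← Module.AEval.of_aeval_smul, aeval_C, smul_eq_mul]
          rfl
        rw [h1]
        refine Submodule.smul_mem _ _ (Submodule.subset_span ?_)
        rw [Finset.coe_image]
        exact ⟨i, by simpa using hi, rfl⟩
      · have hf0 : f ≠ 0 := by rintro rfl; simp at hf
        have hdiv : p = f * (p / f) + p % f := (EuclideanDomain.div_add_mod p f).symm
        have hmod : (p % f).natDegree < f.natDegree := by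
          exact Polynomial.natDegree_mod_lt p (by omega)
        have hq : (p / f).natDegree < n := by
          have hp0 : p ≠ 0 := by rintro rfl; simp at hpn; omega
          have h3 := degree_div_lt hp0 (natDegree_pos_iff_degree_pos.1 hf)
          have h4 : (p / f).natDegree < p.natDegree := by
            by_cases h5 : p / f = 0
            · rw [h5, natDegree_zero]; omega
            · exact natDegree_lt_natDegree h5 h3
          omega
        rw [hdiv, map_add]
        refine Submodule.add_mem _ ?_ (ih _ ?_)
        · have h2 : Module.AEval.of K K[X] f (f * (p / f)) =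
              (X : K[X]) • Module.AEval.of K K[X] f (p / f) := by
            rw [Module.AEval.X_smul_of, smul_eq_mul]
          rw [h2]
          exact Submodule.smul_mem _ _ (ih _ hq)
        · omega
  exact key (p.natDegree + 1) p (Nat.lt_succ_self _)

/-- If `U` is a `K`-subspace of `K[X]` stable under multiplication by the nonconstant polynomial
`f`, then `f ^ (j+1) * z ∈ U` implies `f ^ j * z ∈ U` for some fixed `j`. -/
theorem artin_rees (f : K[X]) (hf : 1 ≤ f.natDegree) (U : Submodule K K[X])
    (hU : ∀ y ∈ U, f * y ∈ U) : ∃ j : ℕ, ∀ z : K[X], f ^ (j + 1) * z ∈ U → f ^ j * z ∈ U := by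
  have hUp : ∀ p : K[X], ∀ y ∈ U, aeval f p * y ∈ U := by
    intro p
    induction p using Polynomial.induction_on' with
    | add p q hp hq =>
      intro y hy
      rw [map_add, add_mul]
      exact U.add_mem (hp y hy) (hq y hy)
    | monomial n a =>
      intro y hy
      rw [aeval_monomial]
      have : ∀ n : ℕ, f ^ n * y ∈ U := by
        intro n
        induction n with
        | zero => simpa using hy
        | succ n ih => rw [pow_succ', mul_assoc]; exact hU _ ih
      rw [mul_assoc, ← Algebra.smul_def]
      exact U.smul_mem _ (this n)
  have := finite_AEval f hf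
  have hN : IsNoetherian K[X] (Module.AEval K K[X] f) := inferInstance
  let Cj : ℕ → Submodule K[X] (Module.AEval K K[X] f) := fun j =>
    { carrier := {m | f ^ j * ((Module.AEval.of K K[X] f).symm m) ∈ U}
      add_mem' := by
        intro a b ha hb
        simp only [Set.mem_ofPred_eq, map_add, mul_add] at *
        exact U.add_mem ha hb
      zero_mem' := by simp
      smul_mem' := by
        intro p m hm
        simp only [Set.mem_ofPred_eq] at *
        rw [Module.AEval.of_symm_smul, smul_eq_mul, mul_left_comm]
        exact hUp p _ hm }
  have hmono : Monotone Cj := by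
    refine monotone_nat_of_le_succ (fun j m hm => ?_)
    show f ^ (j + 1) * _ ∈ U
    rw [pow_succ', mul_assoc]
    exact hU _ hm
  obtain ⟨j, hj⟩ := monotone_stabilizes_iff_noetherian.2 hN ⟨Cj, hmono⟩
  refine ⟨j, fun z hz => ?_⟩
  have h1 : Cj j = Cj (j + 1) := hj (j + 1) (Nat.le_succ j)
  have h2 : Module.AEval.of K K[X] f z ∈ Cj (j + 1) := by
    show f ^ (j + 1) * _ ∈ U
    simpa using hz
  rw [← h1] at h2
  have h3 : f ^ j * ((Module.AEval.of K K[X] f).symm (Module.AEval.of K K[X] f z)) ∈ U := h2
  simpa using h3

end Pool.Agent.H569R3.Img
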