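import Pool.Agent.H569R3.ImgKL

set_option autoImplicit false

/-! From the one variable factorial conjecture to divisibility of monomials. -/

namespace Pool.Agent.H569R3.Img

open Polynomial
open scoped Pointwise

theorem Lf_map {R S : Type*} [CommRing R] [CommRing S] (f : R →+* S) (p : R[X]) :
    Lf (p.map f) = f (Lf p) := by
  induction p using Polynomial.induction_on' with
  | add p q hp hq => rw [Polynomial.map_add, map_add, map_add, map_add, hp, hq]
  | monomial n r => rw [map_monomial, Lf_monomial, Lf_monomial, map_mul, map_natCast]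

/-- The universal polynomial with coefficients the variables. -/
noncomputable def univ (n : ℕ) : (MvPolynomial (Fin n) ℚ)[X] :=
  ∑ k : Fin n, monomial (k : ℕ) (MvPolynomial.X k)

/-- The ideal generated by the universal moments. -/
noncomputable def momIdeal (n : ℕ) : Ideal (MvPolynomial (Fin n) ℚ) :=
  Ideal.span {x | ∃ m : ℕ, 1 ≤ m ∧ x = Lf (univ n ^ m)}

theorem X_mem_radical (n : ℕ) (k : Fin n) : MvPolynomial.X k ∈ (momIdeal n).radical := by
  rw [Ideal.radical_eq_sInf, Submodule.mem_sInf]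
  rintro 𝔭 ⟨hle, hp⟩
  let S := MvPolynomial (Fin n) ℚ ⧸ 𝔭
  have hS : IsDomain S := Ideal.Quotient.isDomain 𝔭
  let F := FractionRing S
  let K := AlgebraicClosure F
  have hchar : CharZero F := by
    have : CharZero S := algebraRat.charZero S
    have h1 : Function.Injective (algebraMap S F) := IsFractionRing.injective S F
    exact charZero_of_injective_algebraMap h1
  have hchar2 : CharZero K := charZero_of_injective_algebraMap (algebraMap F K).injective
  let ι : MvPolynomial (Fin n) ℚ →+* K :=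
    (algebraMap F K).comp ((algebraMap S F).comp (Ideal.Quotient.mk 𝔭))
  have hφ : (univ n).map ι = 0 := by
    apply factorial_one
    intro m hm
    rw [← Polynomial.map_pow, Lf_map]
    have h1 : Lf (univ n ^ m) ∈ 𝔭 := hle (Ideal.subset_span ⟨m, hm, rfl⟩)
    show (algebraMap F K) ((algebraMap S F) (Ideal.Quotient.mk 𝔭 (Lf (univ n ^ m)))) = 0
    rw [Ideal.Quotient.eq_zero_iff_mem.2 h1, map_zero, map_zero]
  have h2 := congrArg (fun p => Polynomial.coeff p (k : ℕ)) hφ
  simp only [coeff_map, coeff_zero] at h2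
  have h3 : (univ n).coeff (k : ℕ) = MvPolynomial.X k := by
    rw [univ, finsetSum_coeff]
    rw [Finset.sum_eq_single k]
    · simp
    · intro b _ hb
      rw [coeff_monomial, if_neg]
      intro h
      exact hb (Fin.ext h)
    · simp
  rw [h3] at h2
  have h4 : (algebraMap S F) (Ideal.Quotient.mk 𝔭 (MvPolynomial.X k)) = 0 := by
    apply (algebraMap F K).injective
    rw [map_zero]
    exact h2
  have h5 : (Ideal.Quotient.mk 𝔭 (MvPolynomial.X k)) = 0 := by
    apply IsFractionRing.injective S F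
    rw [map_zero]
    exact h4
  exact Ideal.Quotient.eq_zero_iff_mem.1 h5

/-- The ideal of the variables. -/
noncomputable def varIdeal (n : ℕ) : Ideal (MvPolynomial (Fin n) ℚ) :=
  Ideal.span (Set.range MvPolynomial.X)

theorem exists_varIdeal_pow_le (n : ℕ) : ∃ N : ℕ, 1 ≤ N ∧ varIdeal n ^ N ≤ momIdeal n := by
  have h1 : varIdeal n ≤ (momIdeal n).radical := by
    rw [varIdeal, Ideal.span_le]
    rintro _ ⟨k, rfl⟩
    exact X_mem_radical n k
  have h2 : (varIdeal n).FG := by
    refine ⟨Finset.univ.image (MvPolynomial.X), ?_⟩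
    rw [varIdeal]
    congr 1
    simp
  obtain ⟨N, hN⟩ := Ideal.exists_pow_le_of_le_radical_of_fg h1 h2
  exact ⟨N + 1, by omega, (Ideal.pow_le_pow_right (Nat.le_succ N)).trans hN⟩

section Module

variable {A B : Type*} [CommRing A] [CommRing B] [Algebra ℚ A] [Algebra ℚ B] [Algebra A B]
  [IsScalarTower ℚ A B] {n : ℕ}

/-- The evaluation of the universal ring in `B[z]`, with a variable `z` recording the degree. -/
noncomputable def psi (φ : Fin n → B) : MvPolynomial (Fin n) ℚ →+* B[X] :=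
  MvPolynomial.eval₂Hom (algebraMap ℚ B[X]) (fun k => C (φ k) * X)

theorem psi_X (φ : Fin n → B) (k : Fin n) : psi φ (MvPolynomial.X k) = C (φ k) * X := by
  simp [psi]

theorem psi_mem (φ : Fin n → B) (Q : MvPolynomial (Fin n) ℚ) :
    ∀ m : ℕ, (psi φ Q).coeff m ∈ (Submodule.span A (Set.range φ)) ^ m := by
  induction Q using MvPolynomial.induction_on with
  | C q =>
    intro m
    have h1 : psi φ (MvPolynomial.C q) = C (algebraMap ℚ B q) := by
      rw [psi, MvPolynomial.coe_eval₂Hom, MvPolynomial.eval₂_C]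
      rfl
    rw [h1, coeff_C]
    split_ifs with h
    · subst h
      rw [pow_zero, Submodule.mem_one]
      exact ⟨algebraMap ℚ A q, by rw [← IsScalarTower.algebraMap_apply]⟩
    · exact Submodule.zero_mem _
  | add p q hp hq =>
    intro m
    rw [map_add, coeff_add]
    exact Submodule.add_mem _ (hp m) (hq m)
  | mul_X p k hp =>
    intro m
    rw [map_mul, psi_X, ← mul_assoc]
    cases m with
    | zero => simp
    | succ m =>
      rw [coeff_mul_X, coeff_mul_C, pow_succ]
      exact Submodule.mul_mem_mul (hp m) (Submodule.subset_span ⟨k, rfl⟩)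

/-- Partial sums of powers of a submodule. -/
noncomputable def Psi (Φ : Submodule A B) (N : ℕ) : Submodule A B :=
  ∑ i ∈ Finset.range N, Φ ^ i

theorem pow_le_Psi (Φ : Submodule A B) {i N : ℕ} (h : i < N) : Φ ^ i ≤ Psi Φ N := by
  rw [Psi]
  exact Finset.single_le_sum (f := fun i => Φ ^ i) (fun _ _ => bot_le) (Finset.mem_range.2 h)

theorem Psi_le {Φ P : Submodule A B} {N : ℕ} (h : ∀ i < N, Φ ^ i ≤ P) : Psi Φ N ≤ P := by
  rw [Psi]
  induction N with
  | zero => simp
  | succ N ih =>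
    rw [Finset.sum_range_succ]
    exact sup_le (ih (fun i hi => h i (by omega))) (h N (by omega))

theorem Psi_mul_pow_le (Φ : Submodule A B) (i j : ℕ) : Psi Φ i * Φ ^ j ≤ Psi Φ (i + j) := by
  rw [Psi, Finset.sum_mul]
  induction i with
  | zero => simp
  | succ i ih =>
    rw [Finset.sum_range_succ]
    refine sup_le (ih.trans ?_) ?_
    · refine Psi_le (fun l hl => pow_le_Psi Φ (by omega))
    · rw [← pow_add]
      exact pow_le_Psi Φ (by omega)

theorem psi_momIdeal (φ : Fin n → B) (α : Submodule A B)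
    (hα : ∀ m : ℕ, 1 ≤ m → Lf ((∑ k : Fin n, monomial (k : ℕ) (φ k)) ^ m) ∈ α)
    (μ : MvPolynomial (Fin n) ℚ) (hμ : μ ∈ momIdeal n) :
    ∀ m : ℕ, (psi φ μ).coeff m ∈ α * Psi (Submodule.span A (Set.range φ)) m := by
  refine Submodule.span_induction
    (p := fun μ _ => ∀ m : ℕ, (psi φ μ).coeff m ∈ α * Psi (Submodule.span A (Set.range φ)) m)
    ?_ ?_ ?_ ?_ hμ
  · rintro _ ⟨j, hj, rfl⟩ m
    have h1 : psi φ (Lf (univ n ^ j)) =
        C (Lf ((∑ k : Fin n, monomial (k : ℕ) (φ k)) ^ j)) * X ^ j := by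
      rw [← Lf_map, Polynomial.map_pow]
      have h2 : (univ n).map (psi φ) =
          C X * (∑ k : Fin n, monomial (k : ℕ) (φ k)).map (C : B →+* B[X]) := by
        rw [univ, Polynomial.map_sum, Polynomial.map_sum, Finset.mul_sum]
        refine Finset.sum_congr rfl (fun k _ => ?_)
        rw [map_monomial, map_monomial, psi_X, C_mul_monomial, mul_comm]
      rw [h2, mul_pow, ← Polynomial.map_pow, ← C_pow, ← smul_eq_C_mul, map_smul, Lf_map,
        smul_eq_mul, mul_comm]
    rw [h1, coeff_C_mul_X_pow]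
    split_ifs with h
    · subst h
      rw [← mul_one (Lf _)]
      refine Submodule.mul_mem_mul (hα m hj) ?_
      refine pow_le_Psi (i := 0) _ (by omega) ?_
      rw [pow_zero]
      exact Submodule.one_le.1 le_rfl
    · exact Submodule.zero_mem _
  · intro m; simp
  · intro x y _ _ hx hy m
    rw [map_add, coeff_add]
    exact Submodule.add_mem _ (hx m) (hy m)
  · intro r x _ hx m
    rw [smul_eq_mul, map_mul, coeff_mul]
    refine Submodule.sum_mem _ (fun ij hij => ?_)
    have h3 : ij.1 + ij.2 = m := Finset.HasAntidiagonal.mem_antidiagonal.1 hij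
    have h4 := Submodule.mul_mem_mul (hx ij.2) (psi_mem (A := A) φ r ij.1)
    have h5 : α * Psi (Submodule.span A (Set.range φ)) ij.2 *
        (Submodule.span A (Set.range φ)) ^ ij.1 ≤
        α * Psi (Submodule.span A (Set.range φ)) m := by
      rw [mul_assoc]
      refine mul_le_mul' le_rfl ?_
      have h6 := Psi_mul_pow_le (Submodule.span A (Set.range φ)) ij.2 ij.1
      rwa [add_comm, h3] at h6
    rw [mul_comm ((psi φ r).coeff ij.1)]
    exact h5 h4

theorem exists_lift (φ : Fin n → B) (N : ℕ) : ∀ x ∈ (Set.range φ) ^ N,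
    ∃ μ ∈ varIdeal n ^ N, psi φ μ = C x * X ^ N := by
  induction N with
  | zero =>
    intro x hx
    rw [pow_zero, Set.mem_one] at hx
    exact ⟨1, by simp, by simp [hx]⟩
  | succ N ih =>
    intro x hx
    rw [pow_succ, Set.mem_mul] at hx
    obtain ⟨y, hy, z, ⟨k, rfl⟩, rfl⟩ := hx
    obtain ⟨μ, h1, h2⟩ := ih y hy
    refine ⟨μ * MvPolynomial.X k, ?_, ?_⟩
    · rw [pow_succ]
      exact Ideal.mul_mem_mul h1 (Ideal.subset_span ⟨k, rfl⟩)
    · rw [map_mul, h2, psi_X, C_mul]
      ring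

/-- If all the moments lie in `α` then some power of `Φ` lies in `α (1 + Φ + ... )`. -/
theorem exists_pow_le (φ : Fin n → B) (α : Submodule A B)
    (hα : ∀ m : ℕ, 1 ≤ m → Lf ((∑ k : Fin n, monomial (k : ℕ) (φ k)) ^ m) ∈ α) :
    ∃ N : ℕ, 1 ≤ N ∧ (Submodule.span A (Set.range φ)) ^ N ≤
      α * Psi (Submodule.span A (Set.range φ)) N := by
  obtain ⟨N, hN1, hN⟩ := exists_varIdeal_pow_le n
  refine ⟨N, hN1, ?_⟩
  rw [Submodule.span_pow, Submodule.span_le]
  intro x hx
  obtain ⟨μ, h1, h2⟩ := exists_lift φ N x hx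
  have h3 := psi_momIdeal (A := A) φ α hα μ (hN h1) N
  rw [h2, coeff_C_mul_X_pow, if_pos rfl] at h3
  exact h3

/-- The final divisibility statement: with `φ k ∈ ϱ ^ n` and `α ϱ ≤ 1`, some power of the span of
the `φ k` lies in `α`. -/
theorem exists_pow_le_alpha (φ : Fin n → B) (α ϱ : Submodule A B) (hα1 : α ≤ 1)
    (hα : ∀ m : ℕ, 1 ≤ m → Lf ((∑ k : Fin n, monomial (k : ℕ) (φ k)) ^ m) ∈ α)
    (h1ϱ : 1 ≤ ϱ) (hαϱ : α * ϱ ≤ 1) (hφ : ∀ k, φ k ∈ ϱ ^ n) :
    ∃ N : ℕ, 1 ≤ N ∧ (Submodule.span A (Set.range φ)) ^ N ≤ α := by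
  obtain ⟨N, hN1, hN⟩ := exists_pow_le φ α hα
  set Φ := Submodule.span A (Set.range φ) with hΦ
  set Ψ := Psi Φ N with hΨ
  have hstep : Φ * Ψ ≤ Ψ := by
    have h1 : Φ * Ψ ≤ Psi Φ (N + 1) := by
      have := Psi_mul_pow_le Φ N 1
      rwa [pow_one, mul_comm] at this
    refine h1.trans ?_
    refine Psi_le (fun i hi => ?_)
    by_cases h : i < N
    · exact pow_le_Psi Φ h
    · have : i = N := by omega
      subst this
      refine hN.trans ?_
      calc α * Psi Φ i ≤ 1 * Psi Φ i := mul_le_mul' hα1 le_rfl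
        _ = Ψ := one_mul _
  have hstep2 : ∀ i : ℕ, Φ ^ i * Ψ ≤ Ψ := by
    intro i
    induction i with
    | zero => simp
    | succ i ih =>
      rw [pow_succ, mul_assoc]
      exact (mul_le_mul' le_rfl hstep).trans ih
  have hbig : Φ ^ N * Ψ ≤ α * Ψ := by
    rw [mul_comm, hΨ, Psi, Finset.sum_mul]
    have : ∀ M ≤ N, ∑ i ∈ Finset.range M, Φ ^ i * Φ ^ N ≤ α * Ψ := by
      intro M
      induction M with
      | zero => simp
      | succ M ih =>
        intro hM
        rw [Finset.sum_range_succ]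
        refine sup_le (ih (by omega)) ?_
        calc Φ ^ M * Φ ^ N ≤ Φ ^ M * (α * Ψ) := mul_le_mul' le_rfl hN
          _ = α * (Φ ^ M * Ψ) := by ring
          _ ≤ α * Ψ := mul_le_mul' le_rfl (hstep2 M)
    exact this N le_rfl
  have hq : ∀ q : ℕ, Φ ^ (q * N) * Ψ ≤ α ^ q * Ψ := by
    intro q
    induction q with
    | zero => simp
    | succ q ih =>
      calc Φ ^ ((q + 1) * N) * Ψ = Φ ^ (q * N) * (Φ ^ N * Ψ) := by ring
        _ ≤ Φ ^ (q * N) * (α * Ψ) := mul_le_mul' le_rfl hbig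
        _ = α * (Φ ^ (q * N) * Ψ) := by ring
        _ ≤ α * (α ^ q * Ψ) := mul_le_mul' le_rfl ih
        _ = _ := by ring
  have hone : (1 : Submodule A B) ≤ Ψ := by
    have := pow_le_Psi Φ (i := 0) (N := N) (by omega)
    rwa [pow_zero] at this
  have hΦϱ : Φ ≤ ϱ ^ n := by
    rw [hΦ, Submodule.span_le]
    rintro _ ⟨k, rfl⟩
    exact hφ k
  have hmono : ∀ {i j : ℕ}, i ≤ j → ϱ ^ i ≤ ϱ ^ j := by
    intro i j hij
    exact pow_le_pow_right' h1ϱ hij
  have hΨϱ : Ψ ≤ ϱ ^ (n * N) := by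
    refine Psi_le (fun i hi => ?_)
    calc Φ ^ i ≤ (ϱ ^ n) ^ i := pow_le_pow_left' hΦϱ i
      _ = ϱ ^ (n * i) := by rw [pow_mul]
      _ ≤ _ := hmono (Nat.mul_le_mul_left n hi.le)
  refine ⟨(n * N + 1) * N, Nat.mul_pos (by omega) hN1, ?_⟩
  calc Φ ^ ((n * N + 1) * N) = Φ ^ ((n * N + 1) * N) * 1 := (mul_one _).symm
    _ ≤ Φ ^ ((n * N + 1) * N) * Ψ := mul_le_mul' le_rfl hone
    _ ≤ α ^ (n * N + 1) * Ψ := hq _
    _ ≤ α ^ (n * N + 1) * ϱ ^ (n * N) := mul_le_mul' le_rfl hΨϱ
    _ = α * (α * ϱ) ^ (n * N) := by ring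
    _ ≤ α * 1 ^ (n * N) := mul_le_mul' le_rfl (pow_le_pow_left' hαϱ _)
    _ = α := by rw [one_pow, mul_one]

end Module

end Pool.Agent.H569R3.Img
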