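import Pool.Agent.H569R3.ImgMain

set_option autoImplicit false

/-! The two applications of the main lemma: the image of `∂ - a` for nonconstant `a`, and the
factorial functional in one variable. -/

namespace Pool.Agent.H569R3.Img

open Polynomial

variable {K : Type*} [Field K] [CharZero K] [IsAlgClosed K]

theorem exists_sigma {f : K[X]} (hf : 1 ≤ f.natDegree) :
    ∃ σ : K[X], σ.coeff 0 ≠ 0 ∧ derivative f ∣ f * aeval f σ := by
  classical
  have hf0 : f ≠ 0 := by rintro rfl; simp at hf
  have hd0 : derivative f ≠ 0 := by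
    intro h
    have := derivative_eq_zero.1 h
    omega
  let S := (derivative f).roots.filter (fun z => f.eval z ≠ 0)
  let σ : K[X] := (S.map (fun z => X - C (f.eval z))).prod
  have hσ0 : σ.coeff 0 ≠ 0 := by
    rw [coeff_zero_eq_eval_zero, eval_multiset_prod, Multiset.map_map]
    intro h
    rw [Multiset.prod_eq_zero_iff] at h
    rw [Multiset.mem_map] at h
    obtain ⟨z, hz, h1⟩ := h
    have h2 := (Multiset.mem_filter.1 hz).2
    simp at h1
    exact h2 h1
  refine ⟨σ, hσ0, ?_⟩
  have hσf : aeval f σ = (S.map (fun z => f - C (f.eval z))).prod := by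
    rw [map_multiset_prod, Multiset.map_map]
    congr 1
    refine Multiset.map_congr rfl (fun z _ => ?_)
    simp
  have hdiv : (S.map (fun z => X - C z)).prod ∣ aeval f σ := by
    rw [hσf]
    refine Multiset.prod_dvd_prod_of_dvd _ _ (fun z _ => ?_)
    exact Polynomial.X_sub_C_dvd_sub_C_eval
  have hσf0 : aeval f σ ≠ 0 := by
    rw [← comp_eq_aeval]
    intro h
    rw [comp_eq_zero_iff] at h
    rcases h with h | ⟨_, h⟩
    · rw [h] at hσ0; simp at hσ0
    · rw [h] at hf
      simp at hf
  rw [IsAlgClosed.dvd_iff_roots_le_roots hd0 (mul_ne_zero hf0 hσf0), Multiset.le_iff_count]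
  intro z
  rw [count_roots, count_roots, rootMultiplicity_mul (mul_ne_zero hf0 hσf0)]
  by_cases hz : f.eval z = 0
  · have h3 := derivative_rootMultiplicity_of_root (p := f) (t := z) hz
    omega
  · have h4 : rootMultiplicity z (derivative f) = S.count z := by
      rw [← count_roots]
      exact (Multiset.count_filter_of_pos (p := fun z => f.eval z ≠ 0) hz).symm
    have h5 : S.count z = rootMultiplicity z (S.map (fun z => X - C z)).prod := by
      rw [← count_roots, roots_multiset_prod_X_sub_C]
    have h6 := rootMultiplicity_le_rootMultiplicity_of_dvd hσf0 hdiv z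
    omega

/-- **Key lemma.** If `a` is not constant and all powers of `f` lie in the image of `∂ - a`
then `f = 0`. -/
theorem key_lemma {a f : K[X]} (ha : 1 ≤ a.natDegree)
    (hfm : ∀ m : ℕ, 1 ≤ m → ∃ h, derivative h - a * h = f ^ m) : f = 0 := by
  by_contra hf0
  -- `1` is not in the image
  have h1 : ¬ ∃ h : K[X], derivative h - a * h = 1 := by
    rintro ⟨h, e⟩
    by_cases hh : h = 0
    · subst hh; simp at e
    have ha0 : a ≠ 0 := by rintro rfl; simp at ha
    have hd : (a * h).natDegree = a.natDegree + h.natDegree := natDegree_mul ha0 hh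
    have hlt : (derivative h).natDegree < (a * h).natDegree := by
      rw [hd]
      have := natDegree_derivative_le h
      omega
    have := natDegree_sub_eq_right_of_natDegree_lt hlt
    rw [e, natDegree_one, hd] at this
    omega
  by_cases hf : 1 ≤ f.natDegree
  · obtain ⟨σ, hσ, κ, hκ⟩ := exists_sigma hf
    apply h1
    obtain ⟨h, e⟩ := main_lemma (a := a) (b := 1) hf (one_dvd κ) hκ.symm hσ
      (fun m hm => by
        obtain ⟨h, e⟩ := hfm m hm
        exact ⟨h, by rw [one_mul, D_apply, e]⟩)
    exact ⟨h, by rw [one_mul, D_apply] at e; exact e⟩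
  · have hf' : f.natDegree = 0 := by omega
    obtain ⟨r, rfl⟩ := natDegree_eq_zero.1 hf'
    have hr : r ≠ 0 := by rintro rfl; simp at hf0
    apply h1
    obtain ⟨h, e⟩ := hfm 1 le_rfl
    refine ⟨C r⁻¹ * h, ?_⟩
    rw [derivative_C_mul, mul_left_comm, ← mul_sub, e, pow_one, ← C_mul, inv_mul_cancel₀ hr, C_1]

/-- The functional with `X ^ k ↦ k!`. -/
noncomputable def Lf {R : Type*} [CommRing R] : R[X] →ₗ[R] R :=
  Polynomial.lsum (fun k => (k.factorial : R) • LinearMap.id)

theorem Lf_monomial {R : Type*} [CommRing R] (k : ℕ) (r : R) :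
    Lf (monomial k r) = (k.factorial : R) * r := by
  simp [Lf, Polynomial.lsum_apply]

/-- In the kernel of `Lf` every element is of the form `(X h)' - X h`. -/
theorem exists_of_Lf {R : Type*} [CommRing R] (g : R[X]) :
    ∃ h : R[X], derivative h - h = g ∧ h.coeff 0 = - Lf g := by
  induction g using Polynomial.induction_on' with
  | add p q hp hq =>
    obtain ⟨h1, e1, c1⟩ := hp
    obtain ⟨h2, e2, c2⟩ := hq
    refine ⟨h1 + h2, ?_, ?_⟩
    · rw [derivative_add, ← e1, ← e2]; ring
    · rw [coeff_add, c1, c2, map_add]; ring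
  | monomial n r =>
    induction n generalizing r with
    | zero =>
      refine ⟨-C r, ?_, ?_⟩
      · simp
      · rw [Lf_monomial]; simp
    | succ n ih =>
      obtain ⟨h, e, c⟩ := ih (r * (n + 1))
      refine ⟨h - monomial (n + 1) r, ?_, ?_⟩
      · have : derivative (monomial (n + 1) r) = monomial n (r * (n + 1)) := by
          rw [derivative_monomial]
          simp
        rw [derivative_sub, this, ← e]
        ring
      · rw [coeff_sub, c, coeff_monomial, if_neg (by omega), Lf_monomial, Lf_monomial,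
          Nat.factorial_succ]
        push_cast
        ring

/-- The one variable factorial conjecture. -/
theorem factorial_one {φ : K[X]} (h : ∀ m : ℕ, 1 ≤ m → Lf (φ ^ m) = 0) : φ = 0 := by
  by_contra hf0
  have hV : ∀ m : ℕ, 1 ≤ m → ∃ h, D (1 : K[X]) (X * h) = φ ^ m := by
    intro m hm
    obtain ⟨k, e, c⟩ := exists_of_Lf (φ ^ m)
    rw [h m hm, neg_zero] at c
    obtain ⟨k', rfl⟩ := X_dvd_iff.2 c
    exact ⟨k', by rw [D_apply, one_mul, e]⟩
  have h1 : ¬ ∃ h : K[X], D (1 : K[X]) (X * h) = 1 := by
    rintro ⟨h, e⟩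
    rw [D_apply, one_mul] at e
    by_cases hh : h = 0
    · subst hh; simp at e
    have hd : 1 ≤ (X * h).natDegree := by
      rw [natDegree_X_mul hh]; omega
    have hlt : (derivative (X * h)).natDegree < (X * h).natDegree :=
      natDegree_derivative_lt (by omega)
    have := natDegree_sub_eq_right_of_natDegree_lt hlt
    rw [e, natDegree_one] at this
    omega
  by_cases hf : 1 ≤ φ.natDegree
  · obtain ⟨σ, hσ, κ, hκ⟩ := exists_sigma hf
    apply h1
    by_cases h0 : φ.coeff 0 = 0
    · have hX : X ∣ κ := by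
        have hroot : φ.IsRoot 0 := by rw [IsRoot.def, ← coeff_zero_eq_eval_zero, h0]
        have hg : (aeval φ σ).eval 0 ≠ 0 := by
          rw [← comp_eq_aeval, eval_comp, hroot, ← coeff_zero_eq_eval_zero]
          exact hσ
        obtain ⟨hκ0, hκ1⟩ := rm_kappa hf0 hroot hκ.symm hg
        have h2 : κ.IsRoot 0 := (rootMultiplicity_pos hκ0).1 (by omega)
        rw [X_dvd_iff, coeff_zero_eq_eval_zero]
        exact h2
      exact main_lemma hf hX hκ.symm hσ hV
    · refine main_lemma (κ := κ * (φ - C (φ.coeff 0))) (σ := σ * (X - C (φ.coeff 0))) hf ?_ ?_ ?_ hV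
      · refine Dvd.dvd.mul_left ?_ κ
        rw [X_dvd_iff]
        simp
      · rw [map_mul, ← mul_assoc, ← hκ]
        simp only [map_sub, aeval_X, aeval_C, algebraMap_eq]
        ring
      · rw [mul_coeff_zero]
        refine mul_ne_zero hσ ?_
        simpa using h0
  · have hf' : φ.natDegree = 0 := by omega
    obtain ⟨r, rfl⟩ := natDegree_eq_zero.1 hf'
    have hr : r ≠ 0 := by rintro rfl; simp at hf0
    have h2 := h 1 le_rfl
    rw [pow_one, ← monomial_zero_left, Lf_monomial] at h2
    simp at h2
    exact hr h2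

end Pool.Agent.H569R3.Img
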