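import Pool.Agent.H569R3.ImgMult

set_option autoImplicit false

/-! The main lemma: if all powers of `f` lie in `V = {D (b h)}` then so does `1`. -/

namespace Pool.Agent.H569R3.Img

open Polynomial

variable {K : Type*} [Field K]

/-- The increasing sequence of subspaces `W_k`. -/
def Wk (a b f : K[X]) : ℕ → K[X] → Prop
  | 0, y => ∀ m : ℕ, ∃ h, D a (b * h) = y * f ^ m
  | k + 1, y => ∃ h, D a (b * h) = y ∧ Wk a b f k (derivative f * (b * h))

theorem Wk_add {a b f : K[X]} (k : ℕ) : ∀ {x y : K[X]}, Wk a b f k x → Wk a b f k y →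
    Wk a b f k (x + y) := by
  induction k with
  | zero =>
    intro x y hx hy m
    obtain ⟨h1, e1⟩ := hx m
    obtain ⟨h2, e2⟩ := hy m
    exact ⟨h1 + h2, by rw [mul_add, map_add, e1, e2, add_mul]⟩
  | succ k ih =>
    rintro x y ⟨h1, e1, w1⟩ ⟨h2, e2, w2⟩
    exact ⟨h1 + h2, by rw [mul_add, map_add, e1, e2], by
      rw [mul_add, mul_add]; exact ih w1 w2⟩

theorem Wk_smul {a b f : K[X]} (k : ℕ) (r : K) : ∀ {x : K[X]}, Wk a b f k x →
    Wk a b f k (r • x) := by
  induction k with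
  | zero =>
    intro x hx m
    obtain ⟨h1, e1⟩ := hx m
    exact ⟨r • h1, by rw [mul_smul_comm, map_smul, e1, smul_mul_assoc]⟩
  | succ k ih =>
    rintro x ⟨h1, e1, w1⟩
    exact ⟨r • h1, by rw [mul_smul_comm, map_smul, e1], by
      rw [mul_smul_comm, mul_smul_comm]; exact ih w1⟩

theorem Wk_zero {a b f : K[X]} (k : ℕ) : Wk a b f k 0 := by
  induction k with
  | zero => exact fun m => ⟨0, by simp⟩
  | succ k ih => exact ⟨0, by simp, by simpa using ih⟩

theorem Wk_sub {a b f : K[X]} (k : ℕ) {x y : K[X]} (hx : Wk a b f k x) (hy : Wk a b f k y) :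
    Wk a b f k (x - y) := by
  have := Wk_add k hx (Wk_smul k (-1 : K) hy)
  rwa [neg_one_smul, ← sub_eq_add_neg] at this

variable [CharZero K]

theorem Wk_mono {a b f : K[X]} (k : ℕ) : ∀ {y : K[X]}, Wk a b f k y → Wk a b f (k + 1) y := by
  induction k with
  | zero =>
    intro y hy
    obtain ⟨h, e⟩ := hy 0
    refine ⟨h, by simpa using e, fun m => ?_⟩
    obtain ⟨h', e'⟩ := hy (m + 1)
    refine ⟨((m + 1 : ℕ) : K)⁻¹ • (f ^ (m + 1) * h - h'), ?_⟩
    have hm : ((m + 1 : ℕ) : K) ≠ 0 := by exact_mod_cast Nat.succ_ne_zero m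
    rw [mul_smul_comm, map_smul, mul_sub, map_sub, e', mul_left_comm, D_mul, e]
    rw [derivative_pow_succ]
    simp only [pow_zero, mul_one]
    rw [inv_smul_eq_iff₀ hm]
    rw [Algebra.smul_def]
    push_cast
    simp only [map_add, map_natCast, map_one]
    ring
  | succ k ih =>
    rintro y ⟨h, e, w⟩
    exact ⟨h, e, ih w⟩

theorem Wk_mono_le {a b f : K[X]} {k l : ℕ} (hkl : k ≤ l) {y : K[X]} (hy : Wk a b f k y) :
    Wk a b f l y := by
  induction hkl with
  | refl => exact hy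
  | step _ ih => exact Wk_mono _ ih

theorem Wk_mul {a b f : K[X]} (k : ℕ) : ∀ {y : K[X]}, Wk a b f k y → Wk a b f k (f * y) := by
  induction k with
  | zero =>
    intro y hy m
    obtain ⟨h, e⟩ := hy (m + 1)
    exact ⟨h, by rw [e]; ring⟩
  | succ k ih =>
    rintro y ⟨h, e, w⟩
    obtain ⟨h2, e2, w2⟩ := Wk_mono _ w
    refine ⟨f * h - h2, ?_, ?_⟩
    · rw [mul_sub, map_sub, mul_left_comm, D_mul, e, e2]
      ring
    · have := Wk_sub k (ih w) w2
      convert this using 1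
      ring

theorem Wk_V {a b f : K[X]} (k : ℕ) {y : K[X]} (hy : Wk a b f k y) :
    ∃ h, D a (b * h) = y := by
  cases k with
  | zero =>
    obtain ⟨h, e⟩ := hy 0
    exact ⟨h, by simpa using e⟩
  | succ k =>
    obtain ⟨h, e, _⟩ := hy
    exact ⟨h, e⟩

/-- The union of the `W_k`. -/
def Wt (a b f : K[X]) : Submodule K K[X] where
  carrier := {y | ∃ k, Wk a b f k y}
  add_mem' := by
    rintro x y ⟨k, hx⟩ ⟨l, hy⟩
    exact ⟨max k l, Wk_add _ (Wk_mono_le (le_max_left _ _) hx)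
      (Wk_mono_le (le_max_right _ _) hy)⟩
  zero_mem' := ⟨0, Wk_zero 0⟩
  smul_mem' := by
    rintro r x ⟨k, hx⟩
    exact ⟨k, Wk_smul k r hx⟩

theorem mem_Wt {a b f y : K[X]} : y ∈ Wt a b f ↔ ∃ k, Wk a b f k y := Iff.rfl

theorem Wt_mul {a b f y : K[X]} (hy : y ∈ Wt a b f) : f * y ∈ Wt a b f := by
  obtain ⟨k, hk⟩ := hy
  exact ⟨k, Wk_mul k hk⟩

theorem Wt_aeval_mul {a b f y : K[X]} (hy : y ∈ Wt a b f) (p : K[X]) :
    aeval f p * y ∈ Wt a b f := by
  induction p using Polynomial.induction_on' with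
  | add p q hp hq => rw [map_add, add_mul]; exact (Wt a b f).add_mem hp hq
  | monomial n r =>
    rw [aeval_monomial]
    have : ∀ n : ℕ, f ^ n * y ∈ Wt a b f := by
      intro n
      induction n with
      | zero => simpa using hy
      | succ n ih => rw [pow_succ', mul_assoc]; exact Wt_mul ih
    rw [mul_assoc, ← Algebra.smul_def]
    exact (Wt a b f).smul_mem _ (this n)

/-- The main lemma. -/
theorem main_lemma [IsAlgClosed K] {a b f κ σ : K[X]} (hf : 1 ≤ f.natDegree)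
    (hb : b ∣ κ) (hκ : derivative f * κ = f * aeval f σ) (hσ : σ.coeff 0 ≠ 0)
    (hfm : ∀ m : ℕ, 1 ≤ m → ∃ h, D a (b * h) = f ^ m) : ∃ h, D a (b * h) = 1 := by
  have hf0 : f ≠ 0 := by rintro rfl; simp at hf
  obtain ⟨κ', hκ'⟩ := hb
  have hgz : ∀ z, f.IsRoot z → (aeval f σ).eval z ≠ 0 := by
    intro z hz
    have h1 : (aeval f σ).eval z = σ.eval (f.eval z) := by
      rw [← comp_eq_aeval, eval_comp]
    rw [h1, hz, ← coeff_zero_eq_eval_zero]
    exact hσ
  -- the subspace `U`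
  let U : Submodule K K[X] := (Wt a b f).comap (LinearMap.mulLeft K f)
  have hU : ∀ y, y ∈ U ↔ f * y ∈ Wt a b f := fun y => Iff.rfl
  have hWU : ∀ y, y ∈ Wt a b f → y ∈ U := fun y hy => Wt_mul hy
  have hUf : ∀ y ∈ U, f * y ∈ U := fun y hy => hWU _ hy
  let θ : K[X] →ₗ[K] K[X] := (D a).comp (LinearMap.mulLeft K κ)
  have hθ : ∀ y, θ y = D a (κ * y) := fun y => rfl
  have hθU : ∀ y ∈ U, θ y ∈ Wt a b f := by
    intro y hy
    obtain ⟨k, hk⟩ := Wt_aeval_mul ((hU y).1 hy) σ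
    refine ⟨k + 1, κ' * y, ?_, ?_⟩
    · rw [hθ, hκ', mul_assoc]
    · have : derivative f * (b * (κ' * y)) = aeval f σ * (f * y) := by
        calc derivative f * (b * (κ' * y)) = (derivative f * (b * κ')) * y := by ring
          _ = f * aeval f σ * y := by rw [← hκ', hκ]
          _ = _ := by ring
      rw [this]
      exact hk
  obtain ⟨j, hj⟩ := artin_rees f hf U hUf
  -- the finite dimensional quotient
  let I : Submodule K K[X] := (Ideal.span {f ^ (j + 1)}).restrictScalars K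
  have hI : ∀ y, y ∈ I ↔ f ^ (j + 1) ∣ y := fun y => by
    simp only [I, Submodule.restrictScalars_mem, Ideal.mem_span_singleton]
  have hfin : FiniteDimensional K (K[X] ⧸ I) := by
    have h1 : FiniteDimensional K (AdjoinRoot (f ^ (j + 1))) :=
      (AdjoinRoot.powerBasis (pow_ne_zero _ hf0)).finite
    exact h1
  have hθI : I ≤ I.comap θ := by
    intro y hy
    rw [Submodule.mem_comap, hI, hθ]
    exact (pow_dvd_theta_iff hf0 hκ hgz y (j + 1)).1 ((hI y).1 hy)
  let θb : (K[X] ⧸ I) →ₗ[K] (K[X] ⧸ I) := I.mapQ I θ hθI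
  have hθb : Function.Injective θb := by
    rw [← LinearMap.ker_eq_bot, LinearMap.ker_eq_bot']
    intro q hq
    obtain ⟨y, rfl⟩ := I.mkQ_surjective q
    have h1 : θb (I.mkQ y) = I.mkQ (θ y) := rfl
    rw [h1, Submodule.mkQ_apply, Submodule.Quotient.mk_eq_zero, hI, hθ] at hq
    rw [Submodule.mkQ_apply, Submodule.Quotient.mk_eq_zero, hI]
    exact (pow_dvd_theta_iff hf0 hκ hgz y (j + 1)).2 hq
  let Ub : Submodule K (K[X] ⧸ I) := U.map I.mkQ
  have hUb : ∀ x ∈ Ub, θb x ∈ Ub := by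
    rintro _ ⟨y, hy, rfl⟩
    exact ⟨θ y, hWU _ (hθU y hy), rfl⟩
  have hsurj : Function.Surjective (θb.restrict hUb) := by
    rw [← LinearMap.injective_iff_surjective]
    intro x y hxy
    apply Subtype.ext
    apply hθb
    exact congrArg Subtype.val hxy
  have hUW : ∀ y ∈ U, y ∈ Wt a b f := by
    intro y hy
    obtain ⟨⟨_, u, hu, rfl⟩, hu2⟩ := hsurj ⟨I.mkQ y, y, hy, rfl⟩
    have h1 : I.mkQ (θ u) = I.mkQ y := congrArg Subtype.val hu2
    have h2 : y - θ u ∈ I := by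
      rw [← Submodule.Quotient.mk_eq_zero, Submodule.Quotient.mk_sub, sub_eq_zero]
      exact h1.symm
    obtain ⟨z, hz⟩ := (hI _).1 h2
    have h3 : f ^ (j + 1) * z ∈ U := by
      rw [← hz]
      exact U.sub_mem hy (hWU _ (hθU u hu))
    have h4 : f * (f ^ j * z) ∈ Wt a b f := hj z h3
    have h5 : y = θ u + f * (f ^ j * z) := by
      rw [← mul_assoc, ← pow_succ', ← hz]
      ring
    rw [h5]
    exact (Wt a b f).add_mem (hθU u hu) h4
  have h1U : (1 : K[X]) ∈ U := by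
    refine ⟨0, fun m => ?_⟩
    obtain ⟨h, e⟩ := hfm (m + 1) (by omega)
    refine ⟨h, ?_⟩
    rw [e]
    simp only [LinearMap.mulLeft_apply, mul_one]
    ring
  obtain ⟨k, hk⟩ := hUW 1 h1U
  exact Wk_V k hk

end Pool.Agent.H569R3.Img
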