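import Pool.Agent.H569R3.ImgAR

set_option autoImplicit false

/-! Local analysis of the operator `y ↦ (κ y)' - a κ y` at the roots of `f`. -/

namespace Pool.Agent.H569R3.Img

open Polynomial

section Mult

variable {K : Type*} [Field K]

/-- The operator `h ↦ h' - a h`. -/
noncomputable def D (a : K[X]) : K[X] →ₗ[K] K[X] := derivative - LinearMap.mulLeft K a

theorem D_apply (a h : K[X]) : D a h = derivative h - a * h := by
  simp [D]

theorem D_mul (a x y : K[X]) : D a (x * y) = x * D a y + derivative x * y := by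
  simp only [D_apply, derivative_mul]
  ring

variable [CharZero K]

theorem rm_kappa {f κ g : K[X]} {z : K} (hf : f ≠ 0) (hz : f.IsRoot z)
    (hκ : derivative f * κ = f * g) (hg : g.eval z ≠ 0) :
    κ ≠ 0 ∧ rootMultiplicity z κ = 1 := by
  have hg0 : g ≠ 0 := by rintro rfl; simp at hg
  have hfg : f * g ≠ 0 := mul_ne_zero hf hg0
  have hd : derivative f * κ ≠ 0 := by rw [hκ]; exact hfg
  have hκ0 : κ ≠ 0 := right_ne_zero_of_mul hd
  refine ⟨hκ0, ?_⟩
  have h1 := rootMultiplicity_mul (x := z) hd
  have h2 := rootMultiplicity_mul (x := z) hfg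
  rw [hκ] at h1
  rw [h1, derivative_rootMultiplicity_of_root hz] at h2
  have h3 : 0 < rootMultiplicity z f := (rootMultiplicity_pos hf).2 hz
  have h4 : rootMultiplicity z g = 0 := by
    apply rootMultiplicity_eq_zero
    exact hg
  omega

theorem pow_dvd_D_iff {a κ : K[X]} {z : K} (hκ0 : κ ≠ 0) (h1 : rootMultiplicity z κ = 1)
    (y : K[X]) (j : ℕ) : (X - C z) ^ j ∣ y ↔ (X - C z) ^ j ∣ D a (κ * y) := by
  by_cases hy : y = 0
  · subst hy; simp
  have hκy : κ * y ≠ 0 := mul_ne_zero hκ0 hy
  have hm : rootMultiplicity z (κ * y) = rootMultiplicity z y + 1 := by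
    rw [rootMultiplicity_mul hκy, h1, add_comm]
  have hroot : (κ * y).IsRoot z := (rootMultiplicity_pos hκy).1 (by omega)
  have hder : rootMultiplicity z (derivative (κ * y)) = rootMultiplicity z y := by
    rw [derivative_rootMultiplicity_of_root hroot, hm]
    rfl
  have hder0 : derivative (κ * y) ≠ 0 := by
    intro h
    have h5 := natDegree_eq_zero_of_derivative_eq_zero h
    rw [natDegree_eq_zero] at h5
    obtain ⟨c, hc⟩ := h5
    rw [← hc] at hroot hκy
    simp only [IsRoot.def, eval_C] at hroot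
    rw [hroot] at hκy
    simp at hκy
  have hdvd : (X - C z) ^ (rootMultiplicity z y + 1) ∣ a * (κ * y) := by
    refine Dvd.dvd.mul_left ?_ a
    rw [← hm]
    exact pow_rootMultiplicity_dvd _ _
  rw [D_apply]
  constructor
  · intro h
    have hj : j ≤ rootMultiplicity z y := (le_rootMultiplicity_iff hy).2 h
    refine dvd_sub ?_ ?_
    · exact (le_rootMultiplicity_iff hder0).1 (by rw [hder]; exact hj)
    · exact (pow_dvd_pow _ (by omega)).trans hdvd
  · intro h
    by_contra hcon
    have hj : ¬ j ≤ rootMultiplicity z y := by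
      rwa [le_rootMultiplicity_iff hy]
    have h6 : (X - C z) ^ (rootMultiplicity z y + 1) ∣ derivative (κ * y) - a * (κ * y) :=
      (pow_dvd_pow _ (by omega)).trans h
    have h7 : (X - C z) ^ (rootMultiplicity z y + 1) ∣ derivative (κ * y) := by
      have := dvd_add h6 hdvd
      simpa using this
    have h8 := (le_rootMultiplicity_iff hder0).2 h7
    omega

theorem pow_dvd_iff_roots [IsAlgClosed K] {f y : K[X]} (hf : f ≠ 0) (N : ℕ) :
    f ^ N ∣ y ↔ ∀ z, f.IsRoot z → (X - C z) ^ (N * rootMultiplicity z f) ∣ y := by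
  classical
  constructor
  · intro h z _
    refine dvd_trans ?_ h
    rw [mul_comm, pow_mul]
    exact pow_dvd_pow_of_dvd (pow_rootMultiplicity_dvd f z) N
  · intro h
    by_cases hy : y = 0
    · subst hy; simp
    rw [IsAlgClosed.dvd_iff_roots_le_roots (pow_ne_zero N hf) hy, Multiset.le_iff_count]
    intro z
    rw [roots_pow, Multiset.count_nsmul, count_roots, count_roots]
    by_cases hz : f.IsRoot z
    · exact (le_rootMultiplicity_iff hy).2 (h z hz)
    · rw [rootMultiplicity_eq_zero hz]
      simp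

/-- `f ^ N` divides `y` if and only if it divides `(κ y)' - a κ y`, where `f' κ = f g` and `g`
does not vanish at the roots of `f`. -/
theorem pow_dvd_theta_iff [IsAlgClosed K] {a f κ g : K[X]} (hf : f ≠ 0)
    (hκ : derivative f * κ = f * g) (hg : ∀ z, f.IsRoot z → g.eval z ≠ 0) (y : K[X]) (N : ℕ) :
    f ^ N ∣ y ↔ f ^ N ∣ D a (κ * y) := by
  rw [pow_dvd_iff_roots hf, pow_dvd_iff_roots hf]
  refine forall_congr' (fun z => ?_)
  refine imp_congr_right (fun hz => ?_)
  obtain ⟨h1, h2⟩ := rm_kappa hf hz hκ (hg z hz)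
  exact pow_dvd_D_iff h1 h2 y _

end Mult

end Pool.Agent.H569R3.Img
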