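import Pool.Agent.H569R3.ImgFC

set_option autoImplicit false

/-! The operator `c ∂ - a` over an arbitrary commutative `ℚ`-algebra: basic identities. -/

namespace Pool.Agent.H569R3.Img

open Polynomial
open scoped Pointwise

variable {A : Type*} [CommRing A] [Algebra ℚ A]

/-- The operator `h ↦ c h' - a h`. -/
noncomputable def DD (c : A) (a : A[X]) : A[X] →ₗ[A] A[X] :=
  (LinearMap.mulLeft A (C c)).comp derivative - LinearMap.mulLeft A a

theorem DD_apply (c : A) (a h : A[X]) : DD c a h = C c * derivative h - a * h := by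
  simp [DD]

/-- The image of `c ∂ - a`. -/
noncomputable def II (c : A) (a : A[X]) : Submodule A A[X] := LinearMap.range (DD c a)

theorem DD_mem (c : A) (a h : A[X]) : C c * derivative h - a * h ∈ II c a :=
  ⟨h, DD_apply c a h⟩

/-- Coefficientwise scaling by rational numbers. -/
noncomputable def scale (l : ℕ → ℚ) : A[X] →ₗ[A] A[X] :=
  Polynomial.lsum (fun k => (monomial k).comp ((algebraMap ℚ A (l k)) • LinearMap.id))

theorem scale_monomial (l : ℕ → ℚ) (k : ℕ) (r : A) :
    scale l (monomial k r) = monomial k (algebraMap ℚ A (l k) * r) := by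
  rw [← Algebra.smul_def, ← smul_monomial]
  simp [scale, Polynomial.lsum_apply]

theorem scale_coeff (l : ℕ → ℚ) (p : A[X]) (k : ℕ) :
    (scale l p).coeff k = algebraMap ℚ A (l k) * p.coeff k := by
  induction p using Polynomial.induction_on' with
  | add p q hp hq => rw [map_add, coeff_add, coeff_add, hp, hq, mul_add]
  | monomial n r =>
    rw [scale_monomial, coeff_monomial, coeff_monomial]
    split_ifs with h
    · rw [h]
    · simp

/-- The Borel transform `X ^ k ↦ X ^ k / k!`. -/
noncomputable def borel : A[X] →ₗ[A] A[X] := scale (fun k => ((k.factorial : ℚ))⁻¹)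

theorem borel_monomial (k : ℕ) (r : A) :
    borel (monomial k r) = monomial k (algebraMap ℚ A ((k.factorial : ℚ))⁻¹ * r) :=
  scale_monomial _ _ _

theorem derivative_borel (p : A[X]) : derivative (borel (X * p)) = borel p := by
  induction p using Polynomial.induction_on' with
  | add p q hp hq => rw [mul_add, map_add, map_add, map_add, hp, hq]
  | monomial n r =>
    rw [X_mul_monomial, borel_monomial, borel_monomial, derivative_monomial]
    congr 1
    have h1 : algebraMap ℚ A (((n + 1).factorial : ℚ))⁻¹ * ((n + 1 : ℕ) : A) =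
        algebraMap ℚ A ((n.factorial : ℚ))⁻¹ := by
      rw [← map_natCast (algebraMap ℚ A), ← map_mul]
      congr 1
      rw [Nat.factorial_succ]
      push_cast
      have : (n.factorial : ℚ) ≠ 0 := by exact_mod_cast Nat.factorial_ne_zero n
      have h2 : ((n : ℚ) + 1) ≠ 0 := by positivity
      field_simp
    rw [mul_right_comm, h1]

theorem borel_C_mul (r : A) (p : A[X]) : borel (C r * p) = C r * borel p := by
  rw [← smul_eq_C_mul, map_smul, smul_eq_C_mul]

/-- (F1). -/
theorem borel_rel (c : A) (a p : A[X]) :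
    borel ((C (a.coeff 0) * X - C c) * p) + (a - C (a.coeff 0)) * borel (X * p) ∈ II c a := by
  have h1 := (II c a).neg_mem (DD_mem c a (borel (X * p)))
  rw [derivative_borel] at h1
  have h2 : borel ((C (a.coeff 0) * X - C c) * p) =
      C (a.coeff 0) * borel (X * p) - C c * borel p := by
    rw [sub_mul, map_sub, mul_assoc, borel_C_mul, borel_C_mul]
  rw [h2]
  convert h1 using 1
  ring

/-- The ideal generated by the higher coefficients of `a`. -/
noncomputable def JJ (a : A[X]) : Ideal A :=
  Ideal.span (Set.range fun j : Fin a.natDegree => a.coeff ((j : ℕ) + 1))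

omit [Algebra ℚ A] in
theorem coeff_mem_JJ (a : A[X]) (j : ℕ) (hj : 1 ≤ j) : a.coeff j ∈ JJ a := by
  by_cases h : j ≤ a.natDegree
  · exact Ideal.subset_span ⟨⟨j - 1, by omega⟩, by simp only; congr 1; omega⟩
  · rw [coeff_eq_zero_of_natDegree_lt (by omega)]
    exact Ideal.zero_mem _

/-- The ideal generated by the coefficients of `f`. -/
noncomputable def If (f : A[X]) : Ideal A :=
  Ideal.span (Set.range fun k : Fin (f.natDegree + 1) => f.coeff (k : ℕ))

/-- The span of the monomials of `f`. -/
noncomputable def SS (f : A[X]) : Submodule A A[X] :=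
  Submodule.span A (Set.range fun k : Fin (f.natDegree + 1) => monomial (k : ℕ) (f.coeff (k : ℕ)))

theorem self_mem_SS (f : A[X]) : f ∈ SS f := by
  have h : f = ∑ k : Fin (f.natDegree + 1), monomial (k : ℕ) (f.coeff (k : ℕ)) := by
    rw [Fin.sum_univ_eq_sum_range (fun k => monomial k (f.coeff k))]
    exact f.as_sum_range
  have h2 : ∑ k : Fin (f.natDegree + 1), monomial (k : ℕ) (f.coeff (k : ℕ)) ∈ SS f := by
    refine Submodule.sum_mem (SS f) (fun k _ => ?_)
    exact Submodule.subset_span (Set.mem_range_self
      (f := fun k : Fin (f.natDegree + 1) => monomial (k : ℕ) (f.coeff (k : ℕ))) k)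
  exact (congrArg (fun g => g ∈ SS f) h).mpr h2

theorem pow_mem_SS (f : A[X]) (m : ℕ) : f ^ m ∈ SS f ^ m :=
  Submodule.pow_mem_pow _ (self_mem_SS f) m

theorem mem_range_pow (f : A[X]) (m : ℕ) :
    ∀ z ∈ (Set.range fun k : Fin (f.natDegree + 1) => monomial (k : ℕ) (f.coeff (k : ℕ))) ^ m,
      ∃ w r, z = monomial w r := by
  induction m with
  | zero =>
    intro z hz
    rw [pow_zero, Set.mem_one] at hz
    exact ⟨0, 1, by rw [hz]; simp⟩
  | succ m ih =>
    intro z hz
    rw [pow_succ, Set.mem_mul] at hz
    obtain ⟨y, hy, x, ⟨k, rfl⟩, rfl⟩ := hz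
    obtain ⟨w, r, rfl⟩ := ih y hy
    exact ⟨_, _, monomial_mul_monomial _ _ _ _⟩

theorem monomial_mem_SS_pow (f : A[X]) (m : ℕ) (S : A[X]) (hS : S ∈ SS f ^ m) :
    ∀ w : ℕ, monomial w (S.coeff w) ∈ SS f ^ m := by
  have hS' := hS
  rw [SS, Submodule.span_pow] at hS'
  refine Submodule.span_induction (p := fun S _ => ∀ w : ℕ, monomial w (S.coeff w) ∈ SS f ^ m)
    ?_ ?_ ?_ ?_ hS'
  · intro z hz w
    obtain ⟨v, r, rfl⟩ := mem_range_pow f m z hz
    rw [coeff_monomial]
    split_ifs with h
    · subst h
      rw [SS, Submodule.span_pow]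
      exact Submodule.subset_span hz
    · simp
  · intro w; simp
  · intro x y _ _ hx hy w
    rw [coeff_add, map_add]
    exact Submodule.add_mem _ (hx w) (hy w)
  · intro r x _ hx w
    rw [coeff_smul, map_smul]
    exact Submodule.smul_mem _ _ (hx w)

theorem scale_mem (f : A[X]) (m : ℕ) (l : ℕ → ℚ) (S : A[X]) (hS : S ∈ SS f ^ m) :
    scale l S ∈ SS f ^ m := by
  rw [S.as_sum_range, map_sum]
  refine Submodule.sum_mem _ (fun w _ => ?_)
  rw [scale_monomial, ← smul_eq_mul, ← smul_monomial]
  exact Submodule.smul_mem _ _ (monomial_mem_SS_pow f m S hS w)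

/-- (F4). -/
theorem X_pow_mul_borel (κ j : ℕ) (S : A[X]) :
    X ^ j * borel (X ^ κ * S) = borel (X ^ (κ + j) *
      scale (fun w => ((w + κ + j).factorial : ℚ) * ((w + κ).factorial : ℚ)⁻¹) S) := by
  induction S using Polynomial.induction_on' with
  | add p q hp hq => rw [mul_add, map_add, mul_add, hp, hq, map_add, mul_add, map_add]
  | monomial n r =>
    rw [scale_monomial, X_pow_mul_monomial, X_pow_mul_monomial, borel_monomial, borel_monomial,
      X_pow_mul_monomial, ← mul_assoc, ← map_mul, ← add_assoc]
    have h1 : ((n + κ + j).factorial : ℚ) ≠ 0 := by exact_mod_cast Nat.factorial_ne_zero _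
    rw [inv_mul_cancel_left₀ h1]

/-- (F5). -/
theorem X_pow_mul_eq_borel (q : ℕ) (S : A[X]) :
    X ^ q * S = borel (X ^ q * scale (fun w => ((w + q).factorial : ℚ)) S) := by
  induction S using Polynomial.induction_on' with
  | add p q hp hq => rw [mul_add, map_add, mul_add, map_add, ← hp, ← hq]
  | monomial n r =>
    rw [scale_monomial, X_pow_mul_monomial, X_pow_mul_monomial, borel_monomial, ← mul_assoc,
      ← map_mul]
    have h1 : ((n + q).factorial : ℚ) ≠ 0 := by exact_mod_cast Nat.factorial_ne_zero _
    rw [inv_mul_cancel₀ h1, map_one, one_mul]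

/-- Coefficients of elements of `SS f ^ m`. -/
theorem SS_pow_coeff (f : A[X]) (m : ℕ) : ∀ S ∈ SS f ^ m, ∀ w, S.coeff w ∈ If f ^ m := by
  induction m with
  | zero => intro S _ w; simp
  | succ m ih =>
    intro S hS
    rw [pow_succ] at hS
    refine Submodule.mul_induction_on hS ?_ ?_
    · intro x hx y hy w
      rw [coeff_mul]
      refine Ideal.sum_mem _ (fun ij _ => ?_)
      rw [pow_succ]
      refine Ideal.mul_mem_mul (ih x hx _) ?_
      refine Submodule.span_induction (p := fun y _ => y.coeff ij.2 ∈ If f) ?_ ?_ ?_ ?_ hy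
      · rintro _ ⟨k, rfl⟩
        simp only [coeff_monomial]
        split_ifs with h
        · exact Ideal.subset_span ⟨k, rfl⟩
        · exact Ideal.zero_mem _
      · simp
      · intro x y _ _ hx hy
        rw [coeff_add]
        exact Ideal.add_mem _ hx hy
      · intro r x _ hx
        rw [coeff_smul]
        exact Ideal.mul_mem_left _ _ hx
    · intro x y hx hy w
      rw [coeff_add]
      exact Ideal.add_mem _ (hx w) (hy w)

theorem SS_pow_natDegree (f : A[X]) (m : ℕ) : ∀ S ∈ SS f ^ m, S.natDegree ≤ m * f.natDegree := by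
  induction m with
  | zero =>
    intro S hS
    rw [pow_zero, Submodule.mem_one] at hS
    obtain ⟨r, rfl⟩ := hS
    simp
  | succ m ih =>
    intro S hS
    rw [pow_succ] at hS
    refine Submodule.mul_induction_on hS ?_ ?_
    · intro x hx y hy
      have h1 : y.natDegree ≤ f.natDegree := by
        refine Submodule.span_induction (p := fun y _ => y.natDegree ≤ f.natDegree) ?_ ?_ ?_ ?_ hy
        · rintro _ ⟨k, rfl⟩
          exact (natDegree_monomial_le _).trans (by omega)
        · simp
        · intro x y _ _ hx hy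
          exact natDegree_add_le_of_degree_le hx hy
        · intro r x _ hx
          exact (natDegree_smul_le _ _).trans hx
      refine natDegree_mul_le.trans ?_
      have := ih x hx
      rw [Nat.succ_mul]
      omega
    · intro x y hx hy
      exact natDegree_add_le_of_degree_le hx hy

/-- `x` kills the ideal `J`. -/
def Kills (x : A) (J : Ideal A) : Prop := ∀ z ∈ J, x * z = 0

theorem Kills.mul {x : A} {J : Ideal A} (h : Kills x J) (y : A) : Kills (y * x) J := by
  intro z hz
  rw [mul_assoc, h z hz, mul_zero]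

theorem Kills.step {x y : A} {J : Ideal A} {s : ℕ} (h : Kills x (J ^ (s + 1))) (hy : y ∈ J) :
    Kills (y * x) (J ^ s) := by
  intro z hz
  have : y * x * z = x * (z * y) := by ring
  rw [this]
  apply h
  rw [pow_succ]
  exact Ideal.mul_mem_mul hz hy

/-- Claim `R`. -/
theorem claimR (c : A) (a : A[X]) (s : ℕ) : ∀ Q : ℕ, ∃ p0 : ℕ, ∀ p, p0 ≤ p →
    ∀ x : A, Kills x (JJ a ^ s) → ∀ Q' ≤ Q, monomial Q' (a.coeff 0 ^ p * x) ∈ II c a := by
  induction s with
  | zero =>
    intro Q
    refine ⟨0, fun p _ x hx Q' _ => ?_⟩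
    have h1 : x = 0 := by simpa using hx 1 (by simp)
    rw [h1]
    simp
  | succ s ih =>
    intro Q
    obtain ⟨p1, hp1⟩ := ih (Q + a.natDegree)
    refine ⟨p1 + 1 + Q, ?_⟩
    have key : ∀ Q' ≤ Q, ∀ p, p1 + 1 + Q' ≤ p → ∀ x : A, Kills x (JJ a ^ (s + 1)) →
        monomial Q' (a.coeff 0 ^ p * x) ∈ II c a := by
      intro Q'
      induction Q' with
      | zero =>
        intro _ p hp x hx
        obtain ⟨p', rfl⟩ : ∃ p', p = p' + 1 := ⟨p - 1, by omega⟩
        have h1 := DD_mem c a (monomial 0 (a.coeff 0 ^ p' * x))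
        have h2 : (a - C (a.coeff 0)) * monomial 0 (a.coeff 0 ^ p' * x) ∈ II c a := by
          have h3 : (a - C (a.coeff 0)) * monomial 0 (a.coeff 0 ^ p' * x) =
              ∑ j ∈ Finset.range a.natDegree,
                monomial (j + 1) (a.coeff 0 ^ p' * (a.coeff (j + 1) * x)) := by
            have h4 : a - C (a.coeff 0) =
                ∑ j ∈ Finset.range a.natDegree, monomial (j + 1) (a.coeff (j + 1)) := by
              conv_lhs => rw [a.as_sum_range, Finset.sum_range_succ']
              simp
            rw [h4, Finset.sum_mul]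
            refine Finset.sum_congr rfl (fun j _ => ?_)
            rw [monomial_mul_monomial]
            congr 1
            ring
          rw [h3]
          refine Submodule.sum_mem _ (fun j hj => ?_)
          refine hp1 p' (by omega) _ (hx.step (coeff_mem_JJ a _ (by omega))) _ ?_
          have := Finset.mem_range.1 hj
          omega
        have h5 : monomial 0 (a.coeff 0 ^ (p' + 1) * x) =
            - (C c * derivative (monomial 0 (a.coeff 0 ^ p' * x)) -
              a * monomial 0 (a.coeff 0 ^ p' * x)) -
            (a - C (a.coeff 0)) * monomial 0 (a.coeff 0 ^ p' * x) := by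
          have h7 : derivative (monomial 0 (a.coeff 0 ^ p' * x)) = 0 := by
            rw [monomial_zero_left, derivative_C]
          rw [h7, sub_mul, C_mul_monomial, pow_succ]
          rw [show a.coeff 0 * (a.coeff 0 ^ p' * x) = a.coeff 0 ^ p' * a.coeff 0 * x by ring]
          ring
        rw [h5]
        exact Submodule.sub_mem _ (Submodule.neg_mem _ h1) h2
      | succ Q' ihQ =>
        intro hQ' p hp x hx
        obtain ⟨p', rfl⟩ : ∃ p', p = p' + 1 := ⟨p - 1, by omega⟩
        have h1 := DD_mem c a (monomial (Q' + 1) (a.coeff 0 ^ p' * x))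
        have h2 : (a - C (a.coeff 0)) * monomial (Q' + 1) (a.coeff 0 ^ p' * x) ∈ II c a := by
          have h3 : (a - C (a.coeff 0)) * monomial (Q' + 1) (a.coeff 0 ^ p' * x) =
              ∑ j ∈ Finset.range a.natDegree,
                monomial (j + 1 + (Q' + 1)) (a.coeff 0 ^ p' * (a.coeff (j + 1) * x)) := by
            have h4 : a - C (a.coeff 0) =
                ∑ j ∈ Finset.range a.natDegree, monomial (j + 1) (a.coeff (j + 1)) := by
              conv_lhs => rw [a.as_sum_range, Finset.sum_range_succ']
              simp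
            rw [h4, Finset.sum_mul]
            refine Finset.sum_congr rfl (fun j _ => ?_)
            rw [monomial_mul_monomial]
            congr 1
            ring
          rw [h3]
          refine Submodule.sum_mem _ (fun j hj => ?_)
          refine hp1 p' (by omega) _ (hx.step (coeff_mem_JJ a _ (by omega))) _ ?_
          have := Finset.mem_range.1 hj
          omega
        have h6 : monomial Q' (a.coeff 0 ^ p' * (((Q' + 1 : ℕ) : A) * c * x)) ∈ II c a :=
          ihQ (by omega) p' (by omega) _ (hx.mul _)
        have h5 : monomial (Q' + 1) (a.coeff 0 ^ (p' + 1) * x) =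
            - (C c * derivative (monomial (Q' + 1) (a.coeff 0 ^ p' * x)) -
              a * monomial (Q' + 1) (a.coeff 0 ^ p' * x)) -
            (a - C (a.coeff 0)) * monomial (Q' + 1) (a.coeff 0 ^ p' * x) +
            monomial Q' (a.coeff 0 ^ p' * (((Q' + 1 : ℕ) : A) * c * x)) := by
          rw [derivative_monomial, C_mul_monomial, sub_mul, C_mul_monomial, pow_succ]
          rw [show a.coeff 0 * (a.coeff 0 ^ p' * x) = a.coeff 0 ^ p' * a.coeff 0 * x by ring]
          rw [show c * (a.coeff 0 ^ p' * x * ((Q' + 1 : ℕ) : A)) =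
            a.coeff 0 ^ p' * (((Q' + 1 : ℕ) : A) * c * x) by ring]
          rw [show Q' + 1 - 1 = Q' from rfl]
          ring
        rw [h5]
        exact Submodule.add_mem _ (Submodule.sub_mem _ (Submodule.neg_mem _ h1) h2) h6
    intro p hp x hx Q' hQ'
    exact key Q' hQ' p (by omega) x hx

end Pool.Agent.H569R3.Img
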