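import Pool.Agent.H569R3.ImgRing1

set_option autoImplicit false

/-! The Laplace transform into `A[ρ] / (a₀ ρ - c, J)` and the decomposition of monomials. -/

namespace Pool.Agent.H569R3.Img

open Polynomial
open scoped Pointwise

section Generic

variable {A B : Type*} [CommRing A] [CommRing B] [Algebra A B]

/-- The Laplace transform `X ^ k ↦ k! ρ ^ k`. -/
noncomputable def Lam (ρ : B) (p : A[X]) : B :=
  Lf ((p.map (algebraMap A B)).comp (C ρ * X))

theorem Lam_add (ρ : B) (p q : A[X]) : Lam ρ (p + q) = Lam ρ p + Lam ρ q := by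
  rw [Lam, Polynomial.map_add, add_comp, map_add]
  rfl

theorem Lam_sub (ρ : B) (p q : A[X]) : Lam ρ (p - q) = Lam ρ p - Lam ρ q := by
  rw [Lam, Polynomial.map_sub, sub_comp, map_sub]
  rfl

theorem Lam_monomial (ρ : B) (k : ℕ) (r : A) :
    Lam ρ (monomial k r) = (k.factorial : B) * (algebraMap A B r * ρ ^ k) := by
  have h : ((monomial k r).map (algebraMap A B)).comp (C ρ * X) =
      monomial k (algebraMap A B r * ρ ^ k) := by
    rw [map_monomial, monomial_comp, mul_pow, ← C_pow, ← mul_assoc, ← C_mul,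
      C_mul_X_pow_eq_monomial]
  rw [Lam, h, Lf_monomial]

theorem Lam_C_mul (ρ : B) (r : A) (p : A[X]) :
    Lam ρ (C r * p) = algebraMap A B r * Lam ρ p := by
  rw [Lam, Polynomial.map_mul, map_C, mul_comp, C_comp, ← smul_eq_C_mul, map_smul, smul_eq_mul]
  rfl

variable {c : A} {a : A[X]} {ρ : B}

theorem Lam_a_mul (hJ : ∀ r ∈ JJ a, algebraMap A B r = 0) (p : A[X]) :
    Lam ρ (a * p) = algebraMap A B (a.coeff 0) * Lam ρ p := by
  have h : a.map (algebraMap A B) = C (algebraMap A B (a.coeff 0)) := by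
    ext j
    rw [coeff_map, coeff_C]
    split_ifs with hj
    · rw [hj]
    · exact hJ _ (coeff_mem_JJ a j (by omega))
  rw [Lam, Polynomial.map_mul, h, mul_comp, C_comp, ← smul_eq_C_mul, map_smul, smul_eq_mul]
  rfl

theorem Lam_derivative (hρ : algebraMap A B (a.coeff 0) * ρ = algebraMap A B c) (h : A[X]) :
    Lam ρ (C c * derivative h) = algebraMap A B (a.coeff 0) *
      (Lam ρ h - algebraMap A B (h.coeff 0)) := by
  induction h using Polynomial.induction_on' with
  | add p q hp hq =>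
    rw [derivative_add, mul_add, Lam_add, hp, hq, Lam_add, coeff_add, map_add]
    ring
  | monomial n r =>
    rw [Lam_C_mul, derivative_monomial, Lam_monomial, Lam_monomial, coeff_monomial, ← hρ]
    cases n with
    | zero => simp
    | succ n =>
      rw [if_neg (by omega), map_zero, sub_zero, Nat.factorial_succ, map_mul, map_natCast]
      rw [show n + 1 - 1 = n from rfl]
      push_cast
      ring

theorem Lam_DD (hρ : algebraMap A B (a.coeff 0) * ρ = algebraMap A B c)
    (hJ : ∀ r ∈ JJ a, algebraMap A B r = 0) (h : A[X]) :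
    Lam ρ (C c * derivative h - a * h) = algebraMap A B (a.coeff 0 * (- h.coeff 0)) := by
  rw [Lam_sub, Lam_derivative hρ, Lam_a_mul hJ, map_mul, map_neg]
  ring

/-- The generators `f_k ρ ^ k`. -/
noncomputable def phi (ρ : B) (f : A[X]) : Fin (f.natDegree + 1) → B :=
  fun k => algebraMap A B (f.coeff (k : ℕ)) * ρ ^ (k : ℕ)

theorem Lf_phi (ρ : B) (f : A[X]) (m : ℕ) :
    Lf ((∑ k : Fin (f.natDegree + 1), monomial (k : ℕ) (phi ρ f k)) ^ m) = Lam ρ (f ^ m) := by
  have h : ∑ k : Fin (f.natDegree + 1), monomial (k : ℕ) (phi ρ f k) =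
      (f.map (algebraMap A B)).comp (C ρ * X) := by
    ext j
    rw [comp_C_mul_X_coeff, coeff_map, finsetSum_coeff]
    by_cases hj : j < f.natDegree + 1
    · rw [Finset.sum_eq_single ⟨j, hj⟩]
      · rw [coeff_monomial, if_pos rfl, phi]
      · intro b _ hb
        rw [coeff_monomial, if_neg]
        intro h
        exact hb (Fin.ext h)
      · simp
    · rw [coeff_eq_zero_of_natDegree_lt (by omega), map_zero, zero_mul]
      refine Finset.sum_eq_zero (fun b _ => ?_)
      rw [coeff_monomial, if_neg]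
      have := b.2
      omega
  rw [h, Lam, Polynomial.map_pow, pow_comp]

/-- Monomials of high degree become multiples of `a₀`. -/
theorem exists_aeval_eq [Algebra ℚ A] [Algebra ℚ B] [IsScalarTower ℚ A B]
    (hρ : algebraMap A B (a.coeff 0) * ρ = algebraMap A B c)
    (hJ : ∀ r ∈ JJ a, algebraMap A B r = 0) (f : A[X])
    (hf : ∀ m : ℕ, 1 ≤ m → ∃ h : A[X], C c * derivative h - a * h = f ^ m) :
    ∃ N : ℕ, 1 ≤ N ∧ ∀ P ∈ SS f ^ N, ∃ x : A, aeval ρ P = algebraMap A B (a.coeff 0 * x) := by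
  let α : Submodule A B := Submodule.span A {algebraMap A B (a.coeff 0)}
  let ϱ : Submodule A B := Submodule.span A {1, ρ}
  have hmemα : ∀ x : A, algebraMap A B (a.coeff 0 * x) ∈ α := by
    intro x
    rw [mul_comm, map_mul, ← Algebra.smul_def]
    exact Submodule.smul_mem _ _ (Submodule.subset_span rfl)
  have hα1 : α ≤ 1 := by
    rw [Submodule.span_le, Set.singleton_subset_iff, SetLike.mem_coe, Submodule.mem_one]
    exact ⟨_, rfl⟩
  have h1ϱ : 1 ≤ ϱ := Submodule.one_le.2 (Submodule.subset_span (by simp))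
  have hαϱ : α * ϱ ≤ 1 := by
    rw [Submodule.span_mul_span, Submodule.span_le]
    rintro _ ⟨x, hx, y, hy, rfl⟩
    rw [Set.mem_singleton_iff] at hx
    subst hx
    rcases hy with rfl | hy
    · simp only [mul_one, SetLike.mem_coe, Submodule.mem_one]
      exact ⟨_, rfl⟩
    · rw [Set.mem_singleton_iff] at hy
      subst hy
      simp only [hρ, SetLike.mem_coe, Submodule.mem_one]
      exact ⟨_, rfl⟩
  have hφ : ∀ k, phi ρ f k ∈ ϱ ^ (f.natDegree + 1) := by
    intro k
    rw [phi, ← Algebra.smul_def]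
    refine Submodule.smul_mem _ _ ?_
    have h2 : ρ ^ (k : ℕ) ∈ ϱ ^ (k : ℕ) :=
      Submodule.pow_mem_pow _ (Submodule.subset_span (by simp)) _
    have h3 : ϱ ^ (k : ℕ) ≤ ϱ ^ (f.natDegree + 1) := pow_le_pow_right' h1ϱ k.2.le
    exact h3 h2
  have hα : ∀ m : ℕ, 1 ≤ m →
      Lf ((∑ k : Fin (f.natDegree + 1), monomial (k : ℕ) (phi ρ f k)) ^ m) ∈ α := by
    intro m hm
    obtain ⟨h, e⟩ := hf m hm
    rw [Lf_phi, ← e, Lam_DD hρ hJ]
    exact hmemα _
  obtain ⟨N, hN1, hN⟩ := exists_pow_le_alpha (A := A) (phi ρ f) α ϱ hα1 hα h1ϱ hαϱ hφ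
  refine ⟨N, hN1, fun P hP => ?_⟩
  have hmap : aeval ρ P ∈ Submodule.span A (Set.range (phi ρ f)) ^ N := by
    have h3 : Submodule.map (aeval ρ : A[X] →ₐ[A] B).toLinearMap (SS f) =
        Submodule.span A (Set.range (phi ρ f)) := by
      rw [SS, Submodule.map_span]
      congr 1
      rw [← Set.range_comp]
      congr 1
      ext k
      simp [phi, aeval_monomial]
    rw [← h3, ← Submodule.map_pow]
    exact ⟨P, hP, rfl⟩
  have h4 := hN hmap
  rw [Submodule.mem_span_singleton] at h4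
  obtain ⟨x, hx⟩ := h4
  refine ⟨x, ?_⟩
  rw [← hx, Algebra.smul_def, ← map_mul, mul_comm]

end Generic

variable {A : Type*} [CommRing A]

/-- The ideal `(a₀ X - c, J)`. -/
noncomputable def BB (c : A) (a : A[X]) : Ideal A[X] :=
  Ideal.span {C (a.coeff 0) * X - C c} ⊔ (JJ a).map C

/-- Decomposition of high degree monomials. -/
theorem exists_SS_pow [Algebra ℚ A] (c : A) (a f : A[X])
    (hf : ∀ m : ℕ, 1 ≤ m → ∃ h : A[X], C c * derivative h - a * h = f ^ m) :
    ∃ N : ℕ, 1 ≤ N ∧ ∀ P ∈ SS f ^ N, ∃ (x : A) (Y y : A[X]), y ∈ (JJ a).map C ∧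
      P = C (a.coeff 0 * x) + (C (a.coeff 0) * X - C c) * Y + y := by
  have hρ : algebraMap A (A[X] ⧸ BB c a) (a.coeff 0) * (Ideal.Quotient.mk (BB c a) X) =
      algebraMap A (A[X] ⧸ BB c a) c := by
    show Ideal.Quotient.mk (BB c a) (C (a.coeff 0)) * Ideal.Quotient.mk (BB c a) X =
      Ideal.Quotient.mk (BB c a) (C c)
    rw [← map_mul, Ideal.Quotient.eq]
    exact Ideal.mem_sup_left (Ideal.subset_span rfl)
  have hJ : ∀ r ∈ JJ a, algebraMap A (A[X] ⧸ BB c a) r = 0 := by
    intro r hr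
    show Ideal.Quotient.mk (BB c a) (C r) = 0
    rw [Ideal.Quotient.eq_zero_iff_mem]
    exact Ideal.mem_sup_right (Ideal.mem_map_of_mem _ hr)
  obtain ⟨N, hN1, hN⟩ := exists_aeval_eq hρ hJ f hf
  refine ⟨N, hN1, fun P hP => ?_⟩
  obtain ⟨x, hx⟩ := hN P hP
  have h1 : aeval (Ideal.Quotient.mk (BB c a) X) P = Ideal.Quotient.mk (BB c a) P := by
    have h2 : aeval ((Ideal.Quotient.mkₐ A (BB c a)) X) P =
        (Ideal.Quotient.mkₐ A (BB c a)) (aeval X P) := aeval_algHom_apply _ _ _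
    rw [aeval_X_left_apply] at h2
    exact h2
  have h5 : P - C (a.coeff 0 * x) ∈ BB c a := by
    rw [← Ideal.Quotient.eq, ← h1, hx]
    rfl
  rw [BB, Submodule.mem_sup] at h5
  obtain ⟨u, hu, y, hy, huy⟩ := h5
  rw [Ideal.mem_span_singleton] at hu
  obtain ⟨Y, rfl⟩ := hu
  refine ⟨x, Y, y, hy, ?_⟩
  rw [add_assoc, huy]
  ring

end Pool.Agent.H569R3.Img
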