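import Pool.Agent.H569R3.ImgRing2

set_option autoImplicit false

/-! The induction over the nilpotency order of the higher coefficients. -/

namespace Pool.Agent.H569R3.Img

open Polynomial

variable {A : Type*} [CommRing A] [Algebra ℚ A]

theorem C_mul_mem {c : A} {a p : A[X]} (r : A) (hp : p ∈ II c a) : C r * p ∈ II c a := by
  rw [← smul_eq_C_mul]
  exact Submodule.smul_mem _ _ hp

omit [Algebra ℚ A] in
theorem tilde_eq (a : A[X]) : a - C (a.coeff 0) =
    ∑ j ∈ Finset.range a.natDegree, monomial (j + 1) (a.coeff (j + 1)) := by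
  conv_lhs => rw [a.as_sum_range, Finset.sum_range_succ']
  simp

/-- The decomposition with a uniform degree bound. -/
theorem exists_bound (c : A) (a f : A[X]) (N : ℕ)
    (hN : ∀ P ∈ SS f ^ N, ∃ (x : A) (Y y : A[X]), y ∈ (JJ a).map C ∧
      P = C (a.coeff 0 * x) + (C (a.coeff 0) * X - C c) * Y + y) :
    ∃ G : ℕ, ∀ P ∈ SS f ^ N, ∃ (x : A) (Y y : A[X]), y ∈ (JJ a).map C ∧
      Y.natDegree ≤ G ∧ y.natDegree ≤ G ∧
      P = C (a.coeff 0 * x) + (C (a.coeff 0) * X - C c) * Y + y := by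
  classical
  have hfg : (SS f ^ N).FG := by
    refine Submodule.FG.pow ?_ N
    exact Submodule.fg_span (Set.finite_range _)
  obtain ⟨T, hT⟩ := hfg
  have hT' : ∀ t ∈ T, t ∈ SS f ^ N := fun t ht => by
    rw [← hT]; exact Submodule.subset_span ht
  choose! x Y y h1 h2 using hN
  refine ⟨T.sup (fun t => max (Y t).natDegree (y t).natDegree), fun P hP => ?_⟩
  rw [← hT] at hP
  refine Submodule.span_induction (p := fun P _ => ∃ (x : A) (Y' y' : A[X]), y' ∈ (JJ a).map C ∧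
      Y'.natDegree ≤ T.sup (fun t => max (Y t).natDegree (y t).natDegree) ∧
      y'.natDegree ≤ T.sup (fun t => max (Y t).natDegree (y t).natDegree) ∧
      P = C (a.coeff 0 * x) + (C (a.coeff 0) * X - C c) * Y' + y') ?_ ?_ ?_ ?_ hP
  · intro t ht
    have h3 : max (Y t).natDegree (y t).natDegree ≤
        T.sup (fun t => max (Y t).natDegree (y t).natDegree) :=
      Finset.le_sup (f := fun t => max (Y t).natDegree (y t).natDegree) ht
    exact ⟨x t, Y t, y t, h1 t (hT' t ht), (le_max_left _ _).trans h3,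
      (le_max_right _ _).trans h3, h2 t (hT' t ht)⟩
  · exact ⟨0, 0, 0, Ideal.zero_mem _, by simp, by simp, by simp⟩
  · rintro P Q _ _ ⟨x1, Y1, y1, a1, b1, c1, e1⟩ ⟨x2, Y2, y2, a2, b2, c2, e2⟩
    refine ⟨x1 + x2, Y1 + Y2, y1 + y2, Ideal.add_mem _ a1 a2,
      natDegree_add_le_of_degree_le b1 b2, natDegree_add_le_of_degree_le c1 c2, ?_⟩
    rw [e1, e2, mul_add, C_add]
    ring
  · rintro r P _ ⟨x1, Y1, y1, a1, b1, c1, e1⟩
    refine ⟨r * x1, C r * Y1, C r * y1, Ideal.mul_mem_left _ _ a1,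
      (natDegree_C_mul_le _ _).trans b1, (natDegree_C_mul_le _ _).trans c1, ?_⟩
    rw [e1, smul_eq_C_mul, show a.coeff 0 * (r * x1) = r * (a.coeff 0 * x1) by ring,
      C_mul (a := r)]
    ring

/-- The statement `H`. -/
def HH (c : A) (a f : A[X]) (s : ℕ) : Prop :=
  ∀ q : ℕ, ∃ K : ℕ, ∀ q' ≤ q, ∀ m, K ≤ m → ∀ x : A, Kills x (JJ a ^ s) →
    ∀ S ∈ SS f ^ m, C x * borel (X ^ q' * S) ∈ II c a

theorem HH_zero (c : A) (a f : A[X]) : HH c a f 0 := by
  intro q
  refine ⟨0, fun q' _ m _ x hx S _ => ?_⟩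
  have h1 : x = 0 := by simpa using hx 1 (by simp)
  rw [h1]
  simp

/-- The part with coefficients in `J`. -/
theorem part_y {c : A} {a f : A[X]} {s q' m K q G : ℕ} (hK : ∀ q' ≤ q, ∀ m, K ≤ m → ∀ x : A,
    Kills x (JJ a ^ s) → ∀ S ∈ SS f ^ m, C x * borel (X ^ q' * S) ∈ II c a)
    (hm : K ≤ m) (hq : q' + G ≤ q) {x : A} (hx : Kills x (JJ a ^ (s + 1)))
    {S : A[X]} (hS : S ∈ SS f ^ m) {y : A[X]} (hy : y ∈ (JJ a).map C) (hyG : y.natDegree ≤ G) :
    C x * borel (X ^ q' * (y * S)) ∈ II c a := by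
  have hsum : C x * borel (X ^ q' * (y * S)) =
      ∑ k ∈ Finset.range (G + 1), C (y.coeff k * x) * borel (X ^ (q' + k) * S) := by
    conv_lhs => rw [y.as_sum_range' (G + 1) (by omega)]
    rw [Finset.sum_mul, Finset.mul_sum, map_sum, Finset.mul_sum]
    refine Finset.sum_congr rfl (fun k _ => ?_)
    rw [← C_mul_X_pow_eq_monomial]
    rw [show X ^ q' * (C (y.coeff k) * X ^ k * S) = C (y.coeff k) * (X ^ (q' + k) * S) by
      rw [pow_add]; ring]
    rw [borel_C_mul, C_mul]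
    ring
  rw [hsum]
  refine Submodule.sum_mem _ (fun k hk => ?_)
  have := Finset.mem_range.1 hk
  refine hK _ (by omega) m hm _ (hx.step ?_) S hS
  exact Ideal.mem_map_C_iff.1 hy k

/-- The part with a factor `a₀ X - c`. -/
theorem part_Y {c : A} {a f : A[X]} {s q' m K q G : ℕ} (hK : ∀ q' ≤ q, ∀ m, K ≤ m → ∀ x : A,
    Kills x (JJ a ^ s) → ∀ S ∈ SS f ^ m, C x * borel (X ^ q' * S) ∈ II c a)
    (hm : K ≤ m) (hq : q' + G + 1 + a.natDegree ≤ q) {x : A} (hx : Kills x (JJ a ^ (s + 1)))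
    {S : A[X]} (hS : S ∈ SS f ^ m) {Y : A[X]} (hYG : Y.natDegree ≤ G) :
    C x * borel (X ^ q' * ((C (a.coeff 0) * X - C c) * Y * S)) ∈ II c a := by
  have h1 := C_mul_mem x (borel_rel c a (X ^ q' * (Y * S)))
  rw [mul_add] at h1
  have h2 : C x * ((a - C (a.coeff 0)) * borel (X * (X ^ q' * (Y * S)))) ∈ II c a := by
    have hsum : borel (X * (X ^ q' * (Y * S))) =
        ∑ k ∈ Finset.range (G + 1), C (Y.coeff k) * borel (X ^ (q' + k + 1) * S) := by
      conv_lhs => rw [Y.as_sum_range' (G + 1) (by omega)]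
      rw [Finset.sum_mul, Finset.mul_sum, Finset.mul_sum, map_sum]
      refine Finset.sum_congr rfl (fun k _ => ?_)
      rw [← C_mul_X_pow_eq_monomial]
      rw [show X * (X ^ q' * (C (Y.coeff k) * X ^ k * S)) =
        C (Y.coeff k) * (X ^ (q' + k + 1) * S) by rw [pow_add, pow_add]; ring]
      rw [borel_C_mul]
    rw [hsum, tilde_eq, Finset.sum_mul, Finset.mul_sum]
    refine Submodule.sum_mem _ (fun j hj => ?_)
    rw [Finset.mul_sum, Finset.mul_sum]
    refine Submodule.sum_mem _ (fun k hk => ?_)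
    have hj' := Finset.mem_range.1 hj
    have hk' := Finset.mem_range.1 hk
    have h3 : C x * (monomial (j + 1) (a.coeff (j + 1)) *
        (C (Y.coeff k) * borel (X ^ (q' + k + 1) * S))) =
        C (Y.coeff k * (a.coeff (j + 1) * x)) *
          (X ^ (j + 1) * borel (X ^ (q' + k + 1) * S)) := by
      rw [← C_mul_X_pow_eq_monomial, C_mul, C_mul]
      ring
    rw [h3, X_pow_mul_borel]
    refine hK _ (by omega) m hm _ ((hx.step (coeff_mem_JJ a _ (by omega))).mul _) _ ?_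
    exact scale_mem f m _ S hS
  have h4 := Submodule.sub_mem _ h1 h2
  rw [add_sub_cancel_right] at h4
  convert h4 using 3
  ring

/-- Peeling off one block of monomials. -/
theorem peel_one {c : A} {a f : A[X]} {s q' m K q G N : ℕ}
    (hK : ∀ q' ≤ q, ∀ m, K ≤ m → ∀ x : A,
      Kills x (JJ a ^ s) → ∀ S ∈ SS f ^ m, C x * borel (X ^ q' * S) ∈ II c a)
    (hG : ∀ P ∈ SS f ^ N, ∃ (x : A) (Y y : A[X]), y ∈ (JJ a).map C ∧
      Y.natDegree ≤ G ∧ y.natDegree ≤ G ∧
      P = C (a.coeff 0 * x) + (C (a.coeff 0) * X - C c) * Y + y)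
    (hm : K ≤ m) (hq : q' + G + 1 + a.natDegree ≤ q) {x : A} (hx : Kills x (JJ a ^ (s + 1)))
    {S : A[X]} (hS : S ∈ SS f ^ (m + N)) :
    ∃ S' ∈ SS f ^ m, C x * borel (X ^ q' * S) -
      C (a.coeff 0 * x) * borel (X ^ q' * S') ∈ II c a := by
  rw [add_comm, pow_add] at hS
  refine Submodule.mul_induction_on hS ?_ ?_
  · intro P hP S1 hS1
    obtain ⟨x1, Y, y, hy, hYG, hyG, e⟩ := hG P hP
    refine ⟨x1 • S1, Submodule.smul_mem _ _ hS1, ?_⟩
    have h1 := part_y (G := G) (q' := q') hK hm (by omega) hx hS1 hy hyG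
    have h2 := part_Y hK hm hq hx hS1 hYG
    have h3 : C x * borel (X ^ q' * (P * S1)) - C (a.coeff 0 * x) * borel (X ^ q' * (x1 • S1)) =
        C x * borel (X ^ q' * ((C (a.coeff 0) * X - C c) * Y * S1)) +
          C x * borel (X ^ q' * (y * S1)) := by
      rw [e, add_mul, add_mul, mul_add, mul_add, map_add, map_add]
      rw [show X ^ q' * (C (a.coeff 0 * x1) * S1) = C (a.coeff 0 * x1) * (X ^ q' * S1) by ring]
      rw [borel_C_mul, smul_eq_C_mul,
        show X ^ q' * (C x1 * S1) = C x1 * (X ^ q' * S1) by ring, borel_C_mul, C_mul, C_mul]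
      ring
    rw [h3]
    exact Submodule.add_mem _ h2 h1
  · rintro S1 S2 ⟨T1, hT1, e1⟩ ⟨T2, hT2, e2⟩
    refine ⟨T1 + T2, Submodule.add_mem _ hT1 hT2, ?_⟩
    have := Submodule.add_mem _ e1 e2
    convert this using 1
    rw [mul_add, mul_add, map_add, map_add]
    ring

/-- Peeling off several blocks. -/
theorem peel_many {c : A} {a f : A[X]} {s q' m K q G N : ℕ}
    (hK : ∀ q' ≤ q, ∀ m, K ≤ m → ∀ x : A,
      Kills x (JJ a ^ s) → ∀ S ∈ SS f ^ m, C x * borel (X ^ q' * S) ∈ II c a)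
    (hG : ∀ P ∈ SS f ^ N, ∃ (x : A) (Y y : A[X]), y ∈ (JJ a).map C ∧
      Y.natDegree ≤ G ∧ y.natDegree ≤ G ∧
      P = C (a.coeff 0 * x) + (C (a.coeff 0) * X - C c) * Y + y)
    (hm : K ≤ m) (hq : q' + G + 1 + a.natDegree ≤ q) (p : ℕ) :
    ∀ {x : A}, Kills x (JJ a ^ (s + 1)) → ∀ {S : A[X]}, S ∈ SS f ^ (m + p * N) →
    ∃ S' ∈ SS f ^ m, C x * borel (X ^ q' * S) -
      C (a.coeff 0 ^ p * x) * borel (X ^ q' * S') ∈ II c a := by
  induction p with
  | zero =>
    intro x _ S hS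
    refine ⟨S, by simpa using hS, ?_⟩
    simp
  | succ p ih =>
    intro x hx S hS
    rw [Nat.succ_mul, ← add_assoc] at hS
    obtain ⟨S1, hS1, e1⟩ := peel_one hK hG (by omega) hq hx hS
    obtain ⟨S2, hS2, e2⟩ := ih (hx.mul (a.coeff 0)) hS1
    refine ⟨S2, hS2, ?_⟩
    have := Submodule.add_mem _ e1 e2
    convert this using 1
    rw [pow_succ, mul_assoc]
    ring

omit [Algebra ℚ A] in
theorem natDegree_borel_le [Algebra ℚ A] (p : A[X]) : (borel p).natDegree ≤ p.natDegree := by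
  rw [natDegree_le_iff_coeff_eq_zero]
  intro k hk
  rw [borel, scale_coeff, coeff_eq_zero_of_natDegree_lt hk, mul_zero]

theorem HH_succ (c : A) (a f : A[X]) (s : ℕ)
    (hf : ∀ m : ℕ, 1 ≤ m → ∃ h : A[X], C c * derivative h - a * h = f ^ m)
    (hs : HH c a f s) : HH c a f (s + 1) := by
  obtain ⟨N, hN1, hN⟩ := exists_SS_pow c a f hf
  obtain ⟨G, hG⟩ := exists_bound c a f N hN
  intro q
  obtain ⟨K, hK⟩ := hs (q + G + 1 + a.natDegree)
  obtain ⟨p0, hp0⟩ := claimR c a (s + 1) (q + (K + N) * f.natDegree)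
  refine ⟨K + p0 * N, fun q' hq' m' hm' x hx S hS => ?_⟩
  let p := (m' - K) / N
  let m := m' - p * N
  have hpN : p * N ≤ m' - K := Nat.div_mul_le_self _ _
  have hmK : K ≤ m := by
    show K ≤ m' - p * N
    omega
  have hmm : m' = m + p * N := by
    show m' = m' - p * N + p * N
    omega
  have hmlt : m < K + N := by
    have h1 := Nat.div_add_mod (m' - K) N
    have h2 := Nat.mod_lt (m' - K) hN1
    have h3 : p * N = N * ((m' - K) / N) := Nat.mul_comm _ _
    show m' - p * N < K + N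
    omega
  have hpp : p0 ≤ p := by
    show p0 ≤ (m' - K) / N
    rw [Nat.le_div_iff_mul_le hN1]
    omega
  rw [hmm] at hS
  obtain ⟨S', hS', e⟩ := peel_many hK hG hmK (by omega : q' + G + 1 + a.natDegree ≤ _) p hx hS
  have h1 : C (a.coeff 0 ^ p * x) * borel (X ^ q' * S') ∈ II c a := by
    have hdeg : (borel (X ^ q' * S')).natDegree < q + (K + N) * f.natDegree + 1 := by
      have h2 := natDegree_borel_le (X ^ q' * S')
      have h3 : (X ^ q' * S').natDegree ≤ q' + S'.natDegree := by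
        refine natDegree_mul_le.trans ?_
        have := natDegree_X_pow_le (R := A) q'
        omega
      have h4 := SS_pow_natDegree f m S' hS'
      have h5 : m * f.natDegree ≤ (K + N) * f.natDegree := Nat.mul_le_mul_right _ hmlt.le
      omega
    rw [(borel (X ^ q' * S')).as_sum_range' _ hdeg, Finset.mul_sum]
    refine Submodule.sum_mem _ (fun w hw => ?_)
    rw [C_mul_monomial, show a.coeff 0 ^ p * x * (borel (X ^ q' * S')).coeff w =
      a.coeff 0 ^ p * ((borel (X ^ q' * S')).coeff w * x) by ring]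
    refine hp0 p hpp _ (hx.mul _) w ?_
    have := Finset.mem_range.1 hw
    omega
  have := Submodule.add_mem _ e h1
  rwa [sub_add_cancel] at this

theorem HH_all (c : A) (a f : A[X])
    (hf : ∀ m : ℕ, 1 ≤ m → ∃ h : A[X], C c * derivative h - a * h = f ^ m) (s : ℕ) :
    HH c a f s := by
  induction s with
  | zero => exact HH_zero c a f
  | succ s ih => exact HH_succ c a f s hf ih

end Pool.Agent.H569R3.Img
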