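import Pool.Agent.H569R3.ImgRing3

set_option autoImplicit false

/-! The final assembly. -/

namespace Pool.Agent.H569R3.Img

open Polynomial

section Nil

variable {A : Type*} [CommRing A] [Algebra ℚ A]

/-- The products `c a_j f_i` with `j ≥ 1` are nilpotent. -/
theorem nilp (c : A) (a f : A[X])
    (hf : ∀ m : ℕ, 1 ≤ m → ∃ h : A[X], C c * derivative h - a * h = f ^ m)
    (j i : ℕ) (hj : 1 ≤ j) : IsNilpotent (c * a.coeff j * f.coeff i) := by
  rw [nilpotent_iff_mem_prime]
  intro 𝔭 hp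
  by_cases hc : c ∈ 𝔭
  · exact 𝔭.mul_mem_right _ (𝔭.mul_mem_right _ hc)
  by_cases ha : a.coeff j ∈ 𝔭
  · exact 𝔭.mul_mem_right _ (𝔭.mul_mem_left _ ha)
  refine 𝔭.mul_mem_left _ ?_
  let S := A ⧸ 𝔭
  have hS : IsDomain S := Ideal.Quotient.isDomain 𝔭
  let F := FractionRing S
  let K := AlgebraicClosure F
  have hchar : CharZero F := by
    have : CharZero S := algebraRat.charZero S
    have h1 : Function.Injective (algebraMap S F) := IsFractionRing.injective S F
    exact charZero_of_injective_algebraMap h1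
  have hchar2 : CharZero K := charZero_of_injective_algebraMap (algebraMap F K).injective
  let ι : A →+* K := (algebraMap F K).comp ((algebraMap S F).comp (Ideal.Quotient.mk 𝔭))
  have hι : ∀ x : A, ι x = 0 → x ∈ 𝔭 := by
    intro x hx
    have h1 : (algebraMap S F) (Ideal.Quotient.mk 𝔭 x) = 0 := by
      apply (algebraMap F K).injective
      rw [map_zero]
      exact hx
    have h2 : (Ideal.Quotient.mk 𝔭 x) = 0 := by
      apply IsFractionRing.injective S F
      rw [map_zero]
      exact h1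
    exact Ideal.Quotient.eq_zero_iff_mem.1 h2
  have hcι : ι c ≠ 0 := fun h => hc (hι c h)
  have haι : ι (a.coeff j) ≠ 0 := fun h => ha (hι _ h)
  have hzero : f.map ι = 0 := by
    refine key_lemma (a := C (ι c)⁻¹ * a.map ι) ?_ ?_
    · refine hj.trans (le_natDegree_of_ne_zero ?_)
      rw [coeff_C_mul, coeff_map]
      exact mul_ne_zero (inv_ne_zero hcι) haι
    · intro m hm
      obtain ⟨h, e⟩ := hf m hm
      refine ⟨C (ι c) * h.map ι, ?_⟩
      have e' := congrArg (Polynomial.map ι) e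
      rw [Polynomial.map_sub, Polynomial.map_mul, Polynomial.map_mul, Polynomial.map_pow, map_C,
        ← derivative_map] at e'
      rw [← e', derivative_C_mul]
      have h3 : C (ι c)⁻¹ * C (ι c) = 1 := by rw [← C_mul, inv_mul_cancel₀ hcι, C_1]
      linear_combination (-(a.map ι * h.map ι)) * h3
  apply hι
  rw [← coeff_map, hzero, coeff_zero]

/-- Some power of `c J I` vanishes. -/
theorem exists_nil_pow (c : A) (a f : A[X])
    (hf : ∀ m : ℕ, 1 ≤ m → ∃ h : A[X], C c * derivative h - a * h = f ^ m) :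
    ∃ N : ℕ, ∀ y ∈ If f ^ N, ∀ z ∈ JJ a ^ N, c ^ N * y * z = 0 := by
  have hle : Ideal.span {c} * (If f * JJ a) ≤ nilradical A := by
    rw [If, JJ, Ideal.span_mul_span', Ideal.span_mul_span', Ideal.span_le]
    rintro _ ⟨x, hx, _, ⟨_, ⟨i, rfl⟩, _, ⟨j, rfl⟩, rfl⟩, rfl⟩
    rw [Set.mem_singleton_iff] at hx
    subst hx
    simp only [SetLike.mem_coe, mem_nilradical]
    have := nilp x a f hf ((j : ℕ) + 1) (i : ℕ) (by omega)
    convert this using 1
    ring
  have hfg : (Ideal.span {c} * (If f * JJ a)).FG := by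
    refine Submodule.FG.mul (Submodule.fg_span (Set.finite_singleton _)) ?_
    exact Submodule.FG.mul (Submodule.fg_span (Set.finite_range _))
      (Submodule.fg_span (Set.finite_range _))
  obtain ⟨N, hN⟩ := Ideal.exists_pow_le_of_le_radical_of_fg (J := (⊥ : Ideal A)) hle hfg
  refine ⟨N, fun y hy z hz => ?_⟩
  have h1 : c ^ N * (y * z) ∈ (Ideal.span {c} * (If f * JJ a)) ^ N := by
    rw [mul_pow, mul_pow]
    have h3 : c ^ N ∈ Ideal.span {c} ^ N := Ideal.pow_mem_pow (Ideal.mem_span_singleton_self c) N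
    exact Ideal.mul_mem_mul h3 (Ideal.mul_mem_mul hy hz)
  have h2 := hN h1
  rw [mul_assoc]
  exact (Submodule.mem_bot A).1 h2

end Nil

section Ev

variable {A : Type*} [CommRing A] [Algebra ℚ A]

/-- Eventually in the image. -/
def Ev (c : A) (a : A[X]) (F : ℕ → A[X]) : Prop := ∃ K : ℕ, ∀ m, K ≤ m → F m ∈ II c a

theorem Ev.add {c : A} {a : A[X]} {F G : ℕ → A[X]} (hF : Ev c a F) (hG : Ev c a G) :
    Ev c a (fun m => F m + G m) := by
  obtain ⟨K, hK⟩ := hF
  obtain ⟨L, hL⟩ := hG
  exact ⟨max K L, fun m hm => Submodule.add_mem _ (hK m (le_trans (le_max_left _ _) hm))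
    (hL m (le_trans (le_max_right _ _) hm))⟩

theorem Ev.C_mul {c : A} {a : A[X]} {F : ℕ → A[X]} (r : A) (hF : Ev c a F) :
    Ev c a (fun m => C r * F m) := by
  obtain ⟨K, hK⟩ := hF
  exact ⟨K, fun m hm => C_mul_mem r (hK m hm)⟩

theorem Ev.sum {c : A} {a : A[X]} {ι : Type*} (s : Finset ι) {F : ι → ℕ → A[X]}
    (hF : ∀ i ∈ s, Ev c a (F i)) : Ev c a (fun m => ∑ i ∈ s, F i m) := by
  classical
  induction s using Finset.induction_on with
  | empty => exact ⟨0, fun m _ => by simp⟩
  | insert i s hi ih =>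
    simp only [Finset.sum_insert hi]
    exact (hF i (Finset.mem_insert_self _ _)).add
      (ih (fun j hj => hF j (Finset.mem_insert_of_mem hj)))

theorem Ev.congr {c : A} {a : A[X]} {F G : ℕ → A[X]} (hF : Ev c a F) (h : ∀ m, F m = G m) :
    Ev c a G := by
  obtain ⟨K, hK⟩ := hF
  exact ⟨K, fun m hm => by rw [← h]; exact hK m hm⟩

variable {c : A} {a f : A[X]}

/-- Claim 4a. -/
theorem claim_a (hf : ∀ m : ℕ, 1 ≤ m → ∃ h : A[X], C c * derivative h - a * h = f ^ m)
    {N : ℕ} (hN : ∀ y ∈ If f ^ N, ∀ z ∈ JJ a ^ N, c ^ N * y * z = 0) (G : A[X]) :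
    Ev c a (fun m => C (c ^ N) * (G * f ^ m)) := by
  have hmono : ∀ q : ℕ, ∀ r : A, Ev c a (fun m => C (c ^ N) * (monomial q r * f ^ m)) := by
    intro q r
    obtain ⟨K, hK⟩ := HH_all c a f hf N (q + N * f.natDegree)
    refine ⟨N + K, fun m hm => ?_⟩
    obtain ⟨m', rfl⟩ : ∃ m', m = N + m' := ⟨m - N, by omega⟩
    have h1 : C (c ^ N) * (monomial q r * f ^ (N + m')) =
        C r * (C (c ^ N) * borel (X ^ q *
          scale (fun w => ((w + q).factorial : ℚ)) (f ^ (N + m')))) := by
      rw [← X_pow_mul_eq_borel, ← C_mul_X_pow_eq_monomial]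
      ring
    show C (c ^ N) * (monomial q r * f ^ (N + m')) ∈ II c a
    rw [h1]
    refine C_mul_mem r ?_
    have h2 : scale (fun w => ((w + q).factorial : ℚ)) (f ^ (N + m')) ∈ SS f ^ (N + m') :=
      scale_mem f _ _ _ (pow_mem_SS f _)
    rw [pow_add] at h2
    refine Submodule.mul_induction_on h2 ?_ ?_
    · intro P hP S hS
      have hdeg := SS_pow_natDegree f N P hP
      have hsum : C (c ^ N) * borel (X ^ q * (P * S)) =
          ∑ w ∈ Finset.range (N * f.natDegree + 1),
            C (P.coeff w * c ^ N) * borel (X ^ (q + w) * S) := by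
        conv_lhs => rw [P.as_sum_range' (N * f.natDegree + 1) (by omega)]
        rw [Finset.sum_mul, Finset.mul_sum, map_sum, Finset.mul_sum]
        refine Finset.sum_congr rfl (fun w _ => ?_)
        rw [← C_mul_X_pow_eq_monomial]
        rw [show X ^ q * (C (P.coeff w) * X ^ w * S) = C (P.coeff w) * (X ^ (q + w) * S) by
          rw [pow_add]; ring]
        rw [borel_C_mul, C_mul]
        ring
      rw [hsum]
      refine Submodule.sum_mem _ (fun w hw => ?_)
      have hw' := Finset.mem_range.1 hw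
      refine hK _ (by omega) m' (by omega) _ ?_ S hS
      intro z hz
      rw [mul_comm (P.coeff w)]
      exact hN _ (SS_pow_coeff f N P hP w) z hz
    · intro x y hx hy
      rw [mul_add, map_add, mul_add]
      exact Submodule.add_mem _ hx hy
  have h := Ev.sum (c := c) (a := a) (Finset.range (G.natDegree + 1))
    (F := fun q m => C (c ^ N) * (monomial q (G.coeff q) * f ^ m)) (fun q _ => hmono q _)
  refine h.congr (fun m => ?_)
  conv_rhs => rw [G.as_sum_range]
  rw [Finset.sum_mul, Finset.mul_sum]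

/-- Claim 4c. -/
theorem claim_c (hf : ∀ m : ℕ, 1 ≤ m → ∃ h : A[X], C c * derivative h - a * h = f ^ m)
    {N : ℕ} (hN : ∀ y ∈ If f ^ N, ∀ z ∈ JJ a ^ N, c ^ N * y * z = 0) (t : ℕ) :
    ∀ r e : ℕ, r + t = N → 2 * t ≤ e → ∀ G : A[X],
      Ev c a (fun m => C (c ^ r) * (a ^ e * (G * f ^ m))) := by
  induction t with
  | zero =>
    intro r e hr _ G
    rw [add_zero] at hr
    subst hr
    refine (claim_a hf hN (a ^ e * G)).congr (fun m => ?_)
    ring
  | succ t ih =>
    intro r e hr he G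
    obtain ⟨e', rfl⟩ : ∃ e', e = e' + 2 := ⟨e - 2, by omega⟩
    obtain ⟨K1, h1⟩ := ih (r + 1) e' (by omega) (by omega)
      (C ((e' + 1 : ℕ) : A) * derivative a * G + a * derivative G)
    obtain ⟨K2, h2⟩ := ih (r + 1) e' (by omega) (by omega) (a * G * derivative f)
    refine ⟨max K1 K2 + 1, fun m hm => ?_⟩
    have hx1 := le_max_left K1 K2
    have hx2 := le_max_right K1 K2
    have hm1 : K1 ≤ m := by omega
    obtain ⟨m', rfl⟩ : ∃ m', m = m' + 1 := ⟨m - 1, by omega⟩
    have hm2 : K2 ≤ m' := by omega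
    have h3 := h1 (m' + 1) hm1
    have h4 := C_mul_mem ((m' + 1 : ℕ) : A) (h2 m' hm2)
    have h5 := Submodule.neg_mem _ (DD_mem c a (C (c ^ r) * (a ^ (e' + 1) * (G * f ^ (m' + 1)))))
    have h6 : C (c ^ r) * (a ^ (e' + 2) * (G * f ^ (m' + 1))) =
        -(C c * derivative (C (c ^ r) * (a ^ (e' + 1) * (G * f ^ (m' + 1)))) -
          a * (C (c ^ r) * (a ^ (e' + 1) * (G * f ^ (m' + 1))))) +
        (C (c ^ (r + 1)) * (a ^ e' *
          ((C ((e' + 1 : ℕ) : A) * derivative a * G + a * derivative G) * f ^ (m' + 1))) +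
        C ((m' + 1 : ℕ) : A) * (C (c ^ (r + 1)) * (a ^ e' * (a * G * derivative f * f ^ m')))) := by
      rw [derivative_C_mul, derivative_mul, derivative_mul, derivative_pow_succ,
        derivative_pow_succ, pow_succ c, C_mul]
      push_cast
      ring
    simp only
    rw [h6]
    exact Submodule.add_mem _ h5 (Submodule.add_mem _ h3 h4)

/-- The theorem in terms of the image. -/
theorem final (hf : ∀ m : ℕ, 1 ≤ m → ∃ h : A[X], C c * derivative h - a * h = f ^ m)
    (g : A[X]) : Ev c a (fun m => g * f ^ m) := by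
  obtain ⟨N, hN⟩ := exists_nil_pow c a f hf
  obtain ⟨h1, e1⟩ := hf 1 le_rfl
  rw [pow_one] at e1
  have key : Ev c a (fun m => g * f ^ m * f ^ (3 * N)) := by
    have hterm : ∀ s ∈ Finset.range (3 * N + 1), Ev c a (fun m =>
        g * f ^ m * ((C c * derivative h1) ^ s * (-(a * h1)) ^ (3 * N - s) *
          ((3 * N).choose s : A[X]))) := by
      intro s hs
      have hs' := Finset.mem_range.1 hs
      by_cases hsN : N ≤ s
      · obtain ⟨s', rfl⟩ : ∃ s', s = N + s' := ⟨s - N, by omega⟩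
        refine (claim_a hf hN (C (c ^ s') * derivative h1 ^ (N + s') *
          (-(a * h1)) ^ (3 * N - (N + s')) * ((3 * N).choose (N + s') : A[X]) * g)).congr
            (fun m => ?_)
        rw [mul_pow (C c), ← C_pow, pow_add c, C_mul]
        ring
      · refine (claim_c hf hN N 0 (3 * N - s) (by omega) (by omega)
          ((C c * derivative h1) ^ s * (-h1) ^ (3 * N - s) *
            ((3 * N).choose s : A[X]) * g)).congr (fun m => ?_)
        rw [show -(a * h1) = a * (-h1) by ring, mul_pow a]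
        simp only [pow_zero, C_1, one_mul]
        ring
    refine (Ev.sum _ hterm).congr (fun m => ?_)
    rw [← Finset.mul_sum]
    congr 1
    rw [← add_pow, ← sub_eq_add_neg, e1]
  obtain ⟨K, hK⟩ := key
  refine ⟨K + 3 * N, fun m hm => ?_⟩
  obtain ⟨m', rfl⟩ : ∃ m', m = m' + 3 * N := ⟨m - 3 * N, by omega⟩
  have := hK m' (by omega)
  simp only at this ⊢
  rw [pow_add, ← mul_assoc]
  exact this

/-- The theorem. -/
theorem main_theorem (c : A) (a f g : A[X])
    (hf : ∀ m : ℕ, 1 ≤ m → ∃ h : A[X], C c * derivative h - a * h = f ^ m) :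
    ∃ N : ℕ, ∀ m : ℕ, N ≤ m → ∃ h : A[X], C c * derivative h - a * h = g * f ^ m := by
  obtain ⟨K, hK⟩ := final hf g
  refine ⟨K, fun m hm => ?_⟩
  obtain ⟨h, e⟩ := hK m hm
  exact ⟨h, by rw [← DD_apply]; exact e⟩

end Ev

end Pool.Agent.H569R3.Img
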