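import Mathlib

set_option autoImplicit false

namespace H569R3.Shelf

/-- the six element spindle -/
abbrev X : Type := Fin 6

def fp : X → X := ![0, 2, 0, 0, 4, 5]
def fq : X → X := ![0, 3, 0, 0, 4, 5]

def op (x y : X) : X := if y = 4 then fp x else if y = 5 then fq x else y

lemma op_shelf : ∀ a b c : X, op (op a b) c = op (op a c) (op b c) := by decide

lemma op_idem : ∀ a : X, op a a = a := by decide

abbrev T (m : ℕ) : Type := (Fin m → X) →₀ ℚ

noncomputable def e {m : ℕ} (c : Fin m → X) : T m := Finsupp.single c 1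

def face {m : ℕ} (k : Fin (m + 1)) (c : Fin (m + 1) → X) : Fin m → X :=
  fun j => if Fin.castSucc j < k then op (c (k.succAbove j)) (c k) else c (k.succAbove j)

def tcons {m : ℕ} (x : X) (c : Fin m → X) : Fin (m + 1) → X := Fin.cons x c

@[simp] lemma tcons_zero {m : ℕ} (x : X) (c : Fin m → X) : tcons x c 0 = x := rfl
@[simp] lemma tcons_succ {m : ℕ} (x : X) (c : Fin m → X) (k : Fin m) :
    tcons x c k.succ = c k := rfl

lemma exists_tcons {m : ℕ} (c : Fin (m + 1) → X) : ∃ x c', c = tcons x c' :=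
  ⟨c 0, Fin.tail c, (Fin.cons_self_tail c).symm⟩

lemma face_zero {m : ℕ} (x : X) (c : Fin m → X) : face 0 (tcons x c) = c := by
  funext j
  simp [face]

lemma face_succ {m : ℕ} (x : X) (c : Fin (m + 1) → X) (k : Fin (m + 1)) :
    face k.succ (tcons x c) = tcons (op x (c k)) (face k c) := by
  funext j
  refine Fin.cases ?_ (fun j => ?_) j
  · simp [face]
  · simp only [face, tcons_succ, Fin.succ_succAbove_succ, ← Fin.succ_castSucc,
      Fin.succ_lt_succ_iff]

noncomputable def D (m : ℕ) : T (m + 1) →ₗ[ℚ] T m :=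
  ∑ k : Fin (m + 1), ((-1 : ℚ) ^ (k : ℕ)) • Finsupp.lmapDomain ℚ ℚ (face k)

lemma D_e {m : ℕ} (c : Fin (m + 1) → X) :
    D m (e c) = ∑ k : Fin (m + 1), ((-1 : ℚ) ^ (k : ℕ)) • e (face k c) := by
  simp only [D, LinearMap.sum_apply, LinearMap.smul_apply, e, Finsupp.lmapDomain_apply,
    Finsupp.mapDomain_single]

noncomputable def consL {m : ℕ} (x : X) : T m →ₗ[ℚ] T (m + 1) :=
  Finsupp.lmapDomain ℚ ℚ (tcons x)

@[simp] lemma consL_e {m : ℕ} (x : X) (c : Fin m → X) : consL x (e c) = e (tcons x c) := by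
  simp only [consL, e, Finsupp.lmapDomain_apply, Finsupp.mapDomain_single]

lemma T_ind {m : ℕ} {p : T m → Prop} (z : T m) (h0 : p 0)
    (hadd : ∀ f g, p f → p g → p (f + g)) (hs : ∀ (r : ℚ) c, p (r • e c)) : p z := by
  refine Finsupp.induction_linear z h0 hadd ?_
  intro c r
  have := hs r c
  rwa [e, Finsupp.smul_single, smul_eq_mul, mul_one] at this

lemma T_ext {m : ℕ} {M : Type*} [AddCommGroup M] [Module ℚ M] {f g : T m →ₗ[ℚ] M}
    (h : ∀ c, f (e c) = g (e c)) : f = g := by
  apply LinearMap.ext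
  intro z
  refine T_ind (p := fun z => f z = g z) z (by simp) ?_ ?_
  · intro a b ha hb; rw [map_add, map_add, ha, hb]
  · intro r c; rw [map_smul, map_smul, h]

lemma D_cons {m : ℕ} (x : X) (c : Fin (m + 1) → X) :
    D (m + 1) (e (tcons x c)) =
      e c - ∑ k : Fin (m + 1), ((-1 : ℚ) ^ (k : ℕ)) • e (tcons (op x (c k)) (face k c)) := by
  rw [D_e, Fin.sum_univ_succ]
  simp only [face_zero, face_succ, Fin.val_zero, pow_zero, one_smul, Fin.val_succ, pow_succ,
    mul_neg, mul_one, neg_smul, Finset.sum_neg_distrib]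
  rw [sub_eq_add_neg]

/-! Drop the first letter -/

noncomputable def pi (m : ℕ) : T (m + 1) →ₗ[ℚ] T m :=
  Finsupp.lmapDomain ℚ ℚ (face (m := m) 0)

@[simp] lemma pi_e {m : ℕ} (x : X) (c : Fin m → X) : pi m (e (tcons x c)) = e c := by
  simp only [pi, e, Finsupp.lmapDomain_apply, Finsupp.mapDomain_single, face_zero]

lemma pi_consL {m : ℕ} (x : X) (z : T m) : pi m (consL x z) = z := by
  have : pi m ∘ₗ consL x = LinearMap.id := T_ext (by intro c; simp)
  exact LinearMap.congr_fun this z

noncomputable def B (m : ℕ) : T (m + 1) →ₗ[ℚ] T m := pi m - D m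

lemma pi_D (m : ℕ) (z : T (m + 2)) : pi m (D (m + 1) z) = B m (pi (m + 1) z) := by
  have : pi m ∘ₗ D (m + 1) = B m ∘ₗ pi (m + 1) := by
    apply T_ext
    intro c
    obtain ⟨x, c, rfl⟩ := exists_tcons c
    rw [LinearMap.comp_apply, LinearMap.comp_apply, D_cons, pi_e, map_sub, map_sum]
    simp only [map_smul, pi_e]
    rw [B, LinearMap.sub_apply, D_e]
  exact LinearMap.congr_fun this z

lemma B_cons {m : ℕ} (x : X) (c : Fin (m + 1) → X) :
    B (m + 1) (e (tcons x c)) =
      ∑ k : Fin (m + 1), ((-1 : ℚ) ^ (k : ℕ)) • e (tcons (op x (c k)) (face k c)) := by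
  simp only [B, LinearMap.sub_apply, pi_e, D_cons]
  abel

/-! Right multiplication and `D ∘ D = 0` -/

noncomputable def Rr (m : ℕ) (y : X) : T m →ₗ[ℚ] T m :=
  Finsupp.lmapDomain ℚ ℚ (fun c j => op (c j) y)

@[simp] lemma Rr_e {m : ℕ} (y : X) (c : Fin m → X) : Rr m y (e c) = e (fun j => op (c j) y) := by
  simp only [Rr, e, Finsupp.lmapDomain_apply, Finsupp.mapDomain_single]

def tsnoc {m : ℕ} (c : Fin m → X) (x : X) : Fin (m + 1) → X := Fin.snoc (α := fun _ => X) c x

lemma exists_tsnoc {m : ℕ} (c : Fin (m + 1) → X) : ∃ c' x, c = tsnoc c' x :=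
  ⟨Fin.init c, c (Fin.last m), (Fin.snoc_init_self c).symm⟩

@[simp] lemma tsnoc_last {m : ℕ} (c : Fin m → X) (x : X) : tsnoc c x (Fin.last m) = x := by
  simp [tsnoc]
@[simp] lemma tsnoc_castSucc {m : ℕ} (c : Fin m → X) (x : X) (k : Fin m) :
    tsnoc c x k.castSucc = c k := by
  simp [tsnoc]

lemma face_last {m : ℕ} (c : Fin m → X) (x : X) :
    face (Fin.last m) (tsnoc c x) = fun j => op (c j) x := by
  funext j
  simp [face, Fin.castSucc_lt_last]

lemma face_castSucc {m : ℕ} (c : Fin (m + 1) → X) (x : X) (k : Fin (m + 1)) :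
    face k.castSucc (tsnoc c x) = tsnoc (face k c) x := by
  funext j
  refine Fin.lastCases ?_ (fun j => ?_) j
  · have h1 : ¬ ((Fin.last m).castSucc : Fin (m + 2)) < k.castSucc := by
      rw [Fin.castSucc_lt_castSucc_iff, not_lt]
      exact Fin.le_last k
    have h2 : (k.castSucc : Fin (m + 2)).succAbove (Fin.last m) = Fin.last (m + 1) := by
      rw [Fin.succAbove_of_le_castSucc _ _ (not_lt.1 h1), Fin.succ_last]
    simp only [face, h1, if_false, h2, tsnoc_last]
  · have h2 : (k.castSucc : Fin (m + 2)).succAbove j.castSucc = (k.succAbove j).castSucc := by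
      rw [Fin.castSucc_succAbove_castSucc]
    simp only [face, h2, tsnoc_castSucc, Fin.castSucc_lt_castSucc_iff]

noncomputable def snocL {m : ℕ} (x : X) : T m →ₗ[ℚ] T (m + 1) :=
  Finsupp.lmapDomain ℚ ℚ (fun c => tsnoc c x)

@[simp] lemma snocL_e {m : ℕ} (x : X) (c : Fin m → X) : snocL x (e c) = e (tsnoc c x) := by
  simp only [snocL, e, Finsupp.lmapDomain_apply, Finsupp.mapDomain_single]

lemma D_snoc {m : ℕ} (x : X) (z : T (m + 1)) :
    D (m + 1) (snocL x z) = snocL x (D m z) + ((-1 : ℚ) ^ (m + 1)) • Rr (m + 1) x z := by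
  have : D (m + 1) ∘ₗ snocL x = snocL x ∘ₗ D m + ((-1 : ℚ) ^ (m + 1)) • Rr (m + 1) x := by
    apply T_ext
    intro c
    simp only [LinearMap.comp_apply, LinearMap.add_apply, LinearMap.smul_apply, snocL_e, D_e,
      Rr_e, map_sum, map_smul]
    rw [Fin.sum_univ_castSucc]
    simp only [face_last, face_castSucc, Fin.val_castSucc, Fin.val_last]
  exact LinearMap.congr_fun this z

lemma face_Rr {m : ℕ} (k : Fin (m + 1)) (c : Fin (m + 1) → X) (y : X) :
    face k (fun j => op (c j) y) = fun j => op (face k c j) y := by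
  funext j
  simp only [face]
  split_ifs with h
  · rw [op_shelf (c (k.succAbove j)) (c k) y]
  · rfl

lemma D_Rr {m : ℕ} (y : X) (z : T (m + 1)) : D m (Rr (m + 1) y z) = Rr m y (D m z) := by
  have : D m ∘ₗ Rr (m + 1) y = Rr m y ∘ₗ D m := by
    apply T_ext
    intro c
    simp only [LinearMap.comp_apply, Rr_e, D_e, map_sum, map_smul, face_Rr]
  exact LinearMap.congr_fun this z

theorem D_D : ∀ (m : ℕ) (z : T (m + 2)), D m (D (m + 1) z) = 0 := by
  intro m
  induction m with
  | zero =>
    intro z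
    have : D 0 ∘ₗ D 1 = 0 := by
      apply T_ext
      intro c
      obtain ⟨c, x, rfl⟩ := exists_tsnoc c
      have h := D_snoc x (e c)
      rw [snocL_e] at h
      rw [LinearMap.comp_apply, h, map_add, map_smul, D_Rr]
      obtain ⟨c, y, rfl⟩ := exists_tsnoc c
      have h0 : ∀ w : T 0, D 0 (snocL x w) = w := by
        intro w
        have : D 0 ∘ₗ snocL x = LinearMap.id := by
          apply T_ext
          intro c
          rw [LinearMap.comp_apply, snocL_e, D_e, Fin.sum_univ_succ, Fin.sum_univ_zero, add_zero,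
            Fin.val_zero, pow_zero, one_smul]
          exact congrArg e (Subsingleton.elim _ _)
        exact LinearMap.congr_fun this w
      have h1 : ∀ w : T 0, Rr 0 x w = w := by
        intro w
        have : Rr 0 x = LinearMap.id := by
          apply T_ext
          intro c
          rw [Rr_e]
          exact congrArg e (Subsingleton.elim _ _)
        exact LinearMap.congr_fun this w
      rw [h0, h1]
      simp
    exact LinearMap.congr_fun this z
  | succ m ih =>
    intro z
    have : D (m + 1) ∘ₗ D (m + 2) = 0 := by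
      apply T_ext
      intro c
      obtain ⟨c, x, rfl⟩ := exists_tsnoc c
      have h := D_snoc x (e c)
      rw [snocL_e] at h
      rw [LinearMap.comp_apply, h, map_add, map_smul, D_Rr, D_snoc, ih (e c), map_zero, zero_add,
        LinearMap.zero_apply, ← add_smul]
      have hz : ((-1 : ℚ) ^ (m + 1) + (-1) ^ (m + 1 + 1)) = 0 := by ring
      rw [hz, zero_smul]
    exact LinearMap.congr_fun this z

theorem B_B (m : ℕ) (z : T (m + 2)) : B m (B (m + 1) z) = 0 := by
  have h1 : B m (B (m + 1) z) = B m (pi (m + 1) z) - B m (D (m + 1) z) := by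
    rw [← map_sub]; rfl
  have h2 : B m (D (m + 1) z) = pi m (D (m + 1) z) - D m (D (m + 1) z) := rfl
  rw [h1, h2, pi_D, D_D, sub_zero, sub_self]

/-! doubling the first letter -/

noncomputable def dbl (m : ℕ) : T (m + 1) →ₗ[ℚ] T (m + 2) :=
  Finsupp.lmapDomain ℚ ℚ (fun c => tcons (c 0) c)

@[simp] lemma dbl_e {m : ℕ} (x : X) (c : Fin m → X) :
    dbl m (e (tcons x c)) = e (tcons x (tcons x c)) := by
  simp only [dbl, e, Finsupp.lmapDomain_apply, Finsupp.mapDomain_single, tcons_zero]

theorem B_dbl (m : ℕ) (z : T (m + 2)) :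
    B (m + 2) (dbl (m + 1) z) + dbl m (B (m + 1) z) = z := by
  have : B (m + 2) ∘ₗ dbl (m + 1) + dbl m ∘ₗ B (m + 1) = LinearMap.id := by
    apply T_ext
    intro c
    obtain ⟨x, c, rfl⟩ := exists_tcons c
    simp only [LinearMap.add_apply, LinearMap.comp_apply, dbl_e, B_cons, map_sum, map_smul,
      LinearMap.id_apply]
    rw [Fin.sum_univ_succ]
    simp only [tcons_zero, tcons_succ, face_zero, face_succ, Fin.val_zero, pow_zero, one_smul,
      Fin.val_succ, pow_succ, mul_neg, mul_one, neg_smul, Finset.sum_neg_distrib, op_idem]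
    abel
  exact LinearMap.congr_fun this z

end H569R3.Shelf
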