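import Pool.Agent.H569R3.Shelf1

set_option autoImplicit false

namespace H569R3.Shelf

lemma e_fun_if {m : ℕ} (p : Prop) [Decidable p] (a b : T m) {M : Type*} [AddCommGroup M]
    [Module ℚ M] (f : T m →ₗ[ℚ] M) : f (if p then a else b) = if p then f a else f b := by
  split_ifs <;> rfl

/-- remove the letter `r` -/
noncomputable def del (r : X) (m : ℕ) : T (m + 1) →ₗ[ℚ] T m :=
  Finsupp.linearCombination ℚ (fun c : Fin (m + 1) → X =>
    ∑ k : Fin (m + 1), if c k = r then ((-1 : ℚ) ^ (k : ℕ)) • e (face k c) else 0)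

lemma del_e (r : X) {m : ℕ} (c : Fin (m + 1) → X) :
    del r m (e c) =
      ∑ k : Fin (m + 1), if c k = r then ((-1 : ℚ) ^ (k : ℕ)) • e (face k c) else 0 := by
  rw [del, e, Finsupp.linearCombination_single, one_smul]

lemma del_consL (r x : X) {m : ℕ} (z : T (m + 1)) :
    del r (m + 1) (consL x z) = (if x = r then z else 0) - consL (op x r) (del r m z) := by
  have : del r (m + 1) ∘ₗ consL x =
      (if x = r then (LinearMap.id : T (m + 1) →ₗ[ℚ] T (m + 1)) else 0) -
        consL (op x r) ∘ₗ del r m := by
    apply T_ext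
    intro c
    rw [LinearMap.comp_apply, consL_e, del_e, Fin.sum_univ_succ, LinearMap.sub_apply,
      LinearMap.comp_apply, del_e, map_sum]
    simp only [tcons_zero, tcons_succ, face_zero, face_succ, Fin.val_zero, pow_zero, one_smul]
    have h1 : ∀ k : Fin (m + 1),
        (if c k = r then (-1 : ℚ) ^ (k.succ : ℕ) • e (tcons (op x (c k)) (face k c)) else 0) =
        - consL (op x r) (if c k = r then ((-1 : ℚ) ^ (k : ℕ)) • e (face k c) else 0) := by
      intro k
      split_ifs with h
      · rw [map_smul, consL_e, h, Fin.val_succ, pow_succ, mul_neg, mul_one, neg_smul]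
      · rw [map_zero, neg_zero]
    rw [Finset.sum_congr rfl (fun k _ => h1 k), Finset.sum_neg_distrib, ← sub_eq_add_neg]
    congr 1
    split_ifs <;> rfl
  have h2 := LinearMap.congr_fun this z
  rw [LinearMap.comp_apply, LinearMap.sub_apply, LinearMap.comp_apply] at h2
  rw [h2]
  congr 1
  split_ifs <;> rfl

lemma del_consL0 (r x : X) (z : T 0) :
    del r 0 (consL x z) = (if x = r then z else 0) := by
  have : del r 0 ∘ₗ consL x =
      (if x = r then (LinearMap.id : T 0 →ₗ[ℚ] T 0) else 0) := by
    apply T_ext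
    intro c
    rw [LinearMap.comp_apply, consL_e, del_e, Fin.sum_univ_succ, Fin.sum_univ_zero, add_zero]
    simp only [tcons_zero, face_zero, Fin.val_zero, pow_zero, one_smul]
    split_ifs <;> rfl
  have h2 := LinearMap.congr_fun this z
  rw [LinearMap.comp_apply] at h2
  rw [h2]
  split_ifs <;> rfl

lemma consL_ind {m : ℕ} {M : Type*} [AddCommGroup M] [Module ℚ M] {f g : T (m + 1) →ₗ[ℚ] M}
    (h : ∀ x z, f (consL x z) = g (consL x z)) : f = g := by
  apply T_ext
  intro c
  obtain ⟨x, c, rfl⟩ := exists_tcons c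
  rw [← consL_e]
  exact h x _

/-- anticommutation -/
lemma del_del (r s : X) (h1 : ∀ x, op x s = r ↔ x = r) (h2 : ∀ x, op x r = s ↔ x = s)
    (h3 : ∀ x, op (op x s) r = op (op x r) s) :
    ∀ (m : ℕ) (z : T (m + 2)), del r m (del s (m + 1) z) + del s m (del r (m + 1) z) = 0 := by
  intro m
  induction m with
  | zero =>
    intro z
    have : del r 0 ∘ₗ del s 1 + del s 0 ∘ₗ del r 1 = 0 := by
      apply consL_ind
      intro x z
      have h4 : (del r 0 ∘ₗ del s 1 + del s 0 ∘ₗ del r 1) ∘ₗ consL x = 0 := by
        apply consL_ind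
        intro y z
        simp only [LinearMap.comp_apply, LinearMap.add_apply, LinearMap.zero_apply,
          del_consL, map_sub, e_fun_if, map_zero, del_consL0, h1, h2]
        split_ifs <;> simp_all
      have := LinearMap.congr_fun h4 z
      rw [LinearMap.comp_apply] at this
      rw [this]; simp
    exact LinearMap.congr_fun this z
  | succ m ih =>
    intro z
    have : del r (m + 1) ∘ₗ del s (m + 2) + del s (m + 1) ∘ₗ del r (m + 2) = 0 := by
      apply consL_ind
      intro x z
      have h5 := ih z
      have h6 : consL (op (op x r) s) (del r m (del s (m + 1) z)) +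
          consL (op (op x r) s) (del s m (del r (m + 1) z)) = 0 := by
        rw [← map_add, h5, map_zero]
      simp only [LinearMap.comp_apply, LinearMap.add_apply, LinearMap.zero_apply,
        del_consL, map_sub, e_fun_if, map_zero, h1, h2, h3]
      rw [← h6]
      abel
    exact LinearMap.congr_fun this z

lemma del44 (m : ℕ) (z : T (m + 2)) : del 4 m (del 4 (m + 1) z) = 0 := by
  have h := del_del 4 4 (by decide) (by decide) (by decide) m z
  have h2 : (2 : ℚ) • del 4 m (del 4 (m + 1) z) = 0 := by rw [two_smul]; exact h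
  exact (smul_eq_zero.1 h2).resolve_left (by norm_num)

lemma del55 (m : ℕ) (z : T (m + 2)) : del 5 m (del 5 (m + 1) z) = 0 := by
  have h := del_del 5 5 (by decide) (by decide) (by decide) m z
  have h2 : (2 : ℚ) • del 5 m (del 5 (m + 1) z) = 0 := by rw [two_smul]; exact h
  exact (smul_eq_zero.1 h2).resolve_left (by norm_num)

lemma del45 (m : ℕ) (z : T (m + 2)) :
    del 4 m (del 5 (m + 1) z) + del 5 m (del 4 (m + 1) z) = 0 :=
  del_del 4 5 (by decide) (by decide) (by decide) m z

noncomputable def dd (m : ℕ) : T (m + 1) →ₗ[ℚ] T m := del 4 m + del 5 m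

lemma dd_dd (m : ℕ) (z : T (m + 2)) : dd m (dd (m + 1) z) = 0 := by
  simp only [dd, LinearMap.add_apply, map_add]
  rw [del44, del55, zero_add, add_zero]
  rw [add_comm]
  exact del45 m z

lemma op44 : op 4 4 = 4 := by decide
lemma op45 : op 4 5 = 4 := by decide
lemma op54 : op 5 4 = 5 := by decide
lemma op55 : op 5 5 = 5 := by decide

lemma hom4 (m : ℕ) (z : T (m + 1)) : del 4 (m + 1) (consL 4 z) + consL 4 (del 4 m z) = z := by
  rw [del_consL, if_pos rfl, op44]; abel

lemma hom5 (m : ℕ) (z : T (m + 1)) : del 5 (m + 1) (consL 5 z) + consL 5 (del 5 m z) = z := by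
  rw [del_consL, if_pos rfl, op55]; abel

lemma cross (m : ℕ) (z : T (m + 1)) : del 4 (m + 1) (consL 5 z) = - consL 5 (del 4 m z) := by
  rw [del_consL, if_neg (by decide), op54, zero_sub]

lemma homd (m : ℕ) (z : T (m + 1)) : dd (m + 1) (consL 4 z) + consL 4 (dd m z) = z := by
  simp only [dd, LinearMap.add_apply]
  rw [del_consL, del_consL, if_pos rfl, if_neg (by decide), op44, op45, map_add]; abel

/-- extract the part with first letter `x` -/
noncomputable def hd (x : X) (m : ℕ) : T (m + 1) →ₗ[ℚ] T m :=
  Finsupp.linearCombination ℚ (fun c : Fin (m + 1) → X =>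
    if c 0 = x then e (face 0 c) else 0)

lemma hd_consL (x y : X) {m : ℕ} (z : T m) :
    hd x m (consL y z) = if y = x then z else 0 := by
  have : hd x m ∘ₗ consL y = (if y = x then (LinearMap.id : T m →ₗ[ℚ] T m) else 0) := by
    apply T_ext
    intro c
    rw [LinearMap.comp_apply, consL_e, hd, e, Finsupp.linearCombination_single, one_smul]
    rw [tcons_zero, face_zero]
    split_ifs <;> rfl
  have h2 := LinearMap.congr_fun this z
  rw [LinearMap.comp_apply] at h2
  rw [h2]
  split_ifs <;> rfl

lemma sum_hd {m : ℕ} (z : T (m + 1)) : ∑ x : X, consL x (hd x m z) = z := by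
  have : ∑ x : X, (consL x ∘ₗ hd x m) = LinearMap.id := by
    apply consL_ind
    intro y w
    simp only [LinearMap.sum_apply, LinearMap.comp_apply, hd_consL, e_fun_if, map_zero,
      LinearMap.id_apply]
    rw [Finset.sum_ite_eq]
    simp
  have h := LinearMap.congr_fun this z
  simpa only [LinearMap.sum_apply, LinearMap.comp_apply, LinearMap.id_apply] using h

lemma pi_hd {m : ℕ} (z : T (m + 1)) : pi m z = ∑ x : X, hd x m z := by
  conv_lhs => rw [← sum_hd z]
  rw [map_sum]
  simp only [pi_consL]

lemma F1 {m : ℕ} (x : X) (z : T (m + 1)) :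
    D (m + 1) (consL x z) - D (m + 1) (consL 0 z) =
      - ((consL (op x 4) (del 4 m z) - consL 0 (del 4 m z)) +
        (consL (op x 5) (del 5 m z) - consL 0 (del 5 m z))) := by
  have : D (m + 1) ∘ₗ consL x - D (m + 1) ∘ₗ consL 0 =
      - ((consL (op x 4) ∘ₗ del 4 m - consL 0 ∘ₗ del 4 m) +
        (consL (op x 5) ∘ₗ del 5 m - consL 0 ∘ₗ del 5 m)) := by
    apply T_ext
    intro c
    simp only [LinearMap.comp_apply, LinearMap.sub_apply, LinearMap.neg_apply,
      LinearMap.add_apply, consL_e, D_cons, del_e, map_sum]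
    rw [sub_sub_sub_cancel_left, ← Finset.sum_sub_distrib, ← Finset.sum_sub_distrib,
      ← Finset.sum_sub_distrib, ← Finset.sum_add_distrib, ← Finset.sum_neg_distrib]
    refine Finset.sum_congr rfl (fun k _ => ?_)
    have h0 : op 0 4 = 0 := by decide
    have h0' : op 0 5 = 0 := by decide
    have h45 : ¬ ((4 : X) = 5) := by decide
    have h54 : ¬ ((5 : X) = 4) := by decide
    by_cases h4 : c k = 4
    · simp only [h4, h45, if_true, if_false, map_zero, map_smul, consL_e, h0, sub_zero, add_zero]
      abel
    · by_cases h5 : c k = 5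
      · simp only [h5, h54, if_true, if_false, map_zero, map_smul, consL_e, h0', sub_zero,
          zero_add]
        abel
      · simp only [h4, h5, if_false, map_zero, op]
        abel
  exact LinearMap.congr_fun this z

end H569R3.Shelf
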