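import Pool.Agent.H569R3.Shelf2

set_option autoImplicit false

namespace H569R3.Shelf

open Module

noncomputable instance instFinT (m : ℕ) : Module.Finite ℚ (T m) :=
  Module.Finite.finsupp

lemma finrank_T (m : ℕ) : finrank ℚ (T m) = 6 ^ m := by
  rw [Module.finrank_finsupp_self]
  simp

section gen
variable {V W U : Type*} [AddCommGroup V] [Module ℚ V] [AddCommGroup W] [Module ℚ W]
  [AddCommGroup U] [Module ℚ U]

lemma genR [FiniteDimensional ℚ V] (L : V →ₗ[ℚ] W) (P : Submodule ℚ V) :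
    finrank ℚ (P.map L) + finrank ℚ (P ⊓ LinearMap.ker L : Submodule ℚ V) = finrank ℚ P := by
  have h := LinearMap.finrank_range_add_finrank_ker (L.domRestrict P)
  rw [LinearMap.range_domRestrict] at h
  have h2 : finrank ℚ (LinearMap.ker (L.domRestrict P)) =
      finrank ℚ (P ⊓ LinearMap.ker L : Submodule ℚ V) := by
    have h3 : (LinearMap.ker (L.domRestrict P)).map P.subtype = P ⊓ LinearMap.ker L := by
      ext x
      simp only [Submodule.mem_map, LinearMap.mem_ker, Submodule.mem_inf]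
      constructor
      · rintro ⟨y, hy, rfl⟩
        exact ⟨y.2, hy⟩
      · rintro ⟨hx, hx2⟩
        exact ⟨⟨x, hx⟩, hx2, rfl⟩
    rw [← h3]
    exact (LinearEquiv.finrank_eq
      (Submodule.equivMapOfInjective P.subtype P.subtype_injective
        (LinearMap.ker (L.domRestrict P))))
  rw [← h2]
  exact h

lemma genE [FiniteDimensional ℚ V] (L : V →ₗ[ℚ] W) (M : W →ₗ[ℚ] U)
    (h1 : ∀ z, M (L z) = 0) (h2 : ∀ w, M w = 0 → ∃ z, L z = w) :
    finrank ℚ (LinearMap.ker M) + finrank ℚ (LinearMap.ker L) = finrank ℚ V := by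
  have h := LinearMap.finrank_range_add_finrank_ker L
  have h3 : LinearMap.range L = LinearMap.ker M := by
    ext w
    simp only [LinearMap.mem_range, LinearMap.mem_ker]
    constructor
    · rintro ⟨z, rfl⟩; exact h1 z
    · intro hw; exact h2 w hw
  rw [← h3]
  exact h

end gen

lemma rec_k (j : ℕ) : finrank ℚ (LinearMap.ker (dd j)) + finrank ℚ (LinearMap.ker (dd (j + 1))) =
    6 ^ (j + 2) := by
  rw [← finrank_T]
  refine genE (dd (j + 1)) (dd j) (dd_dd j) ?_
  intro w hw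
  refine ⟨consL 4 w, ?_⟩
  have h := homd j w
  rw [hw, map_zero, add_zero] at h
  exact h

lemma rec_k4 (j : ℕ) :
    finrank ℚ (LinearMap.ker (del 4 j)) + finrank ℚ (LinearMap.ker (del 4 (j + 1))) =
    6 ^ (j + 2) := by
  rw [← finrank_T]
  refine genE (del 4 (j + 1)) (del 4 j) (del44 j) ?_
  intro w hw
  refine ⟨consL 4 w, ?_⟩
  have h := hom4 j w
  rw [hw, map_zero, add_zero] at h
  exact h

lemma rec_b (j : ℕ) :
    finrank ℚ (LinearMap.ker (B (j + 1))) + finrank ℚ (LinearMap.ker (B (j + 2))) =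
    6 ^ (j + 3) := by
  rw [← finrank_T]
  refine genE (B (j + 2)) (B (j + 1)) (B_B (j + 1)) ?_
  intro w hw
  refine ⟨dbl (j + 1) w, ?_⟩
  have h := B_dbl j w
  rw [hw, map_zero, add_zero] at h
  exact h

/-- the common kernel -/
noncomputable def Q (j : ℕ) : Submodule ℚ (T (j + 1)) :=
  LinearMap.ker (del 4 j) ⊓ LinearMap.ker (del 5 j)

lemma rec_q (j : ℕ) :
    finrank ℚ (Q j) + finrank ℚ (Q (j + 1)) = finrank ℚ (LinearMap.ker (del 4 (j + 1))) := by
  have h := genR (del 5 (j + 1)) (LinearMap.ker (del 4 (j + 1)))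
  have h2 : (LinearMap.ker (del 4 (j + 1))).map (del 5 (j + 1)) = Q j := by
    ext w
    simp only [Submodule.mem_map, Q, Submodule.mem_inf, LinearMap.mem_ker]
    constructor
    · rintro ⟨z, hz, rfl⟩
      refine ⟨?_, del55 j z⟩
      have h3 := del45 j z
      rw [hz, map_zero, add_zero] at h3
      exact h3
    · rintro ⟨hw4, hw5⟩
      refine ⟨consL 5 w, ?_, ?_⟩
      · rw [cross, hw4, map_zero, neg_zero]
      · have h := hom5 j w
        rw [hw5, map_zero, add_zero] at h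
        exact h
  rw [h2] at h
  exact h

/-- the parametrization of `ker D ⊓ ker pi` -/
noncomputable def Psi (j : ℕ) :
    (Q j × T (j + 1) × T (j + 1) × LinearMap.ker (dd j) × LinearMap.ker (dd j)) →ₗ[ℚ]
      T (j + 2) :=
  ((consL 1 - consL 0) ∘ₗ (Q j).subtype).coprod
    ((consL 2 - consL 0).coprod ((consL 3 - consL 0).coprod
      (((consL 4 - consL 0) ∘ₗ (LinearMap.ker (dd j)).subtype).coprod
        ((consL 5 - consL 0) ∘ₗ (LinearMap.ker (dd j)).subtype))))

lemma Psi_apply (j : ℕ) (a : Q j) (b c : T (j + 1)) (d f : LinearMap.ker (dd j)) :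
    Psi j (a, b, c, d, f) = (consL 1 (a : T (j + 1)) - consL 0 (a : T (j + 1))) +
      ((consL 2 b - consL 0 b) + ((consL 3 c - consL 0 c) +
      ((consL 4 (d : T (j + 1)) - consL 0 (d : T (j + 1))) +
       (consL 5 (f : T (j + 1)) - consL 0 (f : T (j + 1)))))) := by
  simp only [Psi, LinearMap.coprod_apply, LinearMap.comp_apply, LinearMap.sub_apply,
    Submodule.subtype_apply]

lemma hd_sum (j : ℕ) (a b c d f : T (j + 1)) (x : X) :
    hd x (j + 1) ((consL 1 a - consL 0 a) + ((consL 2 b - consL 0 b) +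
      ((consL 3 c - consL 0 c) + ((consL 4 d - consL 0 d) + (consL 5 f - consL 0 f))))) =
    ![- a - b - c - d - f, a, b, c, d, f] x := by
  simp only [map_add, map_sub, hd_consL]
  fin_cases x
  · simp (decide := true); abel
  all_goals simp (decide := true)

lemma Psi_inj (j : ℕ) : Function.Injective (Psi j) := by
  rw [← LinearMap.ker_eq_bot, LinearMap.ker_eq_bot']
  rintro ⟨a, b, c, d, f⟩ h
  rw [Psi_apply] at h
  have h0 := fun x => hd_sum j (a : T (j + 1)) b c (d : T (j + 1)) (f : T (j + 1)) x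
  rw [h] at h0
  have h1 := h0 1
  have h2 := h0 2
  have h3 := h0 3
  have h4 := h0 4
  have h5 := h0 5
  rw [map_zero] at h1 h2 h3 h4 h5
  have e1 : a = 0 := Subtype.ext h1.symm
  have e2 : b = 0 := h2.symm
  have e3 : c = 0 := h3.symm
  have e4 : d = 0 := Subtype.ext h4.symm
  have e5 : f = 0 := Subtype.ext h5.symm
  rw [e1, e2, e3, e4, e5]; rfl

lemma D_sum (j : ℕ) (a b c d f : T (j + 1)) :
    D (j + 1) ((consL 1 a - consL 0 a) + ((consL 2 b - consL 0 b) +
      ((consL 3 c - consL 0 c) + ((consL 4 d - consL 0 d) + (consL 5 f - consL 0 f))))) =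
    (consL 1 (0 : T j) - consL 0 (0 : T j)) +
     ((consL 2 (- del 4 j a) - consL 0 (- del 4 j a)) +
      ((consL 3 (- del 5 j a) - consL 0 (- del 5 j a)) +
      ((consL 4 (- dd j d) - consL 0 (- dd j d)) +
       (consL 5 (- dd j f) - consL 0 (- dd j f))))) := by
  have o14 : op 1 4 = 2 := by decide
  have o15 : op 1 5 = 3 := by decide
  have o24 : op 2 4 = 0 := by decide
  have o25 : op 2 5 = 0 := by decide
  have o34 : op 3 4 = 0 := by decide
  have o35 : op 3 5 = 0 := by decide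
  rw [map_add, map_add, map_add, map_add, map_sub, map_sub, map_sub, map_sub, map_sub,
    F1, F1, F1, F1, F1, o14, o15, o24, o25, o34, o35, op44, op45, op54, op55]
  simp only [dd, LinearMap.add_apply, map_zero, map_neg, map_add]
  abel

lemma range_Psi (j : ℕ) :
    LinearMap.range (Psi (j + 1)) = LinearMap.ker (pi (j + 2)) ⊓ LinearMap.ker (D (j + 2)) := by
  ext z
  simp only [LinearMap.mem_range, Submodule.mem_inf, LinearMap.mem_ker]
  constructor
  · rintro ⟨⟨a, b, c, d, f⟩, rfl⟩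
    rw [Psi_apply]
    constructor
    · simp only [map_add, map_sub, pi_consL, sub_self, add_zero]
    · rw [D_sum]
      have ha := a.2
      simp only [Q, Submodule.mem_inf, LinearMap.mem_ker] at ha
      have hd := d.2
      have hf := f.2
      rw [LinearMap.mem_ker] at hd hf
      rw [ha.1, ha.2, hd, hf]
      simp
  · rintro ⟨h1, h2⟩
    have h3 : z = (consL 1 (hd 1 _ z) - consL 0 (hd 1 _ z)) +
        ((consL 2 (hd 2 _ z) - consL 0 (hd 2 _ z)) +
        ((consL 3 (hd 3 _ z) - consL 0 (hd 3 _ z)) +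
        ((consL 4 (hd 4 _ z) - consL 0 (hd 4 _ z)) +
        (consL 5 (hd 5 _ z) - consL 0 (hd 5 _ z))))) := by
      have h4 := sum_hd z
      rw [pi_hd, Fin.sum_univ_six] at h1
      rw [Fin.sum_univ_six] at h4
      have h5 : hd 0 (j + 2) z = - (hd 1 (j + 2) z + hd 2 (j + 2) z + hd 3 (j + 2) z +
          hd 4 (j + 2) z + hd 5 (j + 2) z) := by
        rw [eq_neg_iff_add_eq_zero, ← h1]; abel
      rw [h5] at h4
      conv_lhs => rw [← h4]
      simp only [map_neg, map_add]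
      abel
    have h6 := h2
    rw [h3, D_sum] at h6
    have h7 := hd_sum j (0 : T (j + 1)) (- del 4 (j + 1) (hd 1 _ z)) (- del 5 (j + 1) (hd 1 _ z))
      (- dd (j + 1) (hd 4 _ z)) (- dd (j + 1) (hd 5 _ z))
    rw [h6] at h7
    have g2 := h7 2
    have g3 := h7 3
    have g4 := h7 4
    have g5 := h7 5
    rw [map_zero] at g2 g3 g4 g5
    have k2 : del 4 (j + 1) (hd 1 _ z) = 0 := neg_eq_zero.1 g2.symm
    have k3 : del 5 (j + 1) (hd 1 _ z) = 0 := neg_eq_zero.1 g3.symm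
    have k4 : dd (j + 1) (hd 4 _ z) = 0 := neg_eq_zero.1 g4.symm
    have k5 : dd (j + 1) (hd 5 _ z) = 0 := neg_eq_zero.1 g5.symm
    refine ⟨(⟨hd 1 _ z, ⟨k2, k3⟩⟩, hd 2 _ z, hd 3 _ z, ⟨hd 4 _ z, k4⟩, ⟨hd 5 _ z, k5⟩), ?_⟩
    rw [Psi_apply]
    exact h3.symm

lemma map_pi (j : ℕ) :
    (LinearMap.ker (D (j + 2))).map (pi (j + 2)) = LinearMap.ker (B (j + 1)) := by
  ext w
  simp only [Submodule.mem_map, LinearMap.mem_ker]
  constructor
  · rintro ⟨z, hz, rfl⟩
    rw [← pi_D, hz, map_zero]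
  · intro hw
    refine ⟨D (j + 3) (consL 0 (dbl (j + 1) w)), D_D _ _, ?_⟩
    rw [pi_D, pi_consL]
    have h := B_dbl j w
    rw [hw, map_zero, add_zero] at h
    exact h

lemma finrank_K (j : ℕ) : finrank ℚ (LinearMap.ker (D (j + 2))) =
    finrank ℚ (Q (j + 1)) + 2 * 6 ^ (j + 2) + 2 * finrank ℚ (LinearMap.ker (dd (j + 1))) +
      finrank ℚ (LinearMap.ker (B (j + 1))) := by
  have h := genR (pi (j + 2)) (LinearMap.ker (D (j + 2)))
  rw [map_pi, inf_comm, ← range_Psi, LinearMap.finrank_range_of_inj (Psi_inj (j + 1))] at h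
  rw [finrank_prod, finrank_prod, finrank_prod, finrank_prod, finrank_T] at h
  have hp : 6 ^ (j + 1 + 1) = 6 ^ (j + 2) := rfl
  rw [hp] at h
  generalize 6 ^ (j + 2) = x at *
  rw [← h]
  ring

lemma finrank_K' (j a b : ℕ) (ha : a = j + 1) (hb : b = j + 2) :
    finrank ℚ (LinearMap.ker (D b)) =
    finrank ℚ (Q a) + 2 * 6 ^ b + 2 * finrank ℚ (LinearMap.ker (dd a)) +
      finrank ℚ (LinearMap.ker (B a)) := by
  subst ha hb
  exact finrank_K j

lemma rec_b' (j a b c : ℕ) (ha : a = j + 1) (hb : b = j + 2) (hc : c = j + 3) :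
    finrank ℚ (LinearMap.ker (B a)) + finrank ℚ (LinearMap.ker (B b)) = 6 ^ c := by
  subst ha hb hc
  exact rec_b j

lemma rec_k' (j b c : ℕ) (hb : b = j + 1) (hc : c = j + 2) :
    finrank ℚ (LinearMap.ker (dd j)) + finrank ℚ (LinearMap.ker (dd b)) = 6 ^ c := by
  subst hb hc
  exact rec_k j

lemma rec_k4' (j b c : ℕ) (hb : b = j + 1) (hc : c = j + 2) :
    finrank ℚ (LinearMap.ker (del 4 j)) + finrank ℚ (LinearMap.ker (del 4 b)) = 6 ^ c := by
  subst hb hc
  exact rec_k4 j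

lemma rec_q' (j b : ℕ) (hb : b = j + 1) :
    finrank ℚ (Q j) + finrank ℚ (Q b) = finrank ℚ (LinearMap.ker (del 4 b)) := by
  subst hb
  exact rec_q j

lemma finrank_R (j : ℕ) :
    finrank ℚ (LinearMap.range (D j)) + finrank ℚ (LinearMap.ker (D j)) = 6 ^ (j + 1) := by
  rw [← finrank_T]
  exact LinearMap.finrank_range_add_finrank_ker (D j)

lemma finrank_R' (j b : ℕ) (hb : b = j + 1) :
    finrank ℚ (LinearMap.range (D j)) + finrank ℚ (LinearMap.ker (D j)) = 6 ^ b := by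
  subst hb
  exact finrank_R j

lemma range_le (j : ℕ) :
    finrank ℚ (LinearMap.range (D (j + 1))) ≤ finrank ℚ (LinearMap.ker (D j)) := by
  apply Submodule.finrank_mono
  rintro _ ⟨z, rfl⟩
  exact D_D j z

lemma range_le' (j b : ℕ) (hb : b = j + 1) :
    finrank ℚ (LinearMap.range (D b)) ≤ finrank ℚ (LinearMap.ker (D j)) := by
  subst hb
  exact range_le j

theorem main :
    ¬ (finrank ℚ (LinearMap.ker (D 5)) - finrank ℚ (LinearMap.range (D 6)) =
      6 * (finrank ℚ (LinearMap.ker (D 4)) - finrank ℚ (LinearMap.range (D 5)))) := by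
  intro h
  have a4 : finrank ℚ (LinearMap.ker (D 4)) =
    finrank ℚ (Q 3) + 2 * 6 ^ 4 + 2 * finrank ℚ (LinearMap.ker (dd 3)) +
      finrank ℚ (LinearMap.ker (B 3)) := finrank_K' 2 3 4 rfl rfl
  have a5 : finrank ℚ (LinearMap.ker (D 5)) =
    finrank ℚ (Q 4) + 2 * 6 ^ 5 + 2 * finrank ℚ (LinearMap.ker (dd 4)) +
      finrank ℚ (LinearMap.ker (B 4)) := finrank_K' 3 4 5 rfl rfl
  have a6 : finrank ℚ (LinearMap.ker (D 6)) =
    finrank ℚ (Q 5) + 2 * 6 ^ 6 + 2 * finrank ℚ (LinearMap.ker (dd 5)) +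
      finrank ℚ (LinearMap.ker (B 5)) := finrank_K' 4 5 6 rfl rfl
  have r5 : finrank ℚ (LinearMap.range (D 5)) + finrank ℚ (LinearMap.ker (D 5)) = 6 ^ 6 :=
    finrank_R' 5 6 rfl
  have r6 : finrank ℚ (LinearMap.range (D 6)) + finrank ℚ (LinearMap.ker (D 6)) = 6 ^ 7 :=
    finrank_R' 6 7 rfl
  have l5 : finrank ℚ (LinearMap.range (D 5)) ≤ finrank ℚ (LinearMap.ker (D 4)) := range_le' 4 5 rfl
  have l6 : finrank ℚ (LinearMap.range (D 6)) ≤ finrank ℚ (LinearMap.ker (D 5)) := range_le' 5 6 rfl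
  have b3 : finrank ℚ (LinearMap.ker (B 3)) + finrank ℚ (LinearMap.ker (B 4)) = 6 ^ 5 := rec_b' 2 3 4 5 rfl rfl rfl
  have b4 : finrank ℚ (LinearMap.ker (B 4)) + finrank ℚ (LinearMap.ker (B 5)) = 6 ^ 6 := rec_b' 3 4 5 6 rfl rfl rfl
  have k3 : finrank ℚ (LinearMap.ker (dd 3)) + finrank ℚ (LinearMap.ker (dd 4)) = 6 ^ 5 :=
    rec_k' 3 4 5 rfl rfl
  have k4 : finrank ℚ (LinearMap.ker (dd 4)) + finrank ℚ (LinearMap.ker (dd 5)) = 6 ^ 6 :=
    rec_k' 4 5 6 rfl rfl
  have d4 : finrank ℚ (LinearMap.ker (del 4 4)) + finrank ℚ (LinearMap.ker (del 4 5)) = 6 ^ 6 :=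
    rec_k4' 4 5 6 rfl rfl
  have q3 : finrank ℚ (Q 3) + finrank ℚ (Q 4) = finrank ℚ (LinearMap.ker (del 4 4)) := rec_q' 3 4 rfl
  have q4 : finrank ℚ (Q 4) + finrank ℚ (Q 5) = finrank ℚ (LinearMap.ker (del 4 5)) := rec_q' 4 5 rfl
  omega

end H569R3.Shelf
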